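import Pool.Agent.LibFlatS3.Defs

set_option autoImplicit false

open scoped RealInnerProductSpace
open Topology

namespace Pool.Agent.LibFlatS3

/-- `IsChart r U ψ`: `ψ` restricted to the open set `U` of the plane is a homeomorphism onto an
open subset of `F`, and `r ∘ ψ` is a `C²` immersion on `U`. -/
structure IsChart {F : Type} [TopologicalSpace F] (r : F → E4) (U : Set E2) (ψ : E2 → F) :
    Prop where
  isOpen : IsOpen U
  emb : IsOpenEmbedding (U.domRestrict ψ)
  smooth : ContDiffOn ℝ 2 (r ∘ ψ) U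
  imm : ∀ x ∈ U, Function.Injective (fderiv ℝ (r ∘ ψ) x)

/-- `r : F → S³` is a `C²` surface: `F` is a Hausdorff, second countable, connected space covered
by charts, and `r` takes values in the unit sphere of `ℝ⁴`. -/
structure IsSurface {F : Type} [TopologicalSpace F] (r : F → E4) : Prop where
  t2 : T2Space F
  secondCountable : SecondCountableTopology F
  connected : ConnectedSpace F
  sphere : ∀ p, ‖r p‖ = 1
  charts : ∀ p : F, ∃ (U : Set E2) (ψ : E2 → F), IsChart r U ψ ∧ ∃ x ∈ U, ψ x = p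

/-- The metric induced by `r` is locally Euclidean: around each point there is a chart on which
the induced metric is the pull-back of the Euclidean metric of the plane by a `C²` map `δ`. -/
def IsLocallyEuclidean {F : Type} [TopologicalSpace F] (r : F → E4) : Prop :=
  ∀ p : F, ∃ (U : Set E2) (ψ : E2 → F), IsChart r U ψ ∧ (∃ x ∈ U, ψ x = p) ∧
    ∃ δ : E2 → E2, ContDiffOn ℝ 2 δ U ∧
      ∀ x ∈ U, ∀ w : E2, ‖fderiv ℝ δ x w‖ = ‖fderiv ℝ (r ∘ ψ) x w‖

/-- Orientability: `F` is covered by a family of charts any two of which are related, at every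
common point, by a linear change of tangent coordinates of positive determinant. -/
def IsOrientable {F : Type} [TopologicalSpace F] (r : F → E4) : Prop :=
  ∃ A : Set (Set E2 × (E2 → F)),
    (∀ a ∈ A, IsChart r a.1 a.2) ∧
    (∀ p : F, ∃ a ∈ A, ∃ x ∈ a.1, a.2 x = p) ∧
    ∀ a ∈ A, ∀ b ∈ A, ∀ x ∈ a.1, ∀ y ∈ b.1, a.2 x = b.2 y →
      ∃ L : E2 →L[ℝ] E2,
        fderiv ℝ (r ∘ a.2) x = (fderiv ℝ (r ∘ b.2) y).comp L ∧ 0 < L.det

/-- An open neighbourhood of `S` is orientable: there is a family of charts covering `S` any two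
of which are related, at every common point, by a linear change of tangent coordinates of
positive determinant. -/
def IsOrientableNear {F : Type} [TopologicalSpace F] (r : F → E4) (S : Set F) : Prop :=
  ∃ A : Set (Set E2 × (E2 → F)),
    (∀ a ∈ A, IsChart r a.1 a.2) ∧
    (∀ p ∈ S, ∃ a ∈ A, ∃ x ∈ a.1, a.2 x = p) ∧
    ∀ a ∈ A, ∀ b ∈ A, ∀ x ∈ a.1, ∀ y ∈ b.1, a.2 x = b.2 y →
      ∃ L : E2 →L[ℝ] E2,
        fderiv ℝ (r ∘ a.2) x = (fderiv ℝ (r ∘ b.2) y).comp L ∧ 0 < L.det

/-- `ν` is normal to the surface `r` in the three-sphere at `ψ x`. -/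
def IsNormalVector {F : Type} (r : F → E4) (ψ : E2 → F) (x : E2) (ν : E4) : Prop :=
  ⟪ν, r (ψ x)⟫ = 0 ∧ ∀ w : E2, ⟪ν, fderiv ℝ (r ∘ ψ) x w⟫ = 0

/-- `v` is a nonzero asymptotic tangent vector of the surface at `p`: it is the image of some
`w ≠ 0` under the differential of a chart, and the second fundamental form in the three-sphere
vanishes on `w`. -/
def IsAsymptoticVector {F : Type} [TopologicalSpace F] (r : F → E4) (p : F) (v : E4) : Prop :=
  ∃ (U : Set E2) (ψ : E2 → F), IsChart r U ψ ∧ ∃ x ∈ U, ψ x = p ∧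
    ∃ w : E2, w ≠ 0 ∧ fderiv ℝ (r ∘ ψ) x w = v ∧
      ∀ ν : E4, IsNormalVector r ψ x ν → ⟪ν, fderiv ℝ (fderiv ℝ (r ∘ ψ)) x w w⟫ = 0

/-- `c` is a closed asymptotic line of period `T`. -/
structure IsClosedAsymptoticLine {F : Type} [TopologicalSpace F] (r : F → E4) (c : ℝ → F)
    (T : ℝ) : Prop where
  pos : 0 < T
  periodic : ∀ s, c (s + T) = c s
  continuous : Continuous c
  smooth : ContDiff ℝ 1 (r ∘ c)
  asymptotic : ∀ s, IsAsymptoticVector r (c s) (deriv (r ∘ c) s)

end Pool.Agent.LibFlatS3
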