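import Pool.Agent.LibFlatS3.Final

set_option autoImplicit false

open scoped RealInnerProductSpace
open Topology

namespace Pool.Agent.LibFlatS3

variable {F : Type} [TopologicalSpace F] {r : F → E4}

theorem chart_iff {U : Set E2} {ψ : E2 → F} : Chart r U ψ ↔ IsChart r U ψ := by
  constructor
  · intro h
    refine ⟨h.isOpen, h.emb, h.smooth, fun x hx => ?_⟩
    rw [injective_iff_map_eq_zero]
    exact fun w hw => h.imm x hx w hw
  · intro h
    refine ⟨h.isOpen, h.emb, h.smooth, fun x hx w hw => ?_⟩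
    exact (injective_iff_map_eq_zero _).mp (h.imm x hx) w hw

theorem surface_iff : Surface r ↔ IsSurface r := by
  constructor
  · intro h
    refine ⟨h.t2, h.secondCountable, h.connected, h.sphere, fun p => ?_⟩
    obtain ⟨U, ψ, hch, hx⟩ := h.charts p
    exact ⟨U, ψ, chart_iff.mp hch, hx⟩
  · intro h
    refine ⟨h.t2, h.secondCountable, h.connected, h.sphere, fun p => ?_⟩
    obtain ⟨U, ψ, hch, hx⟩ := h.charts p
    exact ⟨U, ψ, chart_iff.mpr hch, hx⟩

theorem locallyEuclidean_iff : LocallyEuclidean r ↔ IsLocallyEuclidean r := by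
  constructor
  · intro h p
    obtain ⟨U, ψ, hch, hx, δ, hδ, hiso⟩ := h p
    exact ⟨U, ψ, chart_iff.mp hch, hx, δ, hδ, hiso⟩
  · intro h p
    obtain ⟨U, ψ, hch, hx, δ, hδ, hiso⟩ := h p
    exact ⟨U, ψ, chart_iff.mpr hch, hx, δ, hδ, hiso⟩

theorem sameOrientation_iff {f g : E2 → E4} {x y : E2} : SameOrientation f g x y ↔
    ∃ L : E2 →L[ℝ] E2, fderiv ℝ f x = (fderiv ℝ g y).comp L ∧ 0 < L.det := by
  constructor
  · rintro ⟨a, b, c, d, hdet, h⟩
    let L : E2 →L[ℝ] E2 := LinearMap.toContinuousLinearMap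
      { toFun := fun v => !₂[a * v 0 + b * v 1, c * v 0 + d * v 1]
        map_add' := by
          intro u v
          ext i
          fin_cases i <;> simp <;> ring
        map_smul' := by
          intro t v
          ext i
          fin_cases i <;> simp <;> ring }
    have hL : ∀ v, L v = !₂[a * v 0 + b * v 1, c * v 0 + d * v 1] := fun v => rfl
    refine ⟨L, ?_, ?_⟩
    · ext1 w
      have h1 := h (w 0) (w 1)
      have hw : (!₂[w 0, w 1] : E2) = w := by ext i; fin_cases i <;> simp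
      rw [hw] at h1
      rw [ContinuousLinearMap.comp_apply, hL]
      exact h1
    · rw [det_E2, hL, hL]
      simpa [e0, e1] using hdet
  · rintro ⟨L, hL, hdet⟩
    refine ⟨(L e0) 0, (L e1) 0, (L e0) 1, (L e1) 1, ?_, ?_⟩
    · rw [det_E2] at hdet; exact hdet
    · intro s t
      have h1 : (!₂[s, t] : E2) = s • e0 + t • e1 := by
        ext i; fin_cases i <;> simp [e0, e1]
      have h2 : L !₂[s, t] = !₂[(L e0) 0 * s + (L e1) 0 * t, (L e0) 1 * s + (L e1) 1 * t] := by
        rw [h1, map_add, map_smul, map_smul]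
        ext i; fin_cases i <;> simp <;> ring
      change fderiv ℝ f x !₂[s, t] = fderiv ℝ g y _
      rw [hL, ContinuousLinearMap.comp_apply, h2]

theorem orientableNear_iff {S : Set F} : OrientableNear r S ↔ IsOrientableNear r S := by
  constructor
  · rintro ⟨A, h1, h2, h3⟩
    exact ⟨A, fun a ha => chart_iff.mp (h1 a ha), h2,
      fun a ha b hb x hx y hy hxy => sameOrientation_iff.mp (h3 a ha b hb x hx y hy hxy)⟩
  · rintro ⟨A, h1, h2, h3⟩
    exact ⟨A, fun a ha => chart_iff.mpr (h1 a ha), h2,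
      fun a ha b hb x hx y hy hxy => sameOrientation_iff.mpr (h3 a ha b hb x hx y hy hxy)⟩

theorem orientable_iff : Orientable r ↔ IsOrientable r := by
  rw [Orientable, orientableNear_iff]
  constructor
  · rintro ⟨A, h1, h2, h3⟩
    exact ⟨A, h1, fun p => h2 p (Set.mem_univ p), h3⟩
  · rintro ⟨A, h1, h2, h3⟩
    exact ⟨A, h1, fun p _ => h2 p, h3⟩

theorem dir_dir {U : Set E2} {ψ : E2 → F} (h : IsChart r U ψ) {x : E2} (hx : x ∈ U) (w : E2) :
    dir (fun y => dir (r ∘ ψ) y w) x w = fderiv ℝ (fderiv ℝ (r ∘ ψ)) x w w := by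
  have h1 : HasFDerivAt (fderiv ℝ (r ∘ ψ)) (fderiv ℝ (fderiv ℝ (r ∘ ψ)) x) x :=
    (((h.contDiffAt hx).fderiv_right (m := 1) (by norm_num)).differentiableAt
      (by norm_num)).hasFDerivAt
  have h2 := h1.clm_apply (hasFDerivAt_const w x)
  change fderiv ℝ (fun y => fderiv ℝ (r ∘ ψ) y w) x w = _
  rw [h2.fderiv]
  simp

theorem asymptoticVector_iff {p : F} {v : E4} :
    AsymptoticVector r p v ↔ IsAsymptoticVector r p v := by
  constructor
  · rintro ⟨U, ψ, hch, x, hx, hp, w, hw, hv, hn⟩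
    refine ⟨U, ψ, chart_iff.mp hch, x, hx, hp, w, hw, hv, fun ν hν => ?_⟩
    rw [← dir_dir (chart_iff.mp hch) hx]
    exact hn ν hν
  · rintro ⟨U, ψ, hch, x, hx, hp, w, hw, hv, hn⟩
    refine ⟨U, ψ, chart_iff.mpr hch, x, hx, hp, w, hw, hv, fun ν hν => ?_⟩
    rw [dir_dir hch hx]
    exact hn ν hν

theorem closedAsymptoticLine_of {c : ℝ → F} {T : ℝ} (h : IsClosedAsymptoticLine r c T) :
    ClosedAsymptoticLine r c T :=
  ⟨⟨h.continuous, h.smooth, fun s => asymptoticVector_iff.mpr (h.asymptotic s)⟩,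
    h.pos, h.periodic⟩

end Pool.Agent.LibFlatS3
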