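import Pool.Agent.LibFlatS3.Global

set_option autoImplicit false

open scoped RealInnerProductSpace Quaternion
open Topology Filter

namespace Pool.Agent.LibFlatS3

attribute [local instance] starModuleH

variable {F : Type} [TopologicalSpace F] {r : F → E4}

/-- Right (`b = true`) or left (`b = false`) multiplication by `k`. -/
noncomputable def op (b : Bool) (k q : ℍ[ℝ]) : ℍ[ℝ] := if b then q * k else k * q

theorem op_continuous (b : Bool) (k : ℍ[ℝ]) : Continuous (op b k) := by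
  unfold op
  cases b
  · simp only [Bool.false_eq_true, if_false]; fun_prop
  · simp only [if_true]; fun_prop

theorem op_smul_left (b : Bool) (t : ℝ) (k q : ℍ[ℝ]) : op b (t • k) q = t • op b k q := by
  cases b <;> simp [op]

theorem op_cancel (b : Bool) {k k' q : ℍ[ℝ]} (hq : q ≠ 0) (h : op b k q = op b k' q) : k = k' := by
  cases b
  · simp only [op, Bool.false_eq_true, if_false] at h
    exact mul_right_cancel₀ hq h
  · simp only [op, if_true] at h
    exact mul_left_cancel₀ hq h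

theorem norm_op (b : Bool) (k q : ℍ[ℝ]) : ‖op b k q‖ = ‖k‖ * ‖q‖ := by
  cases b
  · simp [op]
  · simp [op, mul_comm]

/-- Local structure along an asymptotic curve. -/
theorem local_claim (hs : ∀ p, ‖r p‖ = 1) (hflat : IsLocallyEuclidean r) {c : ℝ → F}
    (hc : Continuous c) (hc1 : ContDiff ℝ 1 (r ∘ c))
    (hasy : ∀ s, IsAsymptoticVector r (c s) (deriv (r ∘ c) s)) (s₀ : ℝ) :
    ∃ (b : Bool) (k : ℍ[ℝ]), k ≠ 0 ∧ ∀ᶠ s in 𝓝 s₀, IsNor r (c s) (op b k (Th (r (c s)))) := by
  obtain ⟨d⟩ := exists_flatData hs hflat (c s₀)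
  obtain ⟨inv, O, hO, hpO, hinv, hinv2⟩ := d.exists_inverse
  have hev : ∀ᶠ s in 𝓝 s₀, c s ∈ O := hc.continuousAt.preimage_mem_nhds (hO.mem_nhds hpO)
  obtain ⟨ε, hε, hball⟩ := Metric.eventually_nhds_iff_ball.mp hev
  set I := Metric.ball s₀ ε with hI
  let y : ℝ → E2 := fun s => d.δ (inv (c s))
  have hyV : ∀ s ∈ I, y s ∈ d.V := fun s hs => (d.mapδ _ (hinv2 _ (hball s hs)).1).1
  have hfy : ∀ s ∈ I, d.f (y s) = Th (r (c s)) := by
    intro s hs
    have h := hinv2 _ (hball s hs)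
    rw [d.f_δ h.1, h.2]
  have hyc : ∀ s ∈ I, ContinuousAt y s := by
    intro s hs
    have hmem := hball s hs
    have h1 : ContinuousAt inv (c s) := hinv.continuousAt (hO.mem_nhds hmem)
    have h2 : ContinuousAt d.δ (inv (c s)) :=
      (d.contδ.contDiffAt (d.openW.mem_nhds (hinv2 _ hmem).1)).continuousAt
    have h3 : ContinuousAt (fun s => inv (c s)) s := ContinuousAt.comp h1 hc.continuousAt
    exact ContinuousAt.comp (f := fun s => inv (c s)) h2 h3
  let u' : ℝ → ℍ[ℝ] := fun s => Th (deriv (r ∘ c) s)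
  have hu : ∀ s, HasDerivAt (fun s => Th (r (c s))) (u' s) s := by
    intro s
    exact (Th.toContinuousLinearEquiv : E4 →L[ℝ] ℍ[ℝ]).hasFDerivAt.comp_hasDerivAt s
      (hc1.differentiable (by norm_num) s).hasDerivAt
  have hu'c : Continuous u' := Th.continuous.comp (hc1.continuous_deriv (by norm_num))
  let w : ℝ → E2 := fun s =>
    !₂[⟪fderiv ℝ d.f (y s) e0, u' s⟫, ⟪fderiv ℝ d.f (y s) e1, u' s⟫]
  have hder : ∀ s ∈ I, HasDerivAt y (w s) s ∧ fderiv ℝ d.f (y s) (w s) = u' s := by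
    intro s hs
    have hopen : I ∈ 𝓝 s := Metric.isOpen_ball.mem_nhds hs
    obtain ⟨L, hL1, hL2⟩ := factor_general (d.strict (hyV s hs))
      (IsoImm.inj _ _ d.imm (hyV s hs)) (hu s).hasFDerivAt (hyc s hs) rfl
      (by filter_upwards [hopen] with s' hs'; exact hfy s' hs')
    have h1 : HasDerivAt y (L 1) s := hL1.hasDerivAt
    have h2 : fderiv ℝ d.f (y s) (L 1) = u' s := by
      have := congrArg (fun T => T 1) hL2
      simpa using this.symm
    have h3 : w s = L 1 := by
      have hi := d.imm.inner_isom (hyV s hs)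
      have c0 : ⟪fderiv ℝ d.f (y s) e0, u' s⟫ = (L 1) 0 := by
        rw [← h2, hi, PiLp.inner_apply]
        simp [e0]
      have c1 : ⟪fderiv ℝ d.f (y s) e1, u' s⟫ = (L 1) 1 := by
        rw [← h2, hi, PiLp.inner_apply]
        simp [e1]
      change (!₂[⟪fderiv ℝ d.f (y s) e0, u' s⟫, ⟪fderiv ℝ d.f (y s) e1, u' s⟫] : E2) = L 1
      rw [c0, c1]
      ext i; fin_cases i <;> simp
    rw [h3]; exact ⟨h1, h2⟩
  have hwc : ContinuousOn w I := by
    have h0 : ∀ e : E2, ContinuousOn (fun s => ⟪fderiv ℝ d.f (y s) e, u' s⟫) I := by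
      intro e s hs
      have h1 : ContinuousAt (fun z => fderiv ℝ d.f z) (y s) :=
        (d.imm.contDiffAt_fderiv (hyV s hs)).continuousAt
      have h2 : ContinuousAt (fun s => fderiv ℝ d.f (y s)) s :=
        ContinuousAt.comp (f := y) h1 (hyc s hs)
      exact ((h2.clm_apply continuousAt_const).inner hu'c.continuousAt).continuousWithinAt
    have hC : ContinuousOn (fun s => (![⟪fderiv ℝ d.f (y s) e0, u' s⟫,
        ⟪fderiv ℝ d.f (y s) e1, u' s⟫] : Fin 2 → ℝ)) I := by
      rw [continuousOn_pi]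
      intro i
      fin_cases i
      · exact h0 e0
      · exact h0 e1
    exact (PiLp.continuous_toLp 2 (fun _ : Fin 2 => ℝ)).comp_continuousOn hC
  have hasI : ∀ s ∈ I, w s ≠ 0 ∧ II d.f (y s) (w s) (w s) = 0 := by
    intro s hs
    obtain ⟨U₁, ψ₁, hch, x₁, hx₁, hcx, w₁, hw₁, hv, hnor⟩ := hasy s
    have hmem : ψ₁ x₁ ∈ O := by rw [hcx]; exact hball s hs
    obtain ⟨w', hw'1, hw'2⟩ := d.transfer hch hx₁ hO hinv hinv2 hmem w₁
    rw [hcx] at hw'1 hw'2
    have hy : d.δ (inv (c s)) = y s := rfl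
    rw [hy] at hw'1 hw'2
    have hww : w' = w s := by
      apply IsoImm.inj _ _ d.imm (hyV s hs)
      rw [hw'1, (hder s hs).2, hv]
    constructor
    · intro h0
      have h1 := (hder s hs).2
      rw [h0, map_zero] at h1
      have h2 : Th (fderiv ℝ (r ∘ ψ₁) x₁ w₁) = 0 := by
        rw [hv]; exact h1.symm
      have h3 : fderiv ℝ (r ∘ ψ₁) x₁ w₁ = 0 := by
        simpa using h2
      exact hw₁ ((injective_iff_map_eq_zero _).mp (hch.imm x₁ hx₁) w₁ h3)
    · rw [← hww, ← hw'2]
      have hn := d.isNor (hinv2 _ (hball s hs)).1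
      rw [(hinv2 _ (hball s hs)).2] at hn
      have key : IsNormalVector r ψ₁ x₁ (Th.symm (nor d.f (y s))) := by
        constructor
        · rw [hcx]
          have := hn.1
          rw [← Th.inner_map_map, LinearIsometryEquiv.apply_symm_apply]
          exact this
        · intro w''
          rw [← Th.inner_map_map, LinearIsometryEquiv.apply_symm_apply]
          exact hn.2 U₁ ψ₁ hch x₁ hx₁ hcx w''
      have h4 := hnor _ key
      rw [← Th.inner_map_map, LinearIsometryEquiv.apply_symm_apply] at h4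
      exact h4
  have hev2 : ∀ᶠ s in 𝓝 s₀, s ∈ I := Metric.isOpen_ball.mem_nhds (Metric.mem_ball_self hε)
  have hIpre : IsPreconnected I := (convex_ball s₀ ε).isPreconnected
  have hnorI : ∀ s ∈ I, IsNor r (c s) (nor d.f (y s)) := by
    intro s hs
    have hn := d.isNor (hinv2 _ (hball s hs)).1
    rw [(hinv2 _ (hball s hs)).2] at hn
    exact hn
  have hnn : nor d.f (y s₀) ≠ 0 := by
    intro h0
    have := (d.imm.nor_spec (hyV s₀ (Metric.mem_ball_self hε))).1
    rw [h0] at this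
    simp at this
  rcases d.imm.local_const Metric.isOpen_ball hIpre hyV (fun s hs => (hder s hs).1)
    (fun s hs => (hasI s hs).1) hwc (fun s hs => (hasI s hs).2) with ⟨k, hk⟩ | ⟨l, hl⟩
  · refine ⟨true, k, ?_, ?_⟩
    · rintro rfl
      apply hnn
      rw [hk s₀ (Metric.mem_ball_self hε), mul_zero]
    · filter_upwards [hev2] with s hs
      have h1 := hnorI s hs
      rw [hk s hs, hfy s hs] at h1
      exact h1
  · refine ⟨false, l, ?_, ?_⟩
    · rintro rfl
      apply hnn
      rw [hl s₀ (Metric.mem_ball_self hε), zero_mul]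
    · filter_upwards [hev2] with s hs
      have h1 := hnorI s hs
      rw [hl s hs, hfy s hs] at h1
      exact h1

/-- Two normal vectors at the same point are proportional. -/
theorem IsNor.unique (hs : ∀ p, ‖r p‖ = 1) (hflat : IsLocallyEuclidean r) {p : F} {ν ν' : ℍ[ℝ]}
    (h : IsNor r p ν) (h' : IsNor r p ν') (hν : ν ≠ 0) : ∃ t : ℝ, ν' = t • ν := by
  obtain ⟨d⟩ := exists_flatData hs hflat p
  have h1 : IsNor r (d.ψ d.x₀) ν := by rw [d.eq]; exact h
  have h2 : IsNor r (d.ψ d.x₀) ν' := by rw [d.eq]; exact h'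
  have e1 := d.nor_unique d.mem h1
  have e2 := d.nor_unique d.mem h2
  have hne : ⟪nor d.f (d.δ d.x₀), ν⟫ ≠ 0 := by
    intro h0
    rw [h0, zero_smul] at e1
    exact hν e1
  refine ⟨⟪nor d.f (d.δ d.x₀), ν'⟫ / ⟪nor d.f (d.δ d.x₀), ν⟫, ?_⟩
  rw [e1]
  conv_lhs => rw [e2]
  rw [smul_smul]
  congr 1
  rw [← e1]
  field_simp

theorem IsNor.smul {p : F} {ν : ℍ[ℝ]} (h : IsNor r p ν) (t : ℝ) : IsNor r p (t • ν) := by
  constructor
  · rw [real_inner_smul_left, h.1, mul_zero]
  · intro U ψ hch x hx heq w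
    rw [real_inner_smul_left, h.2 U ψ hch x hx heq w, mul_zero]

end Pool.Agent.LibFlatS3
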