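import Mathlib

set_option autoImplicit false

open scoped RealInnerProductSpace
open Topology

namespace Pool.Agent.LibFlatS3

/-- The Euclidean plane. -/
abbrev E2 := EuclideanSpace ℝ (Fin 2)

/-- Euclidean four-space; the three-sphere is its set of unit vectors. -/
abbrev E4 := EuclideanSpace ℝ (Fin 4)

/-- The derivative of `f` at `x` in the direction `w`. -/
noncomputable def dir {m : ℕ} (f : E2 → EuclideanSpace ℝ (Fin m)) (x w : E2) :
    EuclideanSpace ℝ (Fin m) := fderiv ℝ f x w

/-- `Chart r U ψ`: `ψ` restricted to the open set `U` of the plane is a homeomorphism onto an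
open subset of `F`, and `r ∘ ψ` is a `C²` immersion on `U`. -/
structure Chart {F : Type} [TopologicalSpace F] (r : F → E4) (U : Set E2) (ψ : E2 → F) :
    Prop where
  isOpen : IsOpen U
  emb : IsOpenEmbedding (U.domRestrict ψ)
  smooth : ContDiffOn ℝ 2 (r ∘ ψ) U
  imm : ∀ x ∈ U, ∀ w, dir (r ∘ ψ) x w = 0 → w = 0

/-- `r : F → S³` is a connected `C²` surface: `F` is a Hausdorff, second countable, connected
space covered by charts, and `r` takes values in the unit sphere of `ℝ⁴`. -/
structure Surface {F : Type} [TopologicalSpace F] (r : F → E4) : Prop where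
  t2 : T2Space F
  secondCountable : SecondCountableTopology F
  connected : ConnectedSpace F
  sphere : ∀ p, ‖r p‖ = 1
  charts : ∀ p : F, ∃ (U : Set E2) (ψ : E2 → F), Chart r U ψ ∧ ∃ x ∈ U, ψ x = p

/-- The metric induced by `r` is locally Euclidean: around each point there is a chart on which
the induced metric is the pull-back of the Euclidean metric of the plane by a `C²` map `δ`. -/
def LocallyEuclidean {F : Type} [TopologicalSpace F] (r : F → E4) : Prop :=
  ∀ p : F, ∃ (U : Set E2) (ψ : E2 → F), Chart r U ψ ∧ (∃ x ∈ U, ψ x = p) ∧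
    ∃ δ : E2 → E2, ContDiffOn ℝ 2 δ U ∧ ∀ x ∈ U, ∀ w : E2, ‖dir δ x w‖ = ‖dir (r ∘ ψ) x w‖

/-- The differentials of `f` at `x` and of `g` at `y` differ by a linear change of coordinates
`(s, t) ↦ (a s + b t, c s + d t)` of positive determinant `a d - b c`. -/
def SameOrientation (f g : E2 → E4) (x y : E2) : Prop :=
  ∃ a b c d : ℝ, 0 < a * d - b * c ∧
    ∀ s t : ℝ, dir f x !₂[s, t] = dir g y !₂[a * s + b * t, c * s + d * t]

/-- An open neighbourhood of `S` is orientable: there is a family of charts covering `S` any two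
of which are related, at every common point, by a linear change of tangent coordinates of
positive determinant. -/
def OrientableNear {F : Type} [TopologicalSpace F] (r : F → E4) (S : Set F) : Prop :=
  ∃ A : Set (Set E2 × (E2 → F)),
    (∀ a ∈ A, Chart r a.1 a.2) ∧
    (∀ p ∈ S, ∃ a ∈ A, ∃ x ∈ a.1, a.2 x = p) ∧
    ∀ a ∈ A, ∀ b ∈ A, ∀ x ∈ a.1, ∀ y ∈ b.1, a.2 x = b.2 y →
      SameOrientation (r ∘ a.2) (r ∘ b.2) x y

/-- Orientability of the whole surface. -/
def Orientable {F : Type} [TopologicalSpace F] (r : F → E4) : Prop :=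
  OrientableNear r Set.univ

/-- The vector `ν` is orthogonal to the position vector `f x` and to the tangent plane of `f`
at `x`, that is, normal to the surface in the three-sphere. -/
def NormalVector (f : E2 → E4) (x : E2) (ν : E4) : Prop :=
  ⟪ν, f x⟫ = 0 ∧ ∀ w : E2, ⟪ν, dir f x w⟫ = 0

/-- The second fundamental form of `f` in the three-sphere vanishes on `w` at `x`. -/
def NullDirection (f : E2 → E4) (x w : E2) : Prop :=
  ∀ ν : E4, NormalVector f x ν → ⟪ν, dir (fun y => dir f y w) x w⟫ = 0

/-- `v` is a nonzero asymptotic tangent vector of the surface at `p`. -/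
def AsymptoticVector {F : Type} [TopologicalSpace F] (r : F → E4) (p : F) (v : E4) : Prop :=
  ∃ (U : Set E2) (ψ : E2 → F), Chart r U ψ ∧ ∃ x ∈ U, ψ x = p ∧
    ∃ w : E2, w ≠ 0 ∧ dir (r ∘ ψ) x w = v ∧ NullDirection (r ∘ ψ) x w

/-- `c : ℝ → F` is an asymptotic line: it is continuous, `r ∘ c` is `C¹`, and its derivative is
everywhere a nonzero asymptotic vector. -/
structure AsymptoticLine {F : Type} [TopologicalSpace F] (r : F → E4) (c : ℝ → F) : Prop where
  continuous : Continuous c
  smooth : ContDiff ℝ 1 (r ∘ c)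
  asymptotic : ∀ s, AsymptoticVector r (c s) (deriv (r ∘ c) s)

/-- `c` is a closed asymptotic line of period `T`. -/
def ClosedAsymptoticLine {F : Type} [TopologicalSpace F] (r : F → E4) (c : ℝ → F)
    (T : ℝ) : Prop :=
  AsymptoticLine r c ∧ 0 < T ∧ ∀ s, c (s + T) = c s

end Pool.Agent.LibFlatS3
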