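import Pool.Agent.LibFlatS3.Regions

set_option autoImplicit false

open scoped RealInnerProductSpace
open Topology Filter

namespace Pool.Agent.LibFlatS3

noncomputable def e0 : E2 := !₂[(1:ℝ), 0]
noncomputable def e1 : E2 := !₂[(0:ℝ), 1]

theorem E2_decomp (w : E2) : w = w 0 • e0 + w 1 • e1 := by
  ext i; fin_cases i <;> simp [e0, e1]

theorem det_E2 (L : E2 →L[ℝ] E2) : L.det = (L e0) 0 * (L e1) 1 - (L e1) 0 * (L e0) 1 := by
  have h : L.det = LinearMap.det (L : E2 →ₗ[ℝ] E2) := rfl
  rw [h, ← LinearMap.det_toMatrix (EuclideanSpace.basisFun (Fin 2) ℝ).toBasis, Matrix.det_fin_two]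
  have h0 : (EuclideanSpace.basisFun (Fin 2) ℝ).toBasis 0 = e0 := by
    ext i; fin_cases i <;> simp [e0]
  have h1 : (EuclideanSpace.basisFun (Fin 2) ℝ).toBasis 1 = e1 := by
    ext i; fin_cases i <;> simp [e1]
  simp only [LinearMap.toMatrix_apply, h0, h1]
  rfl

theorem det_comp' (L M : E2 →L[ℝ] E2) : (L.comp M).det = L.det * M.det := by
  change LinearMap.det ((L.comp M : E2 →L[ℝ] E2) : E2 →ₗ[ℝ] E2) = _
  rw [ContinuousLinearMap.toLinearMap_comp, LinearMap.det_comp]

theorem gram_det (T : E2 →L[ℝ] E4) (L : E2 →L[ℝ] E2) :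
    ⟪T e0, T (L e0)⟫ * ⟪T e1, T (L e1)⟫ - ⟪T e0, T (L e1)⟫ * ⟪T e1, T (L e0)⟫
      = (⟪T e0, T e0⟫ * ⟪T e1, T e1⟫ - ⟪T e0, T e1⟫ ^ 2) * L.det := by
  have h0 : T (L e0) = (L e0) 0 • T e0 + (L e0) 1 • T e1 := by
    conv_lhs => rw [E2_decomp (L e0)]
    simp
  have h1 : T (L e1) = (L e1) 0 • T e0 + (L e1) 1 • T e1 := by
    conv_lhs => rw [E2_decomp (L e1)]
    simp
  have h2 : ⟪T e1, T e0⟫ = ⟪T e0, T e1⟫ := real_inner_comm _ _
  rw [h0, h1, det_E2]
  simp only [inner_add_right, real_inner_smul_right, h2]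
  ring

theorem det_ne_zero_of_injective {L : E2 →L[ℝ] E2} (h : Function.Injective L) : L.det ≠ 0 := by
  have h1 : (L : E2 →ₗ[ℝ] E2).ker = ⊥ := LinearMap.ker_eq_bot.mpr h
  exact ((LinearMap.isUnit_iff_isUnit_det _).mp
    ((LinearMap.isUnit_iff_ker_eq_bot _).mpr h1)).ne_zero

theorem tube_gram (x : E2) :
    0 < ⟪fderiv ℝ (tube P) x e0, fderiv ℝ (tube P) x e0⟫
        * ⟪fderiv ℝ (tube P) x e1, fderiv ℝ (tube P) x e1⟫
      - ⟪fderiv ℝ (tube P) x e0, fderiv ℝ (tube P) x e1⟫ ^ 2 := by
  have hd := P_contDiff.differentiable (by norm_num)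
  have h0 : fderiv ℝ (tube P) x e0 = rot (x 1) (deriv P (x 0)) := by
    rw [tube_fderiv_apply (hd (x 0)).hasDerivAt]; simp [e0]
  have h1 : fderiv ℝ (tube P) x e1 = rot (x 1) (J (P (x 0))) := by
    rw [tube_fderiv_apply (hd (x 0)).hasDerivAt, rot_J]; simp [e1, tube]
  rw [h0, h1, inner_rot, inner_rot, inner_rot]
  have h2 : deriv P (x 0) = hor P (x 0) + mu P (x 0) • J (P (x 0)) := by
    rw [hor]; abel
  have h4 : ⟪J (P (x 0)), J (P (x 0))⟫ = 1 := by
    rw [inner_J_J, real_inner_self_eq_norm_sq, norm_P]; norm_num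
  have h5 := inner_hor_J norm_P (x 0)
  have h6 : ⟪J (P (x 0)), hor P (x 0)⟫ = 0 := by rw [real_inner_comm]; exact h5
  rw [h2]
  simp only [inner_add_left, inner_add_right, real_inner_smul_left, real_inner_smul_right,
    h4, h5, h6]
  have h7 : 0 < ⟪hor P (x 0), hor P (x 0)⟫ :=
    real_inner_self_pos.mpr (hor_P_ne_zero _)
  nlinarith

section
variable (A : Set (Set E2 × (E2 → M)))

/-- The orientation of the family `A` at the point `line t` agrees up to the sign `σ` with
that of the tube. -/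
def Sgn (σ : ℝ) (t : ℝ) : Prop := ∃ a ∈ A, ∃ x ∈ a.1, a.2 x = par (line t) ∧
  ∃ L : E2 →L[ℝ] E2, fderiv ℝ ((Subtype.val : M → E4) ∘ a.2) x
    = (fderiv ℝ (tube P) (line t)).comp L ∧ 0 < σ * L.det

variable {A}

theorem Sgn_open (hA : ∀ a ∈ A, IsChart (Subtype.val : M → E4) a.1 a.2) (σ : ℝ) :
    IsOpen {t | Sgn A σ t} := by
  rw [isOpen_iff_mem_nhds]
  rintro t₀ ⟨a, ha, x₀, hx₀, hax, L₀, hL₀, hdet⟩
  obtain ⟨inv, hinv1, hinv2, hopen, hinv3, hinv4⟩ := (hA a ha).exists_inverse hx₀
  have hline : Continuous line := by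
    unfold line
    have : Continuous (fun t : ℝ => (![t, Real.pi / 2 * t] : Fin 2 → ℝ)) := by fun_prop
    exact (PiLp.continuous_toLp 2 (fun _ : Fin 2 => ℝ)).comp this
  have hpar : Continuous (fun t => par (line t)) := by
    rw [Topology.IsInducing.subtypeVal.continuous_iff]
    have : (Subtype.val ∘ fun t => par (line t)) = fun t => tube P (line t) := by
      funext t; exact par_val (line_mem t)
    rw [this]
    exact (tube_contDiff P_contDiff).continuous.comp hline
  have hmem0 : par (line t₀) ∈ a.2 '' a.1 := ⟨x₀, hx₀, hax⟩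
  have hev : ∀ᶠ t in 𝓝 t₀, par (line t) ∈ a.2 '' a.1 :=
    hpar.continuousAt.preimage_mem_nhds (hopen.mem_nhds hmem0)
  have hκ : ContinuousAt (fun t => inv (par (line t))) t₀ :=
    ContinuousAt.comp (f := fun t => par (line t)) (hinv2.continuousAt (hopen.mem_nhds hmem0))
      hpar.continuousAt
  have hκ0 : inv (par (line t₀)) = x₀ := by rw [← hax]; exact hinv1
  let f : E2 → E4 := (Subtype.val : M → E4) ∘ a.2
  have hf : ContinuousAt (fun x => fderiv ℝ f x) x₀ := by
    have h1 : ContDiffAt ℝ 2 f x₀ := (hA a ha).contDiffAt hx₀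
    exact (h1.fderiv_right (m := 1) (by norm_num)).continuousAt
  have hfκ : ContinuousAt (fun t => fderiv ℝ f (inv (par (line t)))) t₀ := by
    have : ContinuousAt (fun x => fderiv ℝ f x) (inv (par (line t₀))) := by rw [hκ0]; exact hf
    exact ContinuousAt.comp (f := fun t => inv (par (line t))) this hκ
  have htube : Continuous (fun t => fderiv ℝ (tube P) (line t)) :=
    ((tube_contDiff P_contDiff).continuous_fderiv (by norm_num)).comp hline
  let d : ℝ → ℝ := fun t =>
    ⟪fderiv ℝ (tube P) (line t) e0, fderiv ℝ f (inv (par (line t))) e0⟫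
      * ⟪fderiv ℝ (tube P) (line t) e1, fderiv ℝ f (inv (par (line t))) e1⟫
      - ⟪fderiv ℝ (tube P) (line t) e0, fderiv ℝ f (inv (par (line t))) e1⟫
      * ⟪fderiv ℝ (tube P) (line t) e1, fderiv ℝ f (inv (par (line t))) e0⟫
  have hd : ContinuousAt d t₀ := by
    have ht : ContinuousAt (fun t => fderiv ℝ (tube P) (line t)) t₀ := htube.continuousAt
    have c1 : ∀ e : E2, ContinuousAt (fun t => fderiv ℝ (tube P) (line t) e) t₀ :=
      fun e => ht.clm_apply continuousAt_const
    have c2 : ∀ e : E2, ContinuousAt (fun t => fderiv ℝ f (inv (par (line t))) e) t₀ :=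
      fun e => hfκ.clm_apply continuousAt_const
    exact (((c1 e0).inner (c2 e0)).mul ((c1 e1).inner (c2 e1))).sub
      (((c1 e0).inner (c2 e1)).mul ((c1 e1).inner (c2 e0)))
  have hd0 : 0 < σ * d t₀ := by
    have h1 : fderiv ℝ f (inv (par (line t₀))) = (fderiv ℝ (tube P) (line t₀)).comp L₀ := by
      rw [hκ0]; exact hL₀
    have h2 : d t₀ = (⟪fderiv ℝ (tube P) (line t₀) e0, fderiv ℝ (tube P) (line t₀) e0⟫
        * ⟪fderiv ℝ (tube P) (line t₀) e1, fderiv ℝ (tube P) (line t₀) e1⟫
        - ⟪fderiv ℝ (tube P) (line t₀) e0, fderiv ℝ (tube P) (line t₀) e1⟫ ^ 2) * L₀.det := by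
      simp only [d, h1, ContinuousLinearMap.comp_apply]
      exact gram_det _ _
    rw [h2]
    have := tube_gram (line t₀)
    have h3 : ∀ g : ℝ, σ * (g * L₀.det) = g * (σ * L₀.det) := by intro g; ring
    rw [h3]
    exact mul_pos this hdet
  have hdev : ∀ᶠ t in 𝓝 t₀, 0 < σ * d t := by
    have : ContinuousAt (fun t => σ * d t) t₀ := continuousAt_const.mul hd
    exact this.eventually (lt_mem_nhds hd0)
  filter_upwards [hev, hdev] with t ht1 ht2
  obtain ⟨hiU, hip⟩ := hinv3 _ ht1
  obtain ⟨U, hUO, hxU, hch⟩ := exists_chart (line_mem t)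
  obtain ⟨L, hL, hLinj⟩ := (hA a ha).transition hch hiU hxU hip
  rw [par_fderiv (line_mem t)] at hL
  refine ⟨a, ha, inv (par (line t)), hiU, hip, L, hL, ?_⟩
  have h2 : d t = (⟪fderiv ℝ (tube P) (line t) e0, fderiv ℝ (tube P) (line t) e0⟫
      * ⟪fderiv ℝ (tube P) (line t) e1, fderiv ℝ (tube P) (line t) e1⟫
      - ⟪fderiv ℝ (tube P) (line t) e0, fderiv ℝ (tube P) (line t) e1⟫ ^ 2) * L.det := by
    have h1 : fderiv ℝ f (inv (par (line t))) = (fderiv ℝ (tube P) (line t)).comp L := hL
    simp only [d, h1, ContinuousLinearMap.comp_apply]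
    exact gram_det _ _
  rw [h2] at ht2
  have h3 : ∀ g : ℝ, σ * (g * L.det) = g * (σ * L.det) := by intro g; ring
  rw [h3] at ht2
  exact pos_of_mul_pos_right ht2 (tube_gram (line t)).le

theorem Sgn_or (hA : ∀ a ∈ A, IsChart (Subtype.val : M → E4) a.1 a.2)
    (hcov : ∀ p : M, ∃ a ∈ A, ∃ x ∈ a.1, a.2 x = p) (t : ℝ) : Sgn A 1 t ∨ Sgn A (-1) t := by
  obtain ⟨a, ha, x, hx, hax⟩ := hcov (par (line t))
  obtain ⟨U, hUO, hxU, hch⟩ := exists_chart (line_mem t)
  obtain ⟨L, hL, hLinj⟩ := (hA a ha).transition hch hx hxU hax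
  rw [par_fderiv (line_mem t)] at hL
  rcases lt_or_gt_of_ne (det_ne_zero_of_injective hLinj) with h | h
  · right; exact ⟨a, ha, x, hx, hax, L, hL, by linarith⟩
  · left; exact ⟨a, ha, x, hx, hax, L, hL, by linarith⟩

theorem Sgn_excl
    (hcoh : ∀ a ∈ A, ∀ b ∈ A, ∀ x ∈ a.1, ∀ y ∈ b.1, a.2 x = b.2 y →
      ∃ L : E2 →L[ℝ] E2, fderiv ℝ ((Subtype.val : M → E4) ∘ a.2) x
        = (fderiv ℝ ((Subtype.val : M → E4) ∘ b.2) y).comp L ∧ 0 < L.det) (t : ℝ)
    (h1 : Sgn A 1 t) (h2 : Sgn A (-1) t) : False := by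
  obtain ⟨a, ha, x, hx, hax, L, hL, hdet⟩ := h1
  obtain ⟨b, hb, y, hy, hby, K, hK, hdet'⟩ := h2
  obtain ⟨N, hN, hNdet⟩ := hcoh a ha b hb x hx y hy (hax.trans hby.symm)
  have hinj := tube_immersion P_contDiff norm_P hor_P_ne_zero (line t)
  have hLK : L = K.comp N := by
    ext1 w
    apply hinj
    have h3 := congrArg (fun T => T w) hL
    have h4 := congrArg (fun T => T w) hN
    rw [hK] at h4
    simp only [ContinuousLinearMap.comp_apply] at h3 h4 ⊢
    rw [← h3, h4]
  rw [hLK, det_comp'] at hdet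
  nlinarith [mul_pos hNdet (show 0 < -K.det by linarith)]

end

/-- The reflection of the first coordinate. -/
noncomputable def refl0 : E2 →L[ℝ] E2 := LinearMap.toContinuousLinearMap
  { toFun := fun v => !₂[-v 0, v 1]
    map_add' := by
      intro u v
      ext i
      fin_cases i <;> simp
      ring
    map_smul' := by
      intro c v
      ext i
      fin_cases i <;> simp }

theorem refl0_apply (v : E2) : refl0 v = !₂[-v 0, v 1] := rfl

theorem refl0_refl0 : refl0.comp refl0 = ContinuousLinearMap.id ℝ E2 := by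
  ext v i
  fin_cases i <;> simp [refl0_apply]

theorem refl0_det : refl0.det = -1 := by
  rw [det_E2]
  simp [refl0_apply, e0, e1]

theorem tube_line_neg : tube P (line (-2)) = tube P (line 2) := by
  have hP : P (-2) = P 2 := P_neg (by norm_num)
  have h1 : Real.cos (Real.pi / 2 * (-2)) = Real.cos (Real.pi / 2 * 2) := by
    rw [show Real.pi / 2 * (-2) = -(Real.pi / 2 * 2) by ring, Real.cos_neg]
  have h2 : Real.sin (Real.pi / 2 * (-2)) = Real.sin (Real.pi / 2 * 2) := by
    rw [show Real.pi / 2 * (-2) = -Real.pi by ring, show Real.pi / 2 * 2 = Real.pi by ring]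
    simp
  have e1 : (line (-2)) 0 = -2 := by simp [line]
  have e2 : (line 2) 0 = 2 := by simp [line]
  have e3 : (line (-2)) 1 = Real.pi / 2 * (-2) := by simp [line]
  have e4 : (line 2) 1 = Real.pi / 2 * 2 := by simp [line]
  simp only [tube, rot, e1, e2, e3, e4, h1, h2, hP]

theorem par_line_neg : par (line (-2)) = par (line 2) := by
  apply Subtype.ext
  rw [par_val (line_mem _), par_val (line_mem _), tube_line_neg]

theorem deriv_P_neg : deriv P (-2) = -deriv P 2 := by
  have hd := P_contDiff.differentiable (by norm_num)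
  have h1 : HasDerivAt (fun t => P (-t)) (-deriv P (-2)) 2 := by
    have := (hd (-2)).hasDerivAt.scomp (2:ℝ) (hasDerivAt_neg (2:ℝ))
    simpa [Function.comp_def] using this
  have h2 : (fun t => P (-t)) =ᶠ[𝓝 2] P := by
    have : ∀ᶠ t in 𝓝 (2:ℝ), 1 < t := lt_mem_nhds (by norm_num)
    filter_upwards [this] with t ht
    exact P_neg (by nlinarith)
  have h3 : HasDerivAt P (-deriv P (-2)) 2 := h1.congr_of_eventuallyEq h2.symm
  have := h3.unique (hd 2).hasDerivAt
  rw [← this, neg_neg]

theorem tube_fderiv_neg :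
    fderiv ℝ (tube P) (line 2) = (fderiv ℝ (tube P) (line (-2))).comp refl0 := by
  have hd := P_contDiff.differentiable (by norm_num)
  ext1 w
  rw [ContinuousLinearMap.comp_apply, tube_fderiv_apply (hd _).hasDerivAt,
    tube_fderiv_apply (hd _).hasDerivAt, tube_line_neg]
  have h1 : Real.cos (Real.pi / 2 * (-2)) = Real.cos (Real.pi / 2 * 2) := by
    rw [show Real.pi / 2 * (-2) = -(Real.pi / 2 * 2) by ring, Real.cos_neg]
  have h2 : Real.sin (Real.pi / 2 * (-2)) = Real.sin (Real.pi / 2 * 2) := by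
    rw [show Real.pi / 2 * (-2) = -Real.pi by ring, show Real.pi / 2 * 2 = Real.pi by ring]
    simp
  have e1 : (line 2) 0 = 2 := by simp [line]
  have e2 : (line (-2)) 0 = -2 := by simp [line]
  have e3 : ∀ v, rot ((line (-2)) 1) v = rot ((line 2) 1) v := by
    intro v
    have e5 : (line (-2)) 1 = Real.pi / 2 * (-2) := by simp [line]
    have e6 : (line 2) 1 = Real.pi / 2 * 2 := by simp [line]
    simp only [rot, e5, e6, h1, h2]
  rw [e1, e2, e3, deriv_P_neg]
  have e4 : rot ((line 2) 1) (-deriv P 2) = - rot ((line 2) 1) (deriv P 2) := by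
    have := rot_smul ((line 2) 1) (-1) (deriv P 2)
    simpa using this
  rw [e4, refl0_apply]
  simp

theorem not_orientable_M : ¬ IsOrientable (Subtype.val : M → E4) := by
  rintro ⟨A, hA, hcov, hcoh⟩
  have hopen1 := Sgn_open hA 1
  have hopen2 := Sgn_open hA (-1)
  have hor := Sgn_or hA hcov
  have hex := Sgn_excl hcoh
  have hcompl : {t | Sgn A 1 t}ᶜ = {t | Sgn A (-1) t} := by
    ext t
    constructor
    · intro h
      rcases hor t with h1 | h1
      · exact absurd h1 h
      · exact h1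
    · intro h h'
      exact hex t h' h
  have hclopen : IsClopen {t | Sgn A 1 t} := ⟨⟨by rw [hcompl]; exact hopen2⟩, hopen1⟩
  have hflip : ∀ σ, Sgn A σ 2 → Sgn A (-σ) (-2) := by
    rintro σ ⟨a, ha, x, hx, hax, L, hL, hdet⟩
    refine ⟨a, ha, x, hx, hax.trans par_line_neg.symm, refl0.comp L, ?_, ?_⟩
    · rw [hL, tube_fderiv_neg]
      rfl
    · rw [det_comp', refl0_det]
      linarith
  rcases isClopen_iff.mp hclopen with h | h
  · have h2 : Sgn A (-1) 2 := by
      rcases hor 2 with h1 | h1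
      · have : (2:ℝ) ∈ {t | Sgn A 1 t} := h1
        rw [h] at this; exact absurd this (Set.notMem_empty _)
      · exact h1
    have h3 := hflip _ h2
    rw [neg_neg] at h3
    have : (-2:ℝ) ∈ {t | Sgn A 1 t} := h3
    rw [h] at this; exact absurd this (Set.notMem_empty _)
  · have h2 : Sgn A 1 2 := by
      have : (2:ℝ) ∈ {t | Sgn A 1 t} := by rw [h]; trivial
      exact this
    have h3 : Sgn A 1 (-2) := by
      have : (-2:ℝ) ∈ {t | Sgn A 1 t} := by rw [h]; trivial
      exact this
    exact hex _ h3 (hflip _ h2)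

/-- A Hopf fibre on `M`. -/
noncomputable def fib (s : ℝ) : M := par !₂[(2:ℝ), s]

theorem fib_mem (s : ℝ) : (!₂[(2:ℝ), s] : E2) ∈ Om := by
  left; simp

theorem fib_val : (Subtype.val : M → E4) ∘ fib = fun s => rot s (P 2) := by
  funext s
  have := par_val (fib_mem s)
  simp only [Function.comp, fib, this]
  simp [tube]

theorem rot_hasDerivAt (v : E4) (s : ℝ) : HasDerivAt (fun s => rot s v) (J (rot s v)) s := by
  have h := ((Real.hasDerivAt_cos s).smul_const v).add ((Real.hasDerivAt_sin s).smul_const (J v))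
  refine h.congr_deriv ?_
  simp [rot, J_J]
  module

theorem closed_line_M :
    IsClosedAsymptoticLine (Subtype.val : M → E4) fib (2 * Real.pi) where
  pos := by positivity
  periodic := by
    intro s
    apply Subtype.ext
    have h1 := congrFun fib_val (s + 2 * Real.pi)
    have h2 := congrFun fib_val s
    simp only [Function.comp] at h1 h2
    rw [h1, h2, rot, rot, Real.cos_add_two_pi, Real.sin_add_two_pi]
  continuous := by
    rw [Topology.IsInducing.subtypeVal.continuous_iff, fib_val]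
    unfold rot; fun_prop
  smooth := by
    rw [fib_val]
    unfold rot
    exact (Real.contDiff_cos.smul contDiff_const).add (Real.contDiff_sin.smul contDiff_const)
  asymptotic := by
    intro s
    obtain ⟨U, hUO, hxU, hch⟩ := exists_chart (fib_mem s)
    refine ⟨U, par, hch, !₂[(2:ℝ), s], hxU, rfl, e1, ?_, ?_, ?_⟩
    · intro h
      have := congrArg (fun v : E2 => v 1) h
      simp [e1] at this
    · rw [par_fderiv (fib_mem s), fib_val, (rot_hasDerivAt (P 2) s).deriv,
        tube_fderiv_apply (P_contDiff.differentiable (by norm_num) _).hasDerivAt]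
      simp [e1, tube]
    · intro ν hν
      set x : E2 := !₂[(2:ℝ), s] with hx
      have hev : fderiv ℝ ((Subtype.val : M → E4) ∘ par) =ᶠ[𝓝 x] fderiv ℝ (tube P) := by
        filter_upwards [isOpen_Om.mem_nhds (fib_mem s)] with y hy
        exact par_fderiv hy
      rw [hev.fderiv_eq]
      have h2 : ContDiff ℝ 1 (fderiv ℝ (tube P)) :=
        (tube_contDiff P_contDiff).fderiv_right (by norm_num)
      have h3 : HasFDerivAt (fderiv ℝ (tube P)) (fderiv ℝ (fderiv ℝ (tube P)) x) x :=
        (h2.differentiable (by norm_num) x).hasFDerivAt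
      have h4 : HasFDerivAt (fun y => fderiv ℝ (tube P) y e1)
          ((fderiv ℝ (fderiv ℝ (tube P)) x).flip e1) x := by
        have := h3.clm_apply (hasFDerivAt_const e1 x)
        refine this.congr_fderiv ?_
        ext w
        simp
      have h5 : (fun y => fderiv ℝ (tube P) y e1) = fun y => J (tube P y) := by
        funext y
        rw [tube_fderiv_apply (P_contDiff.differentiable (by norm_num) _).hasDerivAt]
        simp [e1]
      have h6 : HasFDerivAt (fun y => J (tube P y)) (J.comp (fderiv ℝ (tube P) x)) x :=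
        J.hasFDerivAt.comp x
          ((tube_contDiff P_contDiff).differentiable (by norm_num) x).hasFDerivAt
      rw [h5] at h4
      have h7 := congrArg (fun T => T e1) (h4.unique h6)
      simp only [ContinuousLinearMap.flip_apply, ContinuousLinearMap.comp_apply] at h7
      have h8 : fderiv ℝ (tube P) x e1 = J (tube P x) := congrFun h5 x
      rw [h7, h8, J_J, inner_neg_right]
      have h9 := hν.1
      rw [par_val (fib_mem s)] at h9
      rw [h9, neg_zero]

end Pool.Agent.LibFlatS3
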