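import Pool.Agent.LibFlatS3.Final

set_option autoImplicit false

open scoped RealInnerProductSpace
open Topology Filter Asymptotics

namespace Pool.Agent.LibFlatS3

section
variable {E G₁ G₂ G₃ H : Type} [NormedAddCommGroup E] [NormedSpace ℝ E] [NormedAddCommGroup G₁]
  [NormedSpace ℝ G₁] [NormedAddCommGroup G₂] [NormedSpace ℝ G₂] [NormedAddCommGroup G₃]
  [NormedSpace ℝ G₃] [NormedAddCommGroup H] [InnerProductSpace ℝ H]

theorem hasFDerivAt_bilin_of_zero {A : E → G₁} {C : E → G₂} {A' : E →L[ℝ] G₁} {z : E}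
    (b : G₁ →L[ℝ] G₂ →L[ℝ] G₃) (hA : HasFDerivAt A A' z) (hA0 : A z = 0)
    (hC : ContinuousAt C z) :
    HasFDerivAt (fun x => b (A x) (C x)) ((b.flip (C z)).comp A') z := by
  rw [hasFDerivAt_iff_isLittleO]
  have h1 : (fun x => b (A x - A' (x - z)) (C x)) =o[𝓝 z] fun x => x - z := by
    have hA2 : (fun x => A x - A' (x - z)) =o[𝓝 z] fun x => x - z := by
      have := hA.isLittleO
      simpa [hA0] using this
    have hC2 : C =O[𝓝 z] (fun _ => (1:ℝ)) := hC.tendsto.isBigO_one ℝ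
    have h3 : (fun x => b (A x - A' (x - z)) (C x)) =O[𝓝 z]
        fun x => ‖A x - A' (x - z)‖ * ‖C x‖ := by
      refine IsBigO.of_bound ‖b‖ (Eventually.of_forall fun x => ?_)
      have := b.le_opNorm₂ (A x - A' (x - z)) (C x)
      simpa [mul_assoc] using this
    have h4 : (fun x => ‖A x - A' (x - z)‖ * ‖C x‖) =o[𝓝 z] fun x => ‖x - z‖ * (1:ℝ) :=
      hA2.norm_norm.mul_isBigO hC2.norm_left
    have h5 := h3.trans_isLittleO h4
    simpa using h5.norm_right
  have h2 : (fun x => b (A' (x - z)) (C x - C z)) =o[𝓝 z] fun x => x - z := by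
    have hC2 : (fun x => C x - C z) =o[𝓝 z] (fun _ => (1:ℝ)) := by
      rw [isLittleO_one_iff]
      have := hC.tendsto.sub_const (C z)
      simpa using this
    have h3 : (fun x => b (A' (x - z)) (C x - C z)) =O[𝓝 z]
        fun x => ‖x - z‖ * ‖C x - C z‖ := by
      refine IsBigO.of_bound (‖b‖ * ‖A'‖) (Eventually.of_forall fun x => ?_)
      have e1 := b.le_opNorm₂ (A' (x - z)) (C x - C z)
      have e2 := A'.le_opNorm (x - z)
      have e3 : ‖(‖x - z‖ * ‖C x - C z‖ : ℝ)‖ = ‖x - z‖ * ‖C x - C z‖ := by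
        rw [Real.norm_eq_abs, abs_of_nonneg (by positivity)]
      rw [e3]
      calc ‖b (A' (x - z)) (C x - C z)‖ ≤ ‖b‖ * ‖A' (x - z)‖ * ‖C x - C z‖ := e1
        _ ≤ ‖b‖ * (‖A'‖ * ‖x - z‖) * ‖C x - C z‖ := by gcongr
        _ = ‖b‖ * ‖A'‖ * (‖x - z‖ * ‖C x - C z‖) := by ring
    have h4 : (fun x => ‖x - z‖ * ‖C x - C z‖) =o[𝓝 z] fun x => ‖x - z‖ * (1:ℝ) :=
      (isBigO_refl _ _).mul_isLittleO hC2.norm_left
    have h5 := h3.trans_isLittleO h4
    simpa using h5.norm_right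
  refine (h1.add h2).congr_left fun x => ?_
  simp only [hA0, map_zero, zero_apply, ContinuousLinearMap.comp_apply,
    ContinuousLinearMap.flip_apply, map_sub, sub_zero, sub_apply]
  abel

/-- The inner product as a bilinear map. -/
noncomputable def innB (H : Type) [NormedAddCommGroup H] [InnerProductSpace ℝ H] :
    H →L[ℝ] H →L[ℝ] ℝ :=
  (isBoundedBilinearMap_inner (𝕜 := ℝ) (E := H)).toContinuousLinearMap

theorem innB_apply (a b : H) : innB H a b = ⟪a, b⟫ := rfl

/-- If `Q` is orthogonal to all derivatives of `P`, then `⟪dQ v, dP w⟫` is symmetric in `v, w`. -/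
theorem inner_fderiv_symm {P Q : E → H} {P' : E → E →L[ℝ] H} {Q' : E →L[ℝ] H} {z : E}
    (hP : ∀ᶠ x in 𝓝 z, HasFDerivAt P (P' x) x) (hP' : ContinuousAt P' z)
    (hQ : HasFDerivAt Q Q' z) (horth : ∀ᶠ x in 𝓝 z, ∀ w, ⟪Q x, P' x w⟫ = 0) (v w : E) :
    ⟪Q' v, P' z w⟫ = ⟪Q' w, P' z v⟫ := by
  let b : H →L[ℝ] (E →L[ℝ] H) →L[ℝ] (E →L[ℝ] ℝ) :=
    (ContinuousLinearMap.compL ℝ E H ℝ).comp (innB H)
  have hA : HasFDerivAt (fun x => Q z - Q x) (-Q') z := by
    simpa using hQ.const_sub (Q z)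
  have h1 := hasFDerivAt_bilin_of_zero b hA (by simp) hP'
  have h2 : (fun x => b (Q z - Q x) (P' x)) =ᶠ[𝓝 z] fun x => b (Q z) (P' x) := by
    filter_upwards [horth] with x hx
    ext w
    simp only [b, map_sub, sub_apply, ContinuousLinearMap.comp_apply,
      ContinuousLinearMap.compL_apply, innB_apply]
    rw [hx w, sub_zero]
  have h3 := h1.congr_of_eventuallyEq h2.symm
  have h4 : ∀ᶠ x in 𝓝 z, HasFDerivAt (fun x => ⟪Q z, P x⟫) (b (Q z) (P' x)) x := by
    filter_upwards [hP] with x hx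
    have := (innB H (Q z)).hasFDerivAt.comp x hx
    exact this
  have h5 := second_derivative_symmetric_of_eventually h4 h3 v w
  simp only [b, ContinuousLinearMap.comp_apply, ContinuousLinearMap.flip_apply,
    neg_apply, map_neg, ContinuousLinearMap.compL_apply, innB_apply] at h5
  linarith

end

end Pool.Agent.LibFlatS3
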