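import Pool.Agent.LibFlatS3.Local

set_option autoImplicit false

open scoped RealInnerProductSpace Quaternion
open Topology Filter

namespace Pool.Agent.LibFlatS3

attribute [local instance] starModuleH

/-- The identification of `ℝ⁴` with the quaternions. -/
noncomputable def Th : E4 ≃ₗᵢ[ℝ] ℍ[ℝ] := Quaternion.linearIsometryEquivTuple.symm

theorem IsoImm.inj (V : Set E2) (f : E2 → ℍ[ℝ]) (h : IsoImm V f) {y : E2} (hy : y ∈ V) :
    Function.Injective (fderiv ℝ f y) := by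
  rw [injective_iff_map_eq_zero]
  intro w hw
  have := h.isom y hy w
  rw [hw, norm_zero] at this
  exact norm_eq_zero.mp this.symm

variable {F : Type} [TopologicalSpace F] {r : F → E4}

/-- Flat coordinates around a point. -/
structure FlatData (r : F → E4) (p : F) where
  U : Set E2
  ψ : E2 → F
  x₀ : E2
  δ : E2 → E2
  ε : E2 → E2
  V : Set E2
  W : Set E2
  chart : IsChart r U ψ
  mem : x₀ ∈ W
  eq : ψ x₀ = p
  openW : IsOpen W
  sub : W ⊆ U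
  contδ : ContDiffOn ℝ 2 δ W
  mapδ : ∀ x ∈ W, δ x ∈ V ∧ ε (δ x) = x
  mapε : ∀ y ∈ V, ε y ∈ U
  imm' : IsoImm V (fun y => Th (r (ψ (ε y))))
  surj : ∀ x ∈ W, Function.Surjective (fderiv ℝ δ x)

theorem exists_flatData (hs : ∀ p, ‖r p‖ = 1) (hflat : IsLocallyEuclidean r) (p : F) :
    Nonempty (FlatData r p) := by
  obtain ⟨U, ψ, hch, ⟨x₀, hx₀, hp⟩, δ, hδ, hiso⟩ := hflat p
  have hinj : ∀ x ∈ U, Function.Injective (fderiv ℝ δ x) := by
    intro x hx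
    rw [injective_iff_map_eq_zero]
    intro w hw
    have h1 := hiso x hx w
    rw [hw, norm_zero] at h1
    have h2 : fderiv ℝ (r ∘ ψ) x w = 0 := norm_eq_zero.mp h1.symm
    exact (injective_iff_map_eq_zero _).mp (hch.imm x hx) w h2
  have hδat : ∀ x ∈ U, ContDiffAt ℝ 2 δ x := fun x hx => hδ.contDiffAt (hch.isOpen.mem_nhds hx)
  let Λ : E2 ≃L[ℝ] E2 := (LinearEquiv.ofInjectiveEndo
    (fderiv ℝ δ x₀ : E2 →ₗ[ℝ] E2) (hinj x₀ hx₀)).toContinuousLinearEquiv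
  have hΛ : (Λ : E2 →L[ℝ] E2) = fderiv ℝ δ x₀ := by
    ext1 w
    rfl
  have hfd : HasFDerivAt δ (Λ : E2 →L[ℝ] E2) x₀ := by
    rw [hΛ]
    exact ((hδat x₀ hx₀).differentiableAt (by norm_num)).hasFDerivAt
  let e := (hδat x₀ hx₀).toOpenPartialHomeomorph δ hfd (by norm_num)
  have hecoe : ∀ x, e x = δ x := fun x => rfl
  have hx₀s : x₀ ∈ e.source := ContDiffAt.mem_toOpenPartialHomeomorph_source _ hfd (by norm_num)
  have hsymm : ContDiffAt ℝ 2 e.symm (δ x₀) :=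
    ContDiffAt.to_localInverse (hδat x₀ hx₀) hfd (by norm_num)
  have hy₀t : δ x₀ ∈ e.target := e.map_source hx₀s
  have hsx₀ : e.symm (δ x₀) = x₀ := e.left_inv hx₀s
  have hev : ∀ᶠ y in 𝓝 (δ x₀), y ∈ e.target ∧ e.symm y ∈ U ∧ ContDiffAt ℝ 2 e.symm y := by
    have hev0 : ∀ᶠ y in 𝓝 (δ x₀), y ∈ e.target := e.open_target.mem_nhds hy₀t
    refine hev0.and (Eventually.and ?_ ?_)
    · apply hsymm.continuousAt.preimage_mem_nhds
      rw [hsx₀]; exact hch.isOpen.mem_nhds hx₀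
    · exact hsymm.eventually (by simp)
  obtain ⟨V, hVsub, hVopen, hVmem⟩ := mem_nhds_iff.mp hev
  refine ⟨⟨U, ψ, x₀, δ, e.symm, V, (U ∩ e.source) ∩ δ ⁻¹' V, hch, ⟨⟨hx₀, hx₀s⟩, hVmem⟩, hp, ?_,
    fun x hx => hx.1.1, hδ.mono fun x hx => hx.1.1, fun x hx => ⟨hx.2, e.left_inv hx.1.2⟩,
    fun y hy => (hVsub hy).2.1, ?_, ?_⟩⟩
  · exact (hδ.continuousOn.mono Set.inter_subset_left).isOpen_inter_preimage
      (hch.isOpen.inter e.open_source) hVopen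
  · have hcd : ∀ y ∈ V, ContDiffAt ℝ 2 (fun y => r (ψ (e.symm y))) y := by
      intro y hy
      obtain ⟨h1, h2, h3⟩ := hVsub hy
      exact (hch.contDiffAt h2).comp y h3
    refine ⟨hVopen, ?_, ?_, ?_⟩
    · intro y hy
      exact (Th.contDiff.contDiffAt.comp y (hcd y hy)).contDiffWithinAt
    · intro y hy
      rw [LinearIsometryEquiv.norm_map]; exact hs _
    · intro y hy w
      obtain ⟨h1, h2, h3⟩ := hVsub hy
      have hS := (h3.differentiableAt (by norm_num)).hasFDerivAt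
      have hD := ((hδat _ h2).differentiableAt (by norm_num)).hasFDerivAt
      have hid : HasFDerivAt (fun y => δ (e.symm y)) (ContinuousLinearMap.id ℝ E2) y := by
        refine (hasFDerivAt_id y).congr_of_eventuallyEq ?_
        filter_upwards [e.open_target.mem_nhds h1] with z hz
        exact e.right_inv hz
      have hcomp := (hD.comp y hS).unique hid
      have hw : fderiv ℝ δ (e.symm y) (fderiv ℝ e.symm y w) = w := by
        have := congrArg (fun T => T w) hcomp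
        simpa using this
      have hrψ : HasFDerivAt (r ∘ ψ) (fderiv ℝ (r ∘ ψ) (e.symm y)) (e.symm y) :=
        ((hch.contDiffAt h2).differentiableAt (by norm_num)).hasFDerivAt
      have hf : HasFDerivAt (fun y => Th (r (ψ (e.symm y))))
          ((Th.toContinuousLinearEquiv : E4 →L[ℝ] ℍ[ℝ]).comp
            ((fderiv ℝ (r ∘ ψ) (e.symm y)).comp (fderiv ℝ e.symm y))) y :=
        (Th.toContinuousLinearEquiv : E4 →L[ℝ] ℍ[ℝ]).hasFDerivAt.comp y (hrψ.comp y hS)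
      rw [hf.fderiv]
      change ‖Th (fderiv ℝ (r ∘ ψ) (e.symm y) (fderiv ℝ e.symm y w))‖ = ‖w‖
      rw [LinearIsometryEquiv.norm_map, ← hiso _ h2, hw]
  · intro x hx
    exact (LinearMap.injective_iff_surjective (f := (fderiv ℝ δ x : E2 →ₗ[ℝ] E2))).mp
      (hinj x hx.1.1)

/-- The immersion in flat coordinates. -/
noncomputable def FlatData.f {p : F} (d : FlatData r p) : E2 → ℍ[ℝ] :=
  fun y => Th (r (d.ψ (d.ε y)))

theorem FlatData.imm {p : F} (d : FlatData r p) : IsoImm d.V d.f := d.imm'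

theorem FlatData.f_δ {p : F} (d : FlatData r p) {x : E2} (hx : x ∈ d.W) :
    d.f (d.δ x) = Th (r (d.ψ x)) := by
  rw [FlatData.f, (d.mapδ x hx).2]

theorem FlatData.fderiv_eq {p : F} (d : FlatData r p) {x : E2} (hx : x ∈ d.W) (w : E2) :
    Th (fderiv ℝ (r ∘ d.ψ) x w) = fderiv ℝ d.f (d.δ x) (fderiv ℝ d.δ x w) := by
  have h1 : HasFDerivAt (r ∘ d.ψ) (fderiv ℝ (r ∘ d.ψ) x) x :=
    ((d.chart.contDiffAt (d.sub hx)).differentiableAt (by norm_num)).hasFDerivAt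
  have h2 : HasFDerivAt (fun x => Th (r (d.ψ x)))
      ((Th.toContinuousLinearEquiv : E4 →L[ℝ] ℍ[ℝ]).comp (fderiv ℝ (r ∘ d.ψ) x)) x :=
    (Th.toContinuousLinearEquiv : E4 →L[ℝ] ℍ[ℝ]).hasFDerivAt.comp x h1
  have h3 : HasFDerivAt (fun x => d.f (d.δ x)) ((fderiv ℝ d.f (d.δ x)).comp (fderiv ℝ d.δ x)) x :=
    (d.imm.hasFDerivAt (d.mapδ x hx).1).comp x
      ((d.contδ.contDiffAt (d.openW.mem_nhds hx)).differentiableAt (by norm_num)).hasFDerivAt
  have h4 : (fun x => d.f (d.δ x)) =ᶠ[𝓝 x] fun x => Th (r (d.ψ x)) := by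
    filter_upwards [d.openW.mem_nhds hx] with z hz
    exact d.f_δ hz
  have h5 := (h2.congr_of_eventuallyEq h4).unique h3
  have := congrArg (fun T => T w) h5
  exact this

/-- Normality, in quaternionic terms. -/
def IsNor (r : F → E4) (p : F) (ν : ℍ[ℝ]) : Prop :=
  ⟪ν, Th (r p)⟫ = 0 ∧ ∀ (U : Set E2) (ψ : E2 → F), IsChart r U ψ → ∀ x ∈ U, ψ x = p →
    ∀ w : E2, ⟪ν, Th (fderiv ℝ (r ∘ ψ) x w)⟫ = 0

theorem FlatData.isNor {p : F} (d : FlatData r p) {x : E2} (hx : x ∈ d.W) :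
    IsNor r (d.ψ x) (nor d.f (d.δ x)) := by
  have hV := (d.mapδ x hx).1
  obtain ⟨hnn, hfn, h0n, h1n⟩ := d.imm.nor_spec hV
  constructor
  · rw [← d.f_δ hx, real_inner_comm]; exact hfn
  · intro U₁ ψ₁ hch x₁ hx₁ heq w
    obtain ⟨L, hL, _⟩ := hch.transition d.chart hx₁ (d.sub hx) heq
    rw [hL, ContinuousLinearMap.comp_apply, d.fderiv_eq hx]
    set v := fderiv ℝ d.δ x (L w)
    rw [E2_decomp v, map_add, map_smul, map_smul, inner_add_right, real_inner_smul_right,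
      real_inner_smul_right, real_inner_comm]
    have h0 : ⟪fderiv ℝ d.f (d.δ x) e0, nor d.f (d.δ x)⟫ = 0 := h0n
    have h1 : ⟪nor d.f (d.δ x), fderiv ℝ d.f (d.δ x) e1⟫ = 0 := by
      rw [real_inner_comm]; exact h1n
    rw [h0, h1]; ring

theorem FlatData.nor_unique {p : F} (d : FlatData r p) {x : E2} (hx : x ∈ d.W) {ν : ℍ[ℝ]}
    (hν : IsNor r (d.ψ x) ν) : ν = ⟪nor d.f (d.δ x), ν⟫ • nor d.f (d.δ x) := by
  have hV := (d.mapδ x hx).1
  have h1 := d.imm.expand hV ν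
  have h2 : ∀ w, ⟪fderiv ℝ d.f (d.δ x) w, ν⟫ = 0 := by
    intro w
    obtain ⟨w', hw'⟩ := d.surj x hx w
    rw [← hw', ← d.fderiv_eq hx, real_inner_comm]
    exact hν.2 d.U d.ψ d.chart x (d.sub hx) rfl w'
  have h3 : ⟪d.f (d.δ x), ν⟫ = 0 := by
    rw [d.f_δ hx, real_inner_comm]; exact hν.1
  have h1' : ν = ⟪d.f (d.δ x), ν⟫ • d.f (d.δ x)
      + ⟪fderiv ℝ d.f (d.δ x) e0, ν⟫ • fderiv ℝ d.f (d.δ x) e0
      + ⟪fderiv ℝ d.f (d.δ x) e1, ν⟫ • fderiv ℝ d.f (d.δ x) e1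
      + ⟪nor d.f (d.δ x), ν⟫ • nor d.f (d.δ x) := h1
  rw [h2, h2, h3] at h1'
  conv_lhs => rw [h1']
  module

/-- The local inverse of the chart in `FlatData`, composed with `δ`. -/
theorem FlatData.exists_inverse {p : F} (d : FlatData r p) :
    ∃ (inv : F → E2) (O : Set F), IsOpen O ∧ p ∈ O ∧ ContinuousOn inv O ∧
      ∀ q ∈ O, inv q ∈ d.W ∧ d.ψ (inv q) = q := by
  obtain ⟨inv, h1, h2, h3, h4, h5⟩ := d.chart.exists_inverse (d.sub d.mem)
  refine ⟨inv, (d.ψ '' d.U) ∩ inv ⁻¹' d.W, h2.isOpen_inter_preimage h3 d.openW, ?_,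
    h2.mono Set.inter_subset_left, fun q hq => ⟨hq.2, (h4 q hq.1).2⟩⟩
  refine ⟨⟨d.x₀, d.sub d.mem, d.eq⟩, ?_⟩
  have h6 : inv p = d.x₀ := by
    have := d.eq
    rw [← h1]; exact congrArg inv this.symm
  change inv p ∈ d.W
  rw [h6]; exact d.mem

theorem FlatData.strict {p : F} (d : FlatData r p) {y : E2} (hy : y ∈ d.V) :
    HasStrictFDerivAt d.f (fderiv ℝ d.f y) y :=
  (d.imm.contDiffAt hy).hasStrictFDerivAt (by norm_num)

/-- Invariance of the second fundamental form under a change of chart. -/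
theorem FlatData.transfer {p : F} (d : FlatData r p) {U₁ : Set E2} {ψ₁ : E2 → F}
    (hch : IsChart r U₁ ψ₁) {x₁ : E2} (hx₁ : x₁ ∈ U₁)
    {inv : F → E2} {O : Set F} (hO : IsOpen O) (hinv : ContinuousOn inv O)
    (hinv2 : ∀ q ∈ O, inv q ∈ d.W ∧ d.ψ (inv q) = q) (hmem : ψ₁ x₁ ∈ O) (w₁ : E2) :
    ∃ w : E2, fderiv ℝ d.f (d.δ (inv (ψ₁ x₁))) w = Th (fderiv ℝ (r ∘ ψ₁) x₁ w₁) ∧
      ⟪nor d.f (d.δ (inv (ψ₁ x₁))), Th (fderiv ℝ (fderiv ℝ (r ∘ ψ₁)) x₁ w₁ w₁)⟫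
        = II d.f (d.δ (inv (ψ₁ x₁))) w w := by
  let κ : E2 → E2 := fun z => d.δ (inv (ψ₁ z))
  have hev0 : ∀ᶠ z in 𝓝 x₁, z ∈ U₁ := hch.isOpen.mem_nhds hx₁
  have hev1 : ∀ᶠ z in 𝓝 x₁, ψ₁ z ∈ O :=
    (hch.continuousAt hx₁).preimage_mem_nhds (hO.mem_nhds hmem)
  have hev : ∀ᶠ z in 𝓝 x₁, z ∈ U₁ ∧ ψ₁ z ∈ O := hev0.and hev1
  have hκV : ∀ z, ψ₁ z ∈ O → κ z ∈ d.V := fun z hz => (d.mapδ _ (hinv2 _ hz).1).1
  have hfκ : ∀ z, ψ₁ z ∈ O → d.f (κ z) = Th (r (ψ₁ z)) := by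
    intro z hz
    rw [d.f_δ (hinv2 _ hz).1, (hinv2 _ hz).2]
  have hκc : ∀ z, z ∈ U₁ → ψ₁ z ∈ O → ContinuousAt κ z := by
    intro z hz hzO
    have h1 : ContinuousAt inv (ψ₁ z) := hinv.continuousAt (hO.mem_nhds hzO)
    have h2 : ContinuousAt d.δ (inv (ψ₁ z)) :=
      (d.contδ.contDiffAt (d.openW.mem_nhds (hinv2 _ hzO).1)).continuousAt
    have h3 : ContinuousAt (fun z => inv (ψ₁ z)) z := ContinuousAt.comp h1 (hch.continuousAt hz)
    exact ContinuousAt.comp (f := fun z => inv (ψ₁ z)) h2 h3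
  have hg : ∀ z ∈ U₁, HasFDerivAt (fun z => Th (r (ψ₁ z)))
      ((Th.toContinuousLinearEquiv : E4 →L[ℝ] ℍ[ℝ]).comp (fderiv ℝ (r ∘ ψ₁) z)) z := by
    intro z hz
    exact (Th.toContinuousLinearEquiv : E4 →L[ℝ] ℍ[ℝ]).hasFDerivAt.comp z
      ((hch.contDiffAt hz).differentiableAt (by norm_num)).hasFDerivAt
  have hfac : ∀ᶠ z in 𝓝 x₁, ∃ L : E2 →L[ℝ] E2, HasFDerivAt κ L z ∧
      (Th.toContinuousLinearEquiv : E4 →L[ℝ] ℍ[ℝ]).comp (fderiv ℝ (r ∘ ψ₁) z)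
        = (fderiv ℝ d.f (κ z)).comp L := by
    filter_upwards [hev.eventually_nhds] with z hz
    have hz' := hz.self_of_nhds
    refine factor_general (d.strict (hκV z hz'.2)) (IsoImm.inj _ _ d.imm (hκV z hz'.2))
      (hg z hz'.1) (hκc z hz'.1 hz'.2) rfl ?_
    filter_upwards [hz] with z' hz'
    exact hfκ z' hz'.2
  obtain ⟨L, hL1, hL2⟩ := hfac.self_of_nhds
  have hyV := hκV x₁ hmem
  refine ⟨L w₁, ?_, ?_⟩
  · have := congrArg (fun T => T w₁) hL2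
    exact this.symm
  · -- differentiate along the line `x₁ + s w₁`
    let z : ℝ → E2 := fun s => x₁ + s • w₁
    have hz0 : z 0 = x₁ := by simp [z]
    have hzd : HasDerivAt z w₁ 0 := by
      have h := ((hasDerivAt_id (0:ℝ)).smul_const w₁).const_add x₁
      simpa [z] using h
    have hyd : HasDerivAt (fun s => κ (z s)) (L w₁) 0 := by
      have h1 : HasFDerivAt κ L (z 0) := by rw [hz0]; exact hL1
      exact h1.comp_hasDerivAt 0 hzd
    have hyV0 : κ (z 0) ∈ d.V := by rw [hz0]; exact hyV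
    have hN := d.imm.nor_hasDerivAt (y := fun s => κ (z s)) hyV0 hyd
    have hB : HasDerivAt (fun s => Th (fderiv ℝ (r ∘ ψ₁) (z s) w₁))
        (Th (fderiv ℝ (fderiv ℝ (r ∘ ψ₁)) x₁ w₁ w₁)) 0 := by
      have h1 : HasFDerivAt (fderiv ℝ (r ∘ ψ₁)) (fderiv ℝ (fderiv ℝ (r ∘ ψ₁)) x₁) (z 0) := by
        rw [hz0]
        exact (((hch.contDiffAt hx₁).fderiv_right (m := 1) (by norm_num)).differentiableAt
          (by norm_num)).hasFDerivAt
      have h2 : HasDerivAt (fun s => fderiv ℝ (r ∘ ψ₁) (z s))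
          (fderiv ℝ (fderiv ℝ (r ∘ ψ₁)) x₁ w₁) 0 := h1.comp_hasDerivAt 0 hzd
      have h3 : HasDerivAt (fun s => fderiv ℝ (r ∘ ψ₁) (z s) w₁)
          (fderiv ℝ (fderiv ℝ (r ∘ ψ₁)) x₁ w₁ w₁) 0 := by
        have := h2.clm_apply (hasDerivAt_const (0:ℝ) w₁)
        simpa using this
      exact (Th.toContinuousLinearEquiv : E4 →L[ℝ] ℍ[ℝ]).hasFDerivAt.comp_hasDerivAt 0 h3
    have hprod := hN.inner ℝ hB
    have hzero : (fun s => ⟪nor d.f (κ (z s)),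
        Th (fderiv ℝ (r ∘ ψ₁) (z s) w₁)⟫) =ᶠ[𝓝 0] fun _ => (0:ℝ) := by
      have h1 : ∀ᶠ s in 𝓝 (0:ℝ), z s ∈ U₁ ∧ ψ₁ (z s) ∈ O := by
        have := hzd.continuousAt.tendsto
        rw [hz0] at this
        exact this.eventually hev
      filter_upwards [h1] with s hs
      have h2 := d.isNor (hinv2 _ hs.2).1
      rw [(hinv2 _ hs.2).2] at h2
      exact h2.2 U₁ ψ₁ hch (z s) hs.1 rfl w₁
    have hfin := (hprod.congr_of_eventuallyEq hzero.symm).unique (hasDerivAt_const (0:ℝ) (0:ℝ))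
    simp only [hz0] at hfin
    have hThw : Th (fderiv ℝ (r ∘ ψ₁) x₁ w₁) = fderiv ℝ d.f (κ x₁) (L w₁) := by
      have := congrArg (fun T => T w₁) hL2
      exact this
    have hdec : fderiv ℝ d.f (κ x₁) (L w₁)
        = (L w₁) 0 • fderiv ℝ d.f (κ x₁) e0 + (L w₁) 1 • fderiv ℝ d.f (κ x₁) e1 := by
      conv_lhs => rw [E2_decomp (L w₁)]
      rw [map_add, map_smul, map_smul]
    have g00 := d.imm.inner_isom hyV e0 e0
    have g01 := d.imm.inner_isom hyV e0 e1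
    have g10 : ⟪fderiv ℝ d.f (κ x₁) e1, fderiv ℝ d.f (κ x₁) e0⟫ = 0 := by
      rw [real_inner_comm, g01]; exact inner_e0_e1
    have g11 := d.imm.inner_isom hyV e1 e1
    rw [inner_e0_e0] at g00
    rw [inner_e0_e1] at g01
    rw [inner_e1_e1] at g11
    have hIIww : II d.f (κ x₁) (L w₁) (L w₁)
        = (L w₁) 0 * II d.f (κ x₁) (L w₁) e0 + (L w₁) 1 * II d.f (κ x₁) (L w₁) e1 := by
      have h2 : D2 d.f (κ x₁) (L w₁) (L w₁)
          = (L w₁) 0 • D2 d.f (κ x₁) (L w₁) e0 + (L w₁) 1 • D2 d.f (κ x₁) (L w₁) e1 := by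
        conv_lhs => rw [E2_decomp (L w₁)]
        rw [D2_add_right, D2_smul_right, D2_smul_right, ← E2_decomp (L w₁)]
      rw [II, h2, inner_add_right, real_inner_smul_right, real_inner_smul_right]
      rfl
    rw [hThw, hdec] at hfin
    simp only [inner_add_right, real_inner_smul_right, inner_sub_left, real_inner_smul_left,
      g00, g01, g10, g11] at hfin
    change ⟪nor d.f (κ x₁), Th (fderiv ℝ (fderiv ℝ (r ∘ ψ₁)) x₁ w₁ w₁)⟫
      = II d.f (κ x₁) (L w₁) (L w₁)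
    rw [hIIww]
    linarith

end Pool.Agent.LibFlatS3
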