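import Pool.Agent.LibFlatS3.Gauss

set_option autoImplicit false

open scoped RealInnerProductSpace Quaternion
open Topology Filter

namespace Pool.Agent.LibFlatS3

theorem starModuleH : StarModule ℝ ℍ[ℝ] := ⟨fun r q => by ext <;> simp⟩

attribute [local instance] starModuleH

/-- A `C²` isometric immersion of a plane domain into the unit quaternions. -/
structure IsoImm (V : Set E2) (f : E2 → ℍ[ℝ]) : Prop where
  isOpen : IsOpen V
  smooth : ContDiffOn ℝ 2 f V
  sphere : ∀ y ∈ V, ‖f y‖ = 1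
  isom : ∀ y ∈ V, ∀ w : E2, ‖fderiv ℝ f y w‖ = ‖w‖

/-- The unit normal. -/
noncomputable def nor (f : E2 → ℍ[ℝ]) (y : E2) : ℍ[ℝ] :=
  fderiv ℝ f y e0 * star (f y) * fderiv ℝ f y e1

/-- The second derivative. -/
noncomputable def D2 (f : E2 → ℍ[ℝ]) (y a b : E2) : ℍ[ℝ] := fderiv ℝ (fderiv ℝ f) y a b

variable {V : Set E2} {f : E2 → ℍ[ℝ]}

namespace IsoImm

theorem contDiffAt (h : IsoImm V f) {y : E2} (hy : y ∈ V) : ContDiffAt ℝ 2 f y :=
  h.smooth.contDiffAt (h.isOpen.mem_nhds hy)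

theorem hasFDerivAt (h : IsoImm V f) {y : E2} (hy : y ∈ V) :
    HasFDerivAt f (fderiv ℝ f y) y :=
  ((h.contDiffAt hy).differentiableAt (by norm_num)).hasFDerivAt

theorem contDiffAt_fderiv (h : IsoImm V f) {y : E2} (hy : y ∈ V) :
    ContDiffAt ℝ 1 (fderiv ℝ f) y :=
  (h.contDiffAt hy).fderiv_right (by norm_num)

theorem hasFDerivAt_fderiv (h : IsoImm V f) {y : E2} (hy : y ∈ V) :
    HasFDerivAt (fderiv ℝ f) (fderiv ℝ (fderiv ℝ f) y) y :=
  ((h.contDiffAt_fderiv hy).differentiableAt (by norm_num)).hasFDerivAt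

theorem hasFDerivAt_fderiv_apply (h : IsoImm V f) {y : E2} (hy : y ∈ V) (b : E2) :
    HasFDerivAt (fun z => fderiv ℝ f z b) ((fderiv ℝ (fderiv ℝ f) y).flip b) y := by
  have := (h.hasFDerivAt_fderiv hy).clm_apply (hasFDerivAt_const b y)
  refine this.congr_fderiv ?_
  ext1 w
  simp

theorem inner_isom (h : IsoImm V f) {y : E2} (hy : y ∈ V) (a b : E2) :
    ⟪fderiv ℝ f y a, fderiv ℝ f y b⟫ = ⟪a, b⟫ := by
  let L : E2 →ₗᵢ[ℝ] ℍ[ℝ] := ⟨(fderiv ℝ f y : E2 →ₗ[ℝ] ℍ[ℝ]), h.isom y hy⟩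
  exact L.inner_map_map a b

theorem inner_pos (h : IsoImm V f) {y : E2} (hy : y ∈ V) (b : E2) :
    ⟪f y, fderiv ℝ f y b⟫ = 0 := by
  have h1 : HasFDerivAt (fun z => ⟪f z, f z⟫) _ y :=
    (h.hasFDerivAt hy).inner ℝ (h.hasFDerivAt hy)
  have h2 : (fun z => ⟪f z, f z⟫) =ᶠ[𝓝 y] fun _ => (1:ℝ) := by
    filter_upwards [h.isOpen.mem_nhds hy] with z hz
    rw [real_inner_self_eq_norm_sq, h.sphere z hz]; norm_num
  have h3 := (h1.congr_of_eventuallyEq h2.symm).unique (hasFDerivAt_const (1:ℝ) y)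
  have h4 := congrArg (fun T => T b) h3
  simp only [ContinuousLinearMap.comp_apply, ContinuousLinearMap.prod_apply,
    fderivInnerCLM_apply, zero_apply] at h4
  have h5 : ⟪fderiv ℝ f y b, f y⟫ = ⟪f y, fderiv ℝ f y b⟫ := real_inner_comm _ _
  linarith

theorem D2_symm (h : IsoImm V f) {y : E2} (hy : y ∈ V) (a b : E2) : D2 f y a b = D2 f y b a :=
  (h.contDiffAt hy).isSymmSndFDerivAt (by simp) a b

theorem inner_D2_pos (h : IsoImm V f) {y : E2} (hy : y ∈ V) (a b : E2) :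
    ⟪f y, D2 f y a b⟫ = -⟪a, b⟫ := by
  have h1 : HasFDerivAt (fun z => ⟪f z, fderiv ℝ f z b⟫) _ y :=
    (h.hasFDerivAt hy).inner ℝ (h.hasFDerivAt_fderiv_apply hy b)
  have h2 : (fun z => ⟪f z, fderiv ℝ f z b⟫) =ᶠ[𝓝 y] fun _ => (0:ℝ) := by
    filter_upwards [h.isOpen.mem_nhds hy] with z hz
    exact h.inner_pos hz b
  have h3 := (h1.congr_of_eventuallyEq h2.symm).unique (hasFDerivAt_const (0:ℝ) y)
  have h4 := congrArg (fun T => T a) h3
  simp only [ContinuousLinearMap.comp_apply, ContinuousLinearMap.prod_apply,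
    fderivInnerCLM_apply, zero_apply, ContinuousLinearMap.flip_apply] at h4
  have h5 := h.inner_isom hy a b
  change ⟪f y, fderiv ℝ (fderiv ℝ f) y a b⟫ = _
  linarith

theorem inner_D2_tan (h : IsoImm V f) {y : E2} (hy : y ∈ V) (a b c : E2) :
    ⟪D2 f y a b, fderiv ℝ f y c⟫ = 0 := by
  have key : ∀ a b c : E2, ⟪fderiv ℝ f y b, D2 f y a c⟫ + ⟪D2 f y a b, fderiv ℝ f y c⟫ = 0 := by
    intro a b c
    have h1 : HasFDerivAt (fun z => ⟪fderiv ℝ f z b, fderiv ℝ f z c⟫) _ y :=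
      (h.hasFDerivAt_fderiv_apply hy b).inner ℝ (h.hasFDerivAt_fderiv_apply hy c)
    have h2 : (fun z => ⟪fderiv ℝ f z b, fderiv ℝ f z c⟫) =ᶠ[𝓝 y] fun _ => ⟪b, c⟫ := by
      filter_upwards [h.isOpen.mem_nhds hy] with z hz
      exact h.inner_isom hz b c
    have h3 := (h1.congr_of_eventuallyEq h2.symm).unique (hasFDerivAt_const ⟪b, c⟫ y)
    have h4 := congrArg (fun T => T a) h3
    simp only [ContinuousLinearMap.comp_apply, ContinuousLinearMap.prod_apply,
      fderivInnerCLM_apply, zero_apply, ContinuousLinearMap.flip_apply] at h4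
    exact h4
  have k1 := key a b c
  have k2 := key c a b
  have k3 := key b c a
  rw [real_inner_comm] at k1 k2 k3
  rw [h.D2_symm hy a c] at k1
  rw [h.D2_symm hy c b] at k2
  rw [h.D2_symm hy b a] at k3
  linarith

theorem continuousAt_D2 (h : IsoImm V f) {y : E2} (hy : y ∈ V) :
    ContinuousAt (fun z => fderiv ℝ (fderiv ℝ f) z) y := by
  exact ((h.contDiffAt_fderiv hy).fderiv_right (m := 0) (by norm_num)).continuousAt

/-- The Gauss equation for `C²` isometric immersions of plane domains. -/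
theorem gauss_eq (h : IsoImm V f) {y : E2} (hy : y ∈ V) :
    ⟪D2 f y e0 e0, D2 f y e1 e1⟫ = ⟪D2 f y e0 e1, D2 f y e0 e1⟫ := by
  have hP : ∀ᶠ z in 𝓝 y, HasFDerivAt (fun z => fderiv ℝ f z e0)
      ((fderiv ℝ (fderiv ℝ f) z).flip e0) z := by
    filter_upwards [h.isOpen.mem_nhds hy] with z hz
    exact h.hasFDerivAt_fderiv_apply hz e0
  have hP' : ContinuousAt (fun z => (fderiv ℝ (fderiv ℝ f) z).flip e0) y := by
    have h1 : Continuous (fun B : E2 →L[ℝ] E2 →L[ℝ] ℍ[ℝ] => B.flip e0) := by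
      have : Continuous (fun B : E2 →L[ℝ] E2 →L[ℝ] ℍ[ℝ] => B.flip) :=
        (ContinuousLinearMap.flipₗᵢ ℝ E2 E2 ℍ[ℝ]).continuous
      exact this.clm_apply continuous_const
    exact h1.continuousAt.comp (h.continuousAt_D2 hy)
  have hQ := h.hasFDerivAt_fderiv_apply hy e1
  have horth : ∀ᶠ z in 𝓝 y, ∀ w, ⟪fderiv ℝ f z e1, (fderiv ℝ (fderiv ℝ f) z).flip e0 w⟫ = 0 := by
    filter_upwards [h.isOpen.mem_nhds hy] with z hz w
    rw [real_inner_comm]
    exact h.inner_D2_tan hz w e0 e1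
  have h1 := inner_fderiv_symm hP hP' hQ horth e0 e1
  simp only [ContinuousLinearMap.flip_apply] at h1
  change ⟪D2 f y e0 e1, D2 f y e1 e0⟫ = ⟪D2 f y e1 e1, D2 f y e0 e0⟫ at h1
  rw [real_inner_comm, ← h1, h.D2_symm hy e1 e0]

end IsoImm

theorem inner_e0_e0 : ⟪e0, e0⟫ = (1:ℝ) := by
  rw [PiLp.inner_apply]; simp [e0]

theorem inner_e1_e1 : ⟪e1, e1⟫ = (1:ℝ) := by
  rw [PiLp.inner_apply]; simp [e1]

theorem inner_e0_e1 : ⟪e0, e1⟫ = (0:ℝ) := by
  rw [PiLp.inner_apply]; simp [e0, e1]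

theorem star_eq_neg {a : ℍ[ℝ]} (h : ⟪(1 : ℍ[ℝ]), a⟫ = 0) : star a = -a := by
  rw [Quaternion.inner_def] at h
  have h1 : a.re = 0 := by simpa using h
  ext <;> simp [h1]

theorem mul_self_eq {a : ℍ[ℝ]} (h : star a = -a) (h1 : ‖a‖ = 1) : a * a = -1 := by
  have h2 : star a * a = 1 := by
    rw [Quaternion.star_mul_self, Quaternion.normSq_eq_norm_mul_self, h1]; simp
  rw [h] at h2
  rw [neg_mul] at h2
  rw [← h2, neg_neg]

theorem mul_anticomm {a b : ℍ[ℝ]} (ha : star a = -a) (hb : star b = -b) (h : ⟪a, b⟫ = 0) :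
    b * a = -(a * b) := by
  have h1 : star (a * star b) = b * star a := by simp
  have h2 : (a * star b).re = 0 := by rw [← Quaternion.inner_def]; exact h
  have gen : ∀ p : ℍ[ℝ], p.re = 0 → star p = -p := by
    intro p hp; ext <;> simp [hp]
  have h3 := gen _ h2
  rw [h1, ha, hb] at h3
  simp only [mul_neg, neg_neg] at h3
  rw [← h3]; simp

theorem inner_mul_left_unit {f : ℍ[ℝ]} (hf : ‖f‖ = 1) (a b : ℍ[ℝ]) :
    ⟪star f * a, star f * b⟫ = ⟪a, b⟫ := by
  rw [Quaternion.inner_def, Quaternion.inner_def]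
  have h1 : star f * a * star (star f * b) = star f * (a * star b) * f := by
    simp [mul_assoc]
  have h2 : f * star f = 1 := by
    rw [Quaternion.self_mul_star, Quaternion.normSq_eq_norm_mul_self, hf]; simp
  have h3 : ∀ p q : ℍ[ℝ], (p * q).re = (q * p).re := by
    intro p q; simp [Quaternion.re_mul]; ring
  rw [h1, h3, ← mul_assoc, h2, one_mul]

theorem expand4 {u₀ u₁ u₂ u₃ : ℍ[ℝ]} (h00 : ⟪u₀, u₀⟫ = 1) (h11 : ⟪u₁, u₁⟫ = 1)
    (h22 : ⟪u₂, u₂⟫ = 1) (h33 : ⟪u₃, u₃⟫ = 1) (h01 : ⟪u₀, u₁⟫ = 0) (h02 : ⟪u₀, u₂⟫ = 0)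
    (h03 : ⟪u₀, u₃⟫ = 0) (h12 : ⟪u₁, u₂⟫ = 0) (h13 : ⟪u₁, u₃⟫ = 0) (h23 : ⟪u₂, u₃⟫ = 0)
    (X : ℍ[ℝ]) :
    X = ⟪u₀, X⟫ • u₀ + ⟪u₁, X⟫ • u₁ + ⟪u₂, X⟫ • u₂ + ⟪u₃, X⟫ • u₃ := by
  let v : Fin 4 → ℍ[ℝ] := ![u₀, u₁, u₂, u₃]
  have h10 : ⟪u₁, u₀⟫ = 0 := by rw [real_inner_comm]; exact h01
  have h20 : ⟪u₂, u₀⟫ = 0 := by rw [real_inner_comm]; exact h02
  have h30 : ⟪u₃, u₀⟫ = 0 := by rw [real_inner_comm]; exact h03
  have h21 : ⟪u₂, u₁⟫ = 0 := by rw [real_inner_comm]; exact h12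
  have h31 : ⟪u₃, u₁⟫ = 0 := by rw [real_inner_comm]; exact h13
  have h32 : ⟪u₃, u₂⟫ = 0 := by rw [real_inner_comm]; exact h23
  have hv : Orthonormal ℝ v := by
    rw [orthonormal_iff_ite]
    intro i j
    fin_cases i <;> fin_cases j <;>
      simp only [v, h00, h11, h22, h33, h01, h02, h03, h12, h13, h23, h10, h20, h30, h21, h31, h32,
        Fin.zero_eta, Fin.mk_one, Fin.reduceFinMk, Matrix.cons_val_zero, Matrix.cons_val_one,
        Matrix.cons_val, if_true, if_false, Fin.reduceEq, zero_ne_one, one_ne_zero]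
  have hspan : Submodule.span ℝ (Set.range v) = ⊤ :=
    hv.linearIndependent.span_eq_top_of_card_eq_finrank
      (by rw [Quaternion.finrank_eq_four]; simp)
  let b := OrthonormalBasis.mk hv hspan.ge
  have h1 := b.sum_repr' X
  rw [Fin.sum_univ_four] at h1
  have hb : ∀ i, b i = v i := fun i => by simp [b]
  rw [hb, hb, hb, hb] at h1
  exact h1.symm

/-- Algebraic data of the frame at a point. -/
theorem IsoImm.frame (h : IsoImm V f) {y : E2} (hy : y ∈ V) :
    ∃ a b : ℍ[ℝ], star a = -a ∧ star b = -b ∧ a * a = -1 ∧ b * b = -1 ∧ b * a = -(a * b) ∧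
      fderiv ℝ f y e0 = f y * a ∧ fderiv ℝ f y e1 = f y * b ∧ nor f y = f y * (a * b) ∧
      star (f y) * f y = 1 ∧ f y * star (f y) = 1 ∧ ⟪a, b⟫ = 0 ∧ ‖a‖ = 1 ∧ ‖b‖ = 1 ∧
      ⟪(1 : ℍ[ℝ]), a⟫ = 0 ∧ ⟪(1 : ℍ[ℝ]), b⟫ = 0 := by
  have hn := h.sphere y hy
  have h2 : f y * star (f y) = 1 := by
    rw [Quaternion.self_mul_star, Quaternion.normSq_eq_norm_mul_self, hn]; simp
  have h3 : star (f y) * f y = 1 := by
    rw [Quaternion.star_mul_self, Quaternion.normSq_eq_norm_mul_self, hn]; simp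
  set a := star (f y) * fderiv ℝ f y e0 with ha
  set b := star (f y) * fderiv ℝ f y e1 with hb
  have h1a : ⟪(1 : ℍ[ℝ]), a⟫ = 0 := by
    rw [ha, ← h3, inner_mul_left_unit hn]; exact h.inner_pos hy e0
  have h1b : ⟪(1 : ℍ[ℝ]), b⟫ = 0 := by
    rw [hb, ← h3, inner_mul_left_unit hn]; exact h.inner_pos hy e1
  have hab : ⟪a, b⟫ = 0 := by
    rw [ha, hb, inner_mul_left_unit hn, h.inner_isom hy]; exact inner_e0_e1
  have hna : ‖a‖ = 1 := by
    have : ‖a‖ ^ 2 = 1 := by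
      rw [← real_inner_self_eq_norm_sq, ha, inner_mul_left_unit hn, h.inner_isom hy]
      exact inner_e0_e0
    have h0 := norm_nonneg a
    nlinarith
  have hnb : ‖b‖ = 1 := by
    have : ‖b‖ ^ 2 = 1 := by
      rw [← real_inner_self_eq_norm_sq, hb, inner_mul_left_unit hn, h.inner_isom hy]
      exact inner_e1_e1
    have h0 := norm_nonneg b
    nlinarith
  have hsa := star_eq_neg h1a
  have hsb := star_eq_neg h1b
  have hA : fderiv ℝ f y e0 = f y * a := by rw [ha, ← mul_assoc, h2, one_mul]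
  have hB : fderiv ℝ f y e1 = f y * b := by rw [hb, ← mul_assoc, h2, one_mul]
  refine ⟨a, b, hsa, hsb, mul_self_eq hsa hna, mul_self_eq hsb hnb, mul_anticomm hsa hsb hab,
    hA, hB, ?_, h3, h2, hab, hna, hnb, h1a, h1b⟩
  rw [nor, hA, mul_assoc (f y * a), ← hb, mul_assoc]

theorem re_inner_one (a : ℍ[ℝ]) : ⟪(1 : ℍ[ℝ]), a⟫ = a.re := by
  rw [Quaternion.inner_def]; simp

/-- The normal is a unit vector orthogonal to the position and to the tangent plane. -/
theorem IsoImm.nor_spec (h : IsoImm V f) {y : E2} (hy : y ∈ V) :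
    ⟪nor f y, nor f y⟫ = 1 ∧ ⟪f y, nor f y⟫ = 0 ∧ ⟪fderiv ℝ f y e0, nor f y⟫ = 0 ∧
      ⟪fderiv ℝ f y e1, nor f y⟫ = 0 := by
  obtain ⟨a, b, hsa, hsb, haa, hbb, hba, hA, hB, hN, h3, h2, hab, hna, hnb, h1a, h1b⟩ :=
    h.frame hy
  have hn := h.sphere y hy
  have hst : star (star (f y)) = f y := star_star _
  have hn' : ‖star (f y)‖ = 1 := by rw [Quaternion.norm_star]; exact hn
  have hl : ∀ p q : ℍ[ℝ], ⟪f y * p, f y * q⟫ = ⟪p, q⟫ := by
    intro p q
    have := inner_mul_left_unit hn' p q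
    rw [hst] at this
    exact this
  have hab' : star (a * b) = -(a * b) := by
    rw [star_mul, hsa, hsb, neg_mul_neg, hba]
  refine ⟨?_, ?_, ?_, ?_⟩
  · rw [hN, hl, real_inner_self_eq_norm_sq, norm_mul, hna, hnb]; norm_num
  · rw [hN]
    conv_lhs => rw [← mul_one (f y)]
    rw [mul_assoc, one_mul, hl, re_inner_one]
    have h5 : (a * star b).re = 0 := by rw [← Quaternion.inner_def]; exact hab
    rw [hsb, mul_neg, Quaternion.re_neg] at h5
    linarith
  · rw [hN, hA, hl, Quaternion.inner_def, hab']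
    have : a * -(a * b) = b := by rw [mul_neg, ← mul_assoc, haa]; simp
    rw [this, ← re_inner_one]; exact h1b
  · rw [hN, hB, hl, Quaternion.inner_def, hab']
    have : b * -(a * b) = -a := by
      rw [← hba, ← mul_assoc, hbb]; simp
    rw [this, Quaternion.re_neg, ← re_inner_one, h1a, neg_zero]

theorem IsoImm.expand (h : IsoImm V f) {y : E2} (hy : y ∈ V) (X : ℍ[ℝ]) :
    X = ⟪f y, X⟫ • f y + ⟪fderiv ℝ f y e0, X⟫ • fderiv ℝ f y e0
      + ⟪fderiv ℝ f y e1, X⟫ • fderiv ℝ f y e1 + ⟪nor f y, X⟫ • nor f y := by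
  obtain ⟨hnn, hfn, h0n, h1n⟩ := h.nor_spec hy
  refine expand4 ?_ ?_ ?_ hnn (h.inner_pos hy e0) (h.inner_pos hy e1) hfn ?_ h0n h1n X
  · rw [real_inner_self_eq_norm_sq, h.sphere y hy]; norm_num
  · rw [h.inner_isom hy]; exact inner_e0_e0
  · rw [h.inner_isom hy]; exact inner_e1_e1
  · rw [h.inner_isom hy]; exact inner_e0_e1

/-- The second fundamental form. -/
noncomputable def II (f : E2 → ℍ[ℝ]) (y a b : E2) : ℝ := ⟪nor f y, D2 f y a b⟫

theorem IsoImm.D2_eq (h : IsoImm V f) {y : E2} (hy : y ∈ V) (a b : E2) :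
    D2 f y a b = II f y a b • nor f y - ⟪a, b⟫ • f y := by
  have h1 := h.expand hy (D2 f y a b)
  have h2 : ⟪fderiv ℝ f y e0, D2 f y a b⟫ = 0 := by
    rw [real_inner_comm]; exact h.inner_D2_tan hy a b e0
  have h3 : ⟪fderiv ℝ f y e1, D2 f y a b⟫ = 0 := by
    rw [real_inner_comm]; exact h.inner_D2_tan hy a b e1
  rw [h2, h3, h.inner_D2_pos hy] at h1
  rw [h1, II]
  module

theorem D2_add_left (f : E2 → ℍ[ℝ]) (y a a' b : E2) :
    D2 f y (a + a') b = D2 f y a b + D2 f y a' b := by simp [D2]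

theorem D2_smul_left (f : E2 → ℍ[ℝ]) (y a b : E2) (c : ℝ) :
    D2 f y (c • a) b = c • D2 f y a b := by simp [D2]

theorem D2_add_right (f : E2 → ℍ[ℝ]) (y a b b' : E2) :
    D2 f y a (b + b') = D2 f y a b + D2 f y a b' := by simp [D2]

theorem D2_smul_right (f : E2 → ℍ[ℝ]) (y a b : E2) (c : ℝ) :
    D2 f y a (c • b) = c • D2 f y a b := by simp [D2]

theorem IsoImm.II_symm (h : IsoImm V f) {y : E2} (hy : y ∈ V) (a b : E2) :
    II f y a b = II f y b a := by rw [II, II, h.D2_symm hy]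

/-- The Gauss equation in terms of the second fundamental form. -/
theorem IsoImm.gauss_II (h : IsoImm V f) {y : E2} (hy : y ∈ V) :
    II f y e0 e0 * II f y e1 e1 - II f y e0 e1 ^ 2 = -1 := by
  have h1 := h.gauss_eq hy
  obtain ⟨hnn, hfn, h0n, h1n⟩ := h.nor_spec hy
  have hff : ⟪f y, f y⟫ = 1 := by
    rw [real_inner_self_eq_norm_sq, h.sphere y hy]; norm_num
  have hnf : ⟪nor f y, f y⟫ = 0 := by rw [real_inner_comm]; exact hfn
  rw [h.D2_eq hy, h.D2_eq hy, h.D2_eq hy, inner_e0_e0, inner_e1_e1, inner_e0_e1] at h1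
  simp only [inner_sub_left, inner_sub_right, real_inner_smul_left, real_inner_smul_right,
    hnn, hfn, hnf, hff] at h1
  linarith

/-- Decomposition of `II w e0` and `II w e1` along an asymptotic vector. -/
theorem IsoImm.II_asym (h : IsoImm V f) {y : E2} (hy : y ∈ V) {w : E2} (hw : II f y w w = 0) :
    let x₀ := II f y w e0
    let x₁ := II f y w e1
    w 0 * x₀ + w 1 * x₁ = 0 ∧ x₀ ^ 2 + x₁ ^ 2 = (w 0) ^ 2 + (w 1) ^ 2 := by
  intro x₀ x₁
  have hx₀ : x₀ = w 0 * II f y e0 e0 + w 1 * II f y e0 e1 := by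
    change II f y w e0 = _
    conv_lhs => rw [E2_decomp w]
    rw [II, D2_add_left, D2_smul_left, D2_smul_left, inner_add_right, real_inner_smul_right,
      real_inner_smul_right]
    have := h.II_symm hy e1 e0
    rw [II, II] at this
    rw [this]; rfl
  have hx₁ : x₁ = w 0 * II f y e0 e1 + w 1 * II f y e1 e1 := by
    change II f y w e1 = _
    conv_lhs => rw [E2_decomp w]
    rw [II, D2_add_left, D2_smul_left, D2_smul_left, inner_add_right, real_inner_smul_right,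
      real_inner_smul_right]
    rfl
  have hww : w 0 * x₀ + w 1 * x₁ = 0 := by
    have h1 : II f y w w = w 0 * x₀ + w 1 * x₁ := by
      have h2 : D2 f y w w = w 0 • D2 f y w e0 + w 1 • D2 f y w e1 := by
        conv_lhs => rw [E2_decomp w]
        rw [D2_add_right, D2_smul_right, D2_smul_right, ← E2_decomp w]
      rw [II, h2, inner_add_right, real_inner_smul_right, real_inner_smul_right]
      rfl
    rw [← h1]; exact hw
  refine ⟨hww, ?_⟩
  have hg := h.gauss_II hy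
  have key : x₀ ^ 2 + x₁ ^ 2 = (II f y e0 e0 + II f y e1 e1) * (w 0 * x₀ + w 1 * x₁)
      - (II f y e0 e0 * II f y e1 e1 - II f y e0 e1 ^ 2) * ((w 0) ^ 2 + (w 1) ^ 2) := by
    rw [hx₀, hx₁]; ring
  rw [key, hww, hg]; ring

/-- The Weingarten formula along a curve. -/
theorem IsoImm.nor_hasDerivAt (h : IsoImm V f) {y : ℝ → E2} {w : E2} {s : ℝ} (hy : y s ∈ V)
    (hyd : HasDerivAt y w s) :
    HasDerivAt (fun s => nor f (y s))
      (-(II f (y s) w e0) • fderiv ℝ f (y s) e0 - (II f (y s) w e1) • fderiv ℝ f (y s) e1) s := by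
  have hf' : HasDerivAt (fun s => f (y s)) (fderiv ℝ f (y s) w) s :=
    (h.hasFDerivAt hy).comp_hasDerivAt s hyd
  have hb : ∀ b : E2, HasDerivAt (fun s => fderiv ℝ f (y s) b) (D2 f (y s) w b) s := by
    intro b
    exact (h.hasFDerivAt_fderiv_apply hy b).comp_hasDerivAt s hyd
  have hd : ∃ N' : ℍ[ℝ], HasDerivAt (fun s => nor f (y s)) N' s := by
    unfold nor
    exact ⟨_, ((hb e0).mul hf'.star).mul (hb e1)⟩
  obtain ⟨N', hN'⟩ := hd
  obtain ⟨hnn, hfn, h0n, h1n⟩ := h.nor_spec hy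
  have hev : ∀ᶠ s' in 𝓝 s, y s' ∈ V := hyd.continuousAt.preimage_mem_nhds (h.isOpen.mem_nhds hy)
  -- orthogonality of `N'`
  have c1 : ⟪nor f (y s), N'⟫ = 0 := by
    have h1 := hN'.inner ℝ hN'
    have h2 : (fun s => ⟪nor f (y s), nor f (y s)⟫) =ᶠ[𝓝 s] fun _ => (1:ℝ) := by
      filter_upwards [hev] with s' hs'
      exact (h.nor_spec hs').1
    have h3 := (h1.congr_of_eventuallyEq h2.symm).unique (hasDerivAt_const s (1:ℝ))
    have h4 : ⟪N', nor f (y s)⟫ = ⟪nor f (y s), N'⟫ := real_inner_comm _ _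
    linarith
  have c2 : ⟪f (y s), N'⟫ = 0 := by
    have h1 := hf'.inner ℝ hN'
    have h2 : (fun s => ⟪f (y s), nor f (y s)⟫) =ᶠ[𝓝 s] fun _ => (0:ℝ) := by
      filter_upwards [hev] with s' hs'
      exact (h.nor_spec hs').2.1
    have h3 := (h1.congr_of_eventuallyEq h2.symm).unique (hasDerivAt_const s (0:ℝ))
    have h4 : ⟪fderiv ℝ f (y s) w, nor f (y s)⟫ = 0 := by
      conv_lhs => rw [E2_decomp w]
      rw [map_add, map_smul, map_smul, inner_add_left, real_inner_smul_left,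
        real_inner_smul_left, h0n, h1n]
      ring
    linarith
  have c3 : ⟪fderiv ℝ f (y s) e0, N'⟫ = -(II f (y s) w e0) := by
    have h1 := (hb e0).inner ℝ hN'
    have h2 : (fun s => ⟪fderiv ℝ f (y s) e0, nor f (y s)⟫) =ᶠ[𝓝 s] fun _ => (0:ℝ) := by
      filter_upwards [hev] with s' hs'
      exact (h.nor_spec hs').2.2.1
    have h3 := (h1.congr_of_eventuallyEq h2.symm).unique (hasDerivAt_const s (0:ℝ))
    have h4 : ⟪D2 f (y s) w e0, nor f (y s)⟫ = II f (y s) w e0 := by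
      rw [real_inner_comm]; rfl
    linarith
  have c4 : ⟪fderiv ℝ f (y s) e1, N'⟫ = -(II f (y s) w e1) := by
    have h1 := (hb e1).inner ℝ hN'
    have h2 : (fun s => ⟪fderiv ℝ f (y s) e1, nor f (y s)⟫) =ᶠ[𝓝 s] fun _ => (0:ℝ) := by
      filter_upwards [hev] with s' hs'
      exact (h.nor_spec hs').2.2.2
    have h3 := (h1.congr_of_eventuallyEq h2.symm).unique (hasDerivAt_const s (0:ℝ))
    have h4 : ⟪D2 f (y s) w e1, nor f (y s)⟫ = II f (y s) w e1 := by
      rw [real_inner_comm]; rfl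
    linarith
  have h5 := h.expand hy N'
  rw [c1, c2, c3, c4] at h5
  have h6 : N' = -(II f (y s) w e0) • fderiv ℝ f (y s) e0
      - (II f (y s) w e1) • fderiv ℝ f (y s) e1 := by
    rw [h5]; module
  rw [← h6]; exact hN'

theorem alg_plus {f a b : ℍ[ℝ]} {w₀ w₁ : ℝ} (hf : star f * f = 1) (ha : star a = -a)
    (hb : star b = -b) (haa : a * a = -1) (hbb : b * b = -1) (hba : b * a = -(a * b)) :
    star (w₀ • (f * a) + w₁ • (f * b)) * (f * (a * b))
      + star f * (w₁ • (f * a) - w₀ • (f * b)) = 0 := by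
  have h1 : star (w₀ • (f * a) + w₁ • (f * b)) = -(w₀ • a + w₁ • b) * star f := by
    rw [star_add, star_smul, star_smul, star_mul, star_mul, ha, hb, star_trivial w₀, star_trivial w₁]
    simp only [neg_mul, neg_add, smul_neg, add_mul, smul_mul_assoc]
  have h2 : star f * (f * (a * b)) = a * b := by rw [← mul_assoc, hf, one_mul]
  have h3 : star f * (f * a) = a := by rw [← mul_assoc, hf, one_mul]
  have h4 : star f * (f * b) = b := by rw [← mul_assoc, hf, one_mul]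
  have h5 : a * (a * b) = -b := by rw [← mul_assoc, haa]; simp
  have h6 : b * (a * b) = a := by
    rw [← mul_assoc, hba, neg_mul, mul_assoc, hbb]; simp
  rw [h1, mul_assoc, h2, mul_sub, mul_smul_comm, mul_smul_comm, h3, h4, neg_mul, add_mul,
    smul_mul_assoc, smul_mul_assoc, h5, h6]
  module

theorem alg_minus {f a b : ℍ[ℝ]} {w₀ w₁ : ℝ} (ha : star a = -a)
    (hb : star b = -b) (haa : a * a = -1) (hbb : b * b = -1) (hba : b * a = -(a * b)) :
    (-(w₁ • (f * a)) + w₀ • (f * b)) * star f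
      + (f * (a * b)) * star (w₀ • (f * a) + w₁ • (f * b)) = 0 := by
  have h1 : star (w₀ • (f * a) + w₁ • (f * b)) = -(w₀ • a + w₁ • b) * star f := by
    rw [star_add, star_smul, star_smul, star_mul, star_mul, ha, hb, star_trivial w₀, star_trivial w₁]
    simp only [neg_mul, neg_add, smul_neg, add_mul, smul_mul_assoc]
  have h5 : (a * b) * a = b := by
    rw [mul_assoc, hba, mul_neg, ← mul_assoc, haa]; simp
  have h6 : (a * b) * b = -a := by rw [mul_assoc, hbb]; simp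
  have h7 : (f * (a * b)) * (-(w₀ • a + w₁ • b)) = f * (-(w₀ • b) + w₁ • a) := by
    rw [mul_assoc, mul_neg, mul_add, mul_smul_comm, mul_smul_comm, h5, h6]
    congr 1
    module
  have h8 : (-(w₁ • (f * a)) + w₀ • (f * b)) = f * (-(w₁ • a) + w₀ • b) := by
    rw [mul_add, mul_neg, mul_smul_comm, mul_smul_comm]
  rw [h1, ← mul_assoc, h7, h8, ← add_mul, ← mul_add]
  have h9 : (-(w₁ • a) + w₀ • b) + (-(w₀ • b) + w₁ • a) = 0 := by module
  rw [h9]; simp

/-- Along an asymptotic curve the normal is a fixed right or left multiple of the position. -/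
theorem IsoImm.local_const (h : IsoImm V f) {I : Set ℝ} (hI : IsOpen I) (hIc : IsPreconnected I)
    {y w : ℝ → E2} (hy : ∀ s ∈ I, y s ∈ V) (hyd : ∀ s ∈ I, HasDerivAt y (w s) s)
    (hw0 : ∀ s ∈ I, w s ≠ 0) (hwc : ContinuousOn w I)
    (has : ∀ s ∈ I, II f (y s) (w s) (w s) = 0) :
    (∃ k : ℍ[ℝ], ∀ s ∈ I, nor f (y s) = f (y s) * k) ∨
      (∃ l : ℍ[ℝ], ∀ s ∈ I, nor f (y s) = l * f (y s)) := by
  have hyc : ContinuousOn y I := fun s hs => (hyd s hs).continuousAt.continuousWithinAt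
  have hco : ∀ i : Fin 2, ContinuousOn (fun s => w s i) I := fun i =>
    (EuclideanSpace.proj i : E2 →L[ℝ] ℝ).continuous.comp_continuousOn hwc
  have hD2 : ∀ e : E2, ContinuousOn (fun s => II f (y s) (w s) e) I := by
    intro e s hs
    have h1 : ContinuousAt (fun z => fderiv ℝ (fderiv ℝ f) z) (y s) := h.continuousAt_D2 (hy s hs)
    have h2 : ContinuousWithinAt (fun s => fderiv ℝ (fderiv ℝ f) (y s)) I s :=
      h1.comp_continuousWithinAt (hyc s hs)
    have h3 : ContinuousWithinAt (fun s => D2 f (y s) (w s) e) I s :=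
      (h2.clm_apply (hwc s hs)).clm_apply continuousWithinAt_const
    have h4 : ContinuousWithinAt (fun s => nor f (y s)) I s :=
      (h.nor_hasDerivAt (hy s hs) (hyd s hs)).continuousAt.continuousWithinAt
    exact h4.inner h3
  let τ : ℝ → ℝ := fun s => w s 0 * II f (y s) (w s) e1 - w s 1 * II f (y s) (w s) e0
  let g : ℝ → ℝ := fun s => (w s 0) ^ 2 + (w s 1) ^ 2
  have hτc : ContinuousOn τ I := ((hco 0).mul (hD2 e1)).sub ((hco 1).mul (hD2 e0))
  have hgc : ContinuousOn g I := ((hco 0).pow 2).add ((hco 1).pow 2)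
  have hsq : Set.EqOn (τ ^ 2) (g ^ 2) I := by
    intro s hs
    obtain ⟨h1, h2⟩ := h.II_asym (hy s hs) (has s hs)
    simp only [Pi.pow_apply, τ, g]
    set x₀ := II f (y s) (w s) e0
    set x₁ := II f (y s) (w s) e1
    have : (w s 0 * x₁ - w s 1 * x₀) ^ 2
        = ((w s 0) ^ 2 + (w s 1) ^ 2) * (x₀ ^ 2 + x₁ ^ 2) - (w s 0 * x₀ + w s 1 * x₁) ^ 2 := by
      ring
    rw [this, h1, h2]; ring
  have hg0 : ∀ {s : ℝ}, s ∈ I → g s ≠ 0 := by
    intro s hs h0
    apply hw0 s hs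
    have h1 : (w s 0) = 0 := by
      have := sq_nonneg (w s 1); have := sq_nonneg (w s 0)
      have h2 : (w s 0) ^ 2 = 0 := by simp only [g] at h0; linarith
      exact pow_eq_zero_iff two_ne_zero |>.mp h2
    have h3 : (w s 1) = 0 := by
      have := sq_nonneg (w s 1); have := sq_nonneg (w s 0)
      have h2 : (w s 1) ^ 2 = 0 := by simp only [g] at h0; linarith
      exact pow_eq_zero_iff two_ne_zero |>.mp h2
    ext i; fin_cases i
    · simpa using h1
    · simpa using h3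
  have hfd : ∀ s ∈ I, HasDerivAt (fun s => f (y s))
      (w s 0 • fderiv ℝ f (y s) e0 + w s 1 • fderiv ℝ f (y s) e1) s := by
    intro s hs
    have h1 := (h.hasFDerivAt (hy s hs)).comp_hasDerivAt s (hyd s hs)
    have h2 : fderiv ℝ f (y s) (w s)
        = w s 0 • fderiv ℝ f (y s) e0 + w s 1 • fderiv ℝ f (y s) e1 := by
      conv_lhs => rw [E2_decomp (w s)]
      rw [map_add, map_smul, map_smul]
    rw [← h2]; exact h1
  rcases hIc.eq_or_eq_neg_of_sq_eq hτc hgc hsq hg0 with hτ | hτ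
  · left
    have hder : ∀ s ∈ I, HasDerivAt (fun s => star (f (y s)) * nor f (y s)) 0 s := by
      intro s hs
      obtain ⟨h1, h2⟩ := h.II_asym (hy s hs) (has s hs)
      have h3 : w s 0 * II f (y s) (w s) e1 - w s 1 * II f (y s) (w s) e0
        = (w s 0) ^ 2 + (w s 1) ^ 2 := hτ hs
      have hg := hg0 hs
      have hx₀ : II f (y s) (w s) e0 = -(w s 1) := by
        apply mul_left_cancel₀ hg
        simp only [g]
        linear_combination (w s 0) * h1 - (w s 1) * h3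
      have hx₁ : II f (y s) (w s) e1 = w s 0 := by
        apply mul_left_cancel₀ hg
        simp only [g]
        linear_combination (w s 1) * h1 + (w s 0) * h3
      have h4 := (hfd s hs).star.mul (h.nor_hasDerivAt (hy s hs) (hyd s hs))
      obtain ⟨a, b, hsa, hsb, haa, hbb, hba, hA, hB, hN, hff, hff', hab, hna, hnb, h1a, h1b⟩ :=
        h.frame (hy s hs)
      have h5 := alg_plus (w₀ := w s 0) (w₁ := w s 1) hff hsa hsb haa hbb hba
      refine h4.congr_deriv ?_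
      rw [hx₀, hx₁, hA, hB, hN, neg_neg]
      exact h5
    rcases I.eq_empty_or_nonempty with hIe | ⟨s₀, hs₀⟩
    · exact ⟨0, fun s hs => by rw [hIe] at hs; exact absurd hs (Set.notMem_empty _)⟩
    · refine ⟨star (f (y s₀)) * nor f (y s₀), fun s hs => ?_⟩
      have h6 := hI.is_const_of_deriv_eq_zero hIc
        (fun s hs => (hder s hs).differentiableAt.differentiableWithinAt)
        (fun s hs => (hder s hs).deriv) hs₀ hs
      have h6' : star (f (y s₀)) * nor f (y s₀) = star (f (y s)) * nor f (y s) := h6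
      obtain ⟨a, b, hsa, hsb, haa, hbb, hba, hA, hB, hN, hff, hff', hab, hna, hnb, h1a, h1b⟩ :=
        h.frame (hy s hs)
      rw [h6', ← mul_assoc, hff', one_mul]
  · right
    have hder : ∀ s ∈ I, HasDerivAt (fun s => nor f (y s) * star (f (y s))) 0 s := by
      intro s hs
      obtain ⟨h1, h2⟩ := h.II_asym (hy s hs) (has s hs)
      have h3 : w s 0 * II f (y s) (w s) e1 - w s 1 * II f (y s) (w s) e0
        = -((w s 0) ^ 2 + (w s 1) ^ 2) := hτ hs
      have hg := hg0 hs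
      have hx₀ : II f (y s) (w s) e0 = w s 1 := by
        apply mul_left_cancel₀ hg
        simp only [g]
        linear_combination (w s 0) * h1 - (w s 1) * h3
      have hx₁ : II f (y s) (w s) e1 = -(w s 0) := by
        apply mul_left_cancel₀ hg
        simp only [g]
        linear_combination (w s 1) * h1 + (w s 0) * h3
      have h4 := (h.nor_hasDerivAt (hy s hs) (hyd s hs)).mul (hfd s hs).star
      obtain ⟨a, b, hsa, hsb, haa, hbb, hba, hA, hB, hN, hff, hff', hab, hna, hnb, h1a, h1b⟩ :=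
        h.frame (hy s hs)
      have h5 := alg_minus (f := f (y s)) (w₀ := w s 0) (w₁ := w s 1) hsa hsb haa hbb hba
      refine h4.congr_deriv ?_
      rw [hx₀, hx₁, hA, hB, hN]
      rw [← h5]
      congr 2
      module
    rcases I.eq_empty_or_nonempty with hIe | ⟨s₀, hs₀⟩
    · exact ⟨0, fun s hs => by rw [hIe] at hs; exact absurd hs (Set.notMem_empty _)⟩
    · refine ⟨nor f (y s₀) * star (f (y s₀)), fun s hs => ?_⟩
      have h6 := hI.is_const_of_deriv_eq_zero hIc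
        (fun s hs => (hder s hs).differentiableAt.differentiableWithinAt)
        (fun s hs => (hder s hs).deriv) hs₀ hs
      have h6' : nor f (y s₀) * star (f (y s₀)) = nor f (y s) * star (f (y s)) := h6
      obtain ⟨a, b, hsa, hsb, haa, hbb, hba, hA, hB, hN, hff, hff', hab, hna, hnb, h1a, h1b⟩ :=
        h.frame (hy s hs)
      rw [h6', mul_assoc, hff, mul_one]

end Pool.Agent.LibFlatS3
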