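import Pool.Agent.LibFlatS3.Closed

set_option autoImplicit false

open scoped RealInnerProductSpace Quaternion
open Topology Filter

namespace Pool.Agent.LibFlatS3

attribute [local instance] starModuleH

variable {F : Type} [TopologicalSpace F] {r : F → E4}

theorem not_both (hs : ∀ p, ‖r p‖ = 1) (hflat : IsLocallyEuclidean r) {c : ℝ → F}
    (hc1 : ContDiff ℝ 1 (r ∘ c))
    (hasy : ∀ s, IsAsymptoticVector r (c s) (deriv (r ∘ c) s)) (s₀ : ℝ) {k l : ℍ[ℝ]}
    (hk : k ≠ 0) (hl : l ≠ 0) (h1 : ∀ᶠ s in 𝓝 s₀, IsNor r (c s) (op true k (Th (r (c s)))))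
    (h2 : ∀ᶠ s in 𝓝 s₀, IsNor r (c s) (op false l (Th (r (c s))))) : False := by
  set u : ℝ → ℍ[ℝ] := fun s => Th (r (c s)) with hu
  have hun : ∀ s, ‖u s‖ = 1 := fun s => by rw [hu]; simp [hs]
  have hu0 : ∀ s, u s ≠ 0 := fun s h => by have := hun s; rw [h] at this; simp at this
  have hud : ∀ s, HasDerivAt u (Th (deriv (r ∘ c) s)) s := by
    intro s
    exact (Th.toContinuousLinearEquiv : E4 →L[ℝ] ℍ[ℝ]).hasFDerivAt.comp_hasDerivAt s
      (hc1.differentiable (by norm_num) s).hasDerivAt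
  have h1' := h1.self_of_nhds
  have h2' := h2.self_of_nhds
  simp only [op, if_true] at h1 h1'
  simp only [op, Bool.false_eq_true, if_false] at h2 h2'
  obtain ⟨t, ht⟩ := IsNor.unique hs hflat h1' h2' (mul_ne_zero (hu0 s₀) hk)
  have ht' : l * u s₀ = u s₀ * (t • k) := by rw [mul_smul_comm]; exact ht
  set k' := t • k with hk'
  have hk'0 : k' ≠ 0 := by
    intro h0
    rw [h0, mul_zero] at ht'
    exact (mul_ne_zero hl (hu0 s₀)) ht'
  have hnorm : ‖l‖ = ‖k'‖ := by
    have := congrArg norm ht'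
    rw [norm_mul, norm_mul, hun, mul_one, one_mul] at this
    exact this
  have hcont : ContinuousAt (fun s => l * u s - u s * k') s₀ := by
    have : ContinuousAt u s₀ := (hud s₀).continuousAt
    exact (continuousAt_const.mul this).sub (this.mul continuousAt_const)
  have hsmall : ∀ᶠ s in 𝓝 s₀, ‖l * u s - u s * k'‖ < ‖l‖ := by
    have h3 : ‖l * u s₀ - u s₀ * k'‖ < ‖l‖ := by
      rw [ht', sub_self, norm_zero]; exact norm_pos_iff.mpr hl
    exact hcont.norm.eventually (gt_mem_nhds h3)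
  have hev : ∀ᶠ s in 𝓝 s₀, l * u s = u s * k' := by
    filter_upwards [h1, h2, hsmall] with s a1 a2 a3
    have a1' : IsNor r (c s) (u s * k') := by
      rw [hk', mul_smul_comm]; exact a1.smul t
    obtain ⟨t', ht''⟩ := IsNor.unique hs hflat a1' a2 (mul_ne_zero (hu0 s) hk'0)
    have hn : |t'| = 1 := by
      have := congrArg norm ht''
      rw [norm_smul, norm_mul, norm_mul, hun, mul_one, one_mul, hnorm, Real.norm_eq_abs] at this
      have hpos : 0 < ‖k'‖ := norm_pos_iff.mpr hk'0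
      have h4 : (|t'| - 1) * ‖k'‖ = 0 := by linarith
      rcases mul_eq_zero.mp h4 with h5 | h5
      · linarith
      · exact absurd h5 hpos.ne'
    rcases abs_eq (zero_le_one) |>.mp hn with h5 | h5
    · rw [h5, one_smul] at ht''; exact ht''
    · exfalso
      rw [h5] at ht''
      have h6 : l * u s - u s * k' = -((2:ℝ) • (u s * k')) := by
        change l * u s = (-1 : ℝ) • (u s * k') at ht''
        rw [ht'']; module
      rw [h6, norm_neg, norm_smul, norm_mul, hun, one_mul, hnorm] at a3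
      have hpos : 0 < ‖k'‖ := norm_pos_iff.mpr hk'0
      simp at a3
      linarith
  set v := Th (deriv (r ∘ c) s₀) with hv
  have hdl : HasDerivAt (fun s => l * u s) (l * v) s₀ := (hud s₀).const_mul l
  have hdr : HasDerivAt (fun s => u s * k') (v * k') s₀ := (hud s₀).mul_const k'
  have hlv : l * v = v * k' := (hdl.congr_of_eventuallyEq (hev.mono fun s h => h.symm)).unique hdr
  -- tangency data
  obtain ⟨U₁, ψ₁, hch, x₁, hx₁, hcx, w₁, hw₁, hvv, hnor⟩ := hasy s₀
  have hvk : ⟪u s₀ * k', v⟫ = 0 := by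
    have := (h1'.smul t).2 U₁ ψ₁ hch x₁ hx₁ hcx w₁
    rw [hvv, ← mul_smul_comm] at this
    exact this
  have hv0 : v ≠ 0 := by
    intro h0
    have h3 : deriv (r ∘ c) s₀ = 0 := by simpa [hv] using h0
    rw [h3] at hvv
    exact hw₁ ((injective_iff_map_eq_zero _).mp (hch.imm x₁ hx₁) w₁ hvv)
  have huv : ⟪u s₀, v⟫ = 0 := by
    have h3 := (hud s₀).inner ℝ (hud s₀)
    have h4 : (fun s => ⟪u s, u s⟫) = fun _ => (1:ℝ) := by
      funext s; rw [real_inner_self_eq_norm_sq, hun]; norm_num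
    rw [h4] at h3
    have h5 := h3.unique (hasDerivAt_const s₀ (1:ℝ))
    have h6 : ⟪v, u s₀⟫ = ⟪u s₀, v⟫ := real_inner_comm _ _
    linarith
  have huk : ⟪u s₀, u s₀ * k'⟫ = 0 := by
    have := (h1'.smul t).1
    rw [← mul_smul_comm, real_inner_comm] at this
    exact this
  have huu : star (u s₀) * u s₀ = 1 := by
    rw [Quaternion.star_mul_self, Quaternion.normSq_eq_norm_mul_self, hun]; simp
  have huu' : u s₀ * star (u s₀) = 1 := by
    rw [Quaternion.self_mul_star, Quaternion.normSq_eq_norm_mul_self, hun]; simp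
  set a := star (u s₀) * v with ha
  have hva : v = u s₀ * a := by rw [ha, ← mul_assoc, huu', one_mul]
  have hkk : star (u s₀) * (u s₀ * k') = k' := by rw [← mul_assoc, huu, one_mul]
  have h1a : ⟪(1 : ℍ[ℝ]), a⟫ = 0 := by
    rw [ha, ← huu, inner_mul_left_unit (hun s₀)]; exact huv
  have h1k : ⟪(1 : ℍ[ℝ]), k'⟫ = 0 := by
    rw [← hkk, ← huu, inner_mul_left_unit (hun s₀)]; exact huk
  have hak : ⟪a, k'⟫ = 0 := by
    rw [ha, ← hkk, inner_mul_left_unit (hun s₀), real_inner_comm]; exact hvk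
  have hanti := mul_anticomm (star_eq_neg h1a) (star_eq_neg h1k) hak
  have hcomm : k' * a = a * k' := by
    have h3 : l = u s₀ * k' * star (u s₀) := by
      rw [← ht', mul_assoc, huu', mul_one]
    rw [h3, hva] at hlv
    have h4 : u s₀ * k' * star (u s₀) * (u s₀ * a) = u s₀ * (k' * a) := by
      rw [mul_assoc (u s₀ * k'), ← mul_assoc (star (u s₀)), huu, one_mul, mul_assoc]
    rw [h4, mul_assoc] at hlv
    exact mul_left_cancel₀ (hu0 s₀) hlv
  rw [hcomm] at hanti
  have h5 : a * k' = 0 := by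
    have h6 : (2:ℝ) • (a * k') = 0 := by
      rw [two_smul]
      nth_rewrite 1 [hanti]
      simp
    rcases smul_eq_zero.mp h6 with h7 | h7
    · norm_num at h7
    · exact h7
  rcases mul_eq_zero.mp h5 with h6 | h6
  · rw [h6, mul_zero] at hva
    exact hv0 hva
  · exact hk'0 h6

/-- Along a whole asymptotic curve the normal is a fixed multiple of the position vector. -/
theorem global_claim (hs : ∀ p, ‖r p‖ = 1) (hflat : IsLocallyEuclidean r) {c : ℝ → F}
    (hc : Continuous c) (hc1 : ContDiff ℝ 1 (r ∘ c))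
    (hasy : ∀ s, IsAsymptoticVector r (c s) (deriv (r ∘ c) s)) :
    ∃ (b : Bool) (k : ℍ[ℝ]), k ≠ 0 ∧ ∀ s, IsNor r (c s) (op b k (Th (r (c s)))) := by
  let B : Bool → Set ℝ := fun b => {s | ∃ k : ℍ[ℝ], k ≠ 0 ∧
    ∀ᶠ s' in 𝓝 s, IsNor r (c s') (op b k (Th (r (c s'))))}
  have hBo : ∀ b, IsOpen (B b) := by
    intro b
    rw [isOpen_iff_mem_nhds]
    rintro s ⟨k, hk, hks⟩
    filter_upwards [hks.eventually_nhds] with s' hs'
    exact ⟨k, hk, hs'⟩
  have hcov : ∀ s, s ∈ B true ∨ s ∈ B false := by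
    intro s
    obtain ⟨b, k, hk, hks⟩ := local_claim hs hflat hc hc1 hasy s
    cases b
    · exact Or.inr ⟨k, hk, hks⟩
    · exact Or.inl ⟨k, hk, hks⟩
  have hdis : ∀ s, s ∈ B true → s ∈ B false → False := by
    rintro s ⟨k, hk, hks⟩ ⟨l, hl, hls⟩
    exact not_both hs hflat hc1 hasy s hk hl hks hls
  have hcompl : (B true)ᶜ = B false := by
    ext s
    constructor
    · intro h
      rcases hcov s with h1 | h1
      · exact absurd h1 h
      · exact h1
    · intro h h'
      exact hdis s h' h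
  have hclopen : IsClopen (B true) := ⟨⟨by rw [hcompl]; exact hBo false⟩, hBo true⟩
  have hall : ∃ b, ∀ s, s ∈ B b := by
    rcases isClopen_iff.mp hclopen with h | h
    · refine ⟨false, fun s => ?_⟩
      rcases hcov s with h1 | h1
      · rw [h] at h1; exact absurd h1 (Set.notMem_empty _)
      · exact h1
    · exact ⟨true, fun s => by rw [h]; trivial⟩
  obtain ⟨b, hb⟩ := hall
  obtain ⟨k₀, hk₀, hks₀⟩ := hb 0
  have hun : ∀ s, ‖Th (r (c s))‖ = 1 := fun s => by simp [hs]
  have hu0 : ∀ s, Th (r (c s)) ≠ 0 := fun s h => by have := hun s; rw [h] at this; simp at this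
  have hopne : ∀ s k, k ≠ 0 → op b k (Th (r (c s))) ≠ 0 := by
    intro s k hk h
    have := norm_op b k (Th (r (c s)))
    rw [h, norm_zero, hun, mul_one] at this
    exact hk (norm_eq_zero.mp this.symm)
  let Z : Set ℝ := {s | IsNor r (c s) (op b k₀ (Th (r (c s))))}
  have hprop : ∀ s k, k ≠ 0 → IsNor r (c s) (op b k (Th (r (c s)))) →
      s ∈ Z → ∃ t : ℝ, k₀ = t • k := by
    intro s k hk h1 h2
    obtain ⟨t, ht⟩ := IsNor.unique hs hflat h1 h2 (hopne s k hk)
    refine ⟨t, op_cancel b (hu0 s) ?_⟩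
    rw [ht, op_smul_left]
  have hZo : IsOpen Z := by
    rw [isOpen_iff_mem_nhds]
    intro s hsZ
    obtain ⟨k₁, hk₁, hks₁⟩ := hb s
    obtain ⟨t, ht⟩ := hprop s k₁ hk₁ hks₁.self_of_nhds hsZ
    filter_upwards [hks₁] with s' hs'
    change IsNor r (c s') (op b k₀ (Th (r (c s'))))
    rw [ht, op_smul_left]
    exact hs'.smul t
  have hZc : IsClosed Z := by
    rw [← isOpen_compl_iff, isOpen_iff_mem_nhds]
    intro s hsZ
    obtain ⟨k₁, hk₁, hks₁⟩ := hb s
    filter_upwards [hks₁] with s' hs' hs'Z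
    obtain ⟨t, ht⟩ := hprop s' k₁ hk₁ hs' hs'Z
    apply hsZ
    change IsNor r (c s) (op b k₀ (Th (r (c s))))
    rw [ht, op_smul_left]
    exact (hks₁.self_of_nhds).smul t
  have hZ : Z = Set.univ := by
    rcases isClopen_iff.mp ⟨hZc, hZo⟩ with h | h
    · have : (0:ℝ) ∈ Z := hks₀.self_of_nhds
      rw [h] at this; exact absurd this (Set.notMem_empty _)
    · exact h
  exact ⟨b, k₀, hk₀, fun s => by
    have : s ∈ Z := by rw [hZ]; trivial
    exact this⟩

theorem sandwich {u v w : ℍ[ℝ]} (hu : ‖u‖ = 1) (hv : ⟪u, v⟫ = 0) (hw : ⟪u, w⟫ = 0) :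
    v * star u * w + w * star u * v = -((2 * ⟪v, w⟫) • u) := by
  have huu : star u * u = 1 := by
    rw [Quaternion.star_mul_self, Quaternion.normSq_eq_norm_mul_self, hu]; simp
  have huu' : u * star u = 1 := by
    rw [Quaternion.self_mul_star, Quaternion.normSq_eq_norm_mul_self, hu]; simp
  set a := star u * v with ha
  set b := star u * w with hb
  have hva : v = u * a := by rw [ha, ← mul_assoc, huu', one_mul]
  have hwb : w = u * b := by rw [hb, ← mul_assoc, huu', one_mul]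
  have h1a : ⟪(1 : ℍ[ℝ]), a⟫ = 0 := by
    rw [ha, ← huu, inner_mul_left_unit hu]; exact hv
  have h1b : ⟪(1 : ℍ[ℝ]), b⟫ = 0 := by
    rw [hb, ← huu, inner_mul_left_unit hu]; exact hw
  have hab : ⟪a, b⟫ = ⟪v, w⟫ := by rw [ha, hb, inner_mul_left_unit hu]
  have h1 : v * star u * w = u * (a * b) := by
    rw [hva, mul_assoc (u * a), ← hb, mul_assoc]
  have h2 : w * star u * v = u * (b * a) := by
    rw [hwb, mul_assoc (u * b), ← ha, mul_assoc]
  have gen : ∀ q : ℍ[ℝ], q + star q = ((2 * q.re : ℝ) : ℍ[ℝ]) := by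
    intro q
    ext <;> simp
    ring
  have hsa := star_eq_neg h1a
  have hsb := star_eq_neg h1b
  have h3 : a * b + b * a = -((2 * ⟪v, w⟫ : ℝ) : ℍ[ℝ]) := by
    have h4 := gen (a * star b)
    rw [← Quaternion.inner_def, hab] at h4
    rw [← h4]
    clear_value a b
    rw [star_mul, star_star, hsa, hsb]
    simp
    abel
  rw [h1, h2, ← mul_add, h3, mul_neg, Quaternion.mul_coe_eq_smul]

/-- The alternating property of the volume form. -/
theorem vol_alt {u g B₀ B₁ : ℍ[ℝ]} (hu : ‖u‖ = 1) (hg : ⟪g, u⟫ = 0) (h0 : ⟪u, B₀⟫ = 0)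
    (h1 : ⟪u, B₁⟫ = 0) (α β γ δ : ℝ) :
    ⟪(α • B₀ + γ • B₁) * star u * (β • B₀ + δ • B₁), g⟫
      = (α * δ - β * γ) * ⟪B₀ * star u * B₁, g⟫ := by
  have e00 := sandwich hu h0 h0
  have e11 := sandwich hu h1 h1
  have e01 := sandwich hu h0 h1
  have hg' : ⟪u, g⟫ = 0 := by rw [real_inner_comm]; exact hg
  have f00 : ⟪B₀ * star u * B₀, g⟫ = 0 := by
    have h2 : (2:ℝ) • (B₀ * star u * B₀) = -((2 * ⟪B₀, B₀⟫) • u) := by rw [two_smul]; exact e00
    have h3 := congrArg (fun q => ⟪q, g⟫) h2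
    simp only [real_inner_smul_left, inner_neg_left, hg', mul_zero, neg_zero] at h3
    linarith
  have f11 : ⟪B₁ * star u * B₁, g⟫ = 0 := by
    have h2 : (2:ℝ) • (B₁ * star u * B₁) = -((2 * ⟪B₁, B₁⟫) • u) := by rw [two_smul]; exact e11
    have h3 := congrArg (fun q => ⟪q, g⟫) h2
    simp only [real_inner_smul_left, inner_neg_left, hg', mul_zero, neg_zero] at h3
    linarith
  have f10 : ⟪B₁ * star u * B₀, g⟫ = -⟪B₀ * star u * B₁, g⟫ := by
    have h3 := congrArg (fun q => ⟪q, g⟫) e01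
    simp only [inner_add_left, real_inner_smul_left, inner_neg_left, hg', mul_zero,
      neg_zero] at h3
    linarith
  have hexp : (α • B₀ + γ • B₁) * star u * (β • B₀ + δ • B₁)
      = (α * β) • (B₀ * star u * B₀) + (α * δ) • (B₀ * star u * B₁)
        + (γ * β) • (B₁ * star u * B₀) + (γ * δ) • (B₁ * star u * B₁) := by
    simp only [add_mul, mul_add, smul_mul_assoc, mul_smul_comm]
    module
  rw [hexp]
  simp only [inner_add_left, real_inner_smul_left, f00, f11, f10]
  ring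

end Pool.Agent.LibFlatS3
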