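import Pool.Agent.LibFlatS3.Orient

set_option autoImplicit false

open scoped RealInnerProductSpace Quaternion
open Topology Filter

namespace Pool.Agent.LibFlatS3

attribute [local instance] starModuleH

variable {F : Type} [TopologicalSpace F] {r : F → E4}

/-- Restriction of a chart composed with a linear change of variables. -/
theorem IsChart.restrict_comp {U : Set E2} {ψ : E2 → F} (h : IsChart r U ψ) {U' : Set E2}
    (hU' : IsOpen U') (hsub : U' ⊆ U) {y : E2} (hy : y ∈ U') (ρ : E2 ≃L[ℝ] E2) :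
    IsChart r (ρ ⁻¹' U') (ψ ∘ ρ) := by
  obtain ⟨inv, h1, h2, h3, h4, h5⟩ := h.exists_inverse (hsub hy)
  have hρ : Continuous ρ := ρ.continuous
  have hopen : IsOpen (ρ ⁻¹' U') := hU'.preimage hρ
  have hcd : ∀ x ∈ ρ ⁻¹' U', HasFDerivAt (r ∘ (ψ ∘ ρ))
      ((fderiv ℝ (r ∘ ψ) (ρ x)).comp (ρ : E2 →L[ℝ] E2)) x := by
    intro x hx
    exact ((h.contDiffAt (hsub hx)).differentiableAt (by norm_num)).hasFDerivAt.comp x
      ρ.hasFDerivAt
  refine ⟨hopen, ?_, ?_, ?_⟩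
  · refine isOpenEmbedding_of_inverse (O := (ψ '' U) ∩ inv ⁻¹' U') (χ := fun p => ρ.symm (inv p))
      ?_ hopen (h2.isOpen_inter_preimage h3 hU') ?_ ?_ ?_
    · intro x hx
      exact (ContinuousAt.comp (g := ψ) (h.continuousAt (hsub hx))
        hρ.continuousAt).continuousWithinAt
    · exact ρ.symm.continuous.comp_continuousOn (h2.mono Set.inter_subset_left)
    · intro x hx
      have e1 : inv (ψ (ρ x)) = ρ x := h5 _ (hsub hx)
      refine ⟨⟨⟨ρ x, hsub hx, rfl⟩, ?_⟩, ?_⟩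
      · change inv (ψ (ρ x)) ∈ U'
        rw [e1]; exact hx
      · change ρ.symm (inv (ψ (ρ x))) = x
        rw [e1]; simp
    · rintro p ⟨hp1, hp2⟩
      have hp2' : inv p ∈ U' := hp2
      refine ⟨?_, ?_⟩
      · change ρ (ρ.symm (inv p)) ∈ U'
        simpa using hp2'
      · change ψ (ρ (ρ.symm (inv p))) = p
        simpa using (h4 p hp1).2
  · intro x hx
    have e1 : ContDiffAt ℝ 2 ((r ∘ ψ) ∘ ρ) x :=
      ContDiffAt.comp x (h.contDiffAt (hsub hx)) ρ.contDiff.contDiffAt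
    exact e1.contDiffWithinAt
  · intro x hx
    rw [(hcd x hx).fderiv]
    exact (h.imm _ (hsub hx)).comp ρ.injective

theorem fderiv_restrict_comp {U : Set E2} {ψ : E2 → F} (h : IsChart r U ψ) {x : E2}
    (ρ : E2 ≃L[ℝ] E2) (hx : ρ x ∈ U) :
    fderiv ℝ (r ∘ (ψ ∘ ρ)) x = (fderiv ℝ (r ∘ ψ) (ρ x)).comp (ρ : E2 →L[ℝ] E2) := by
  have : HasFDerivAt (r ∘ (ψ ∘ ρ)) ((fderiv ℝ (r ∘ ψ) (ρ x)).comp (ρ : E2 →L[ℝ] E2)) x :=
    ((h.contDiffAt hx).differentiableAt (by norm_num)).hasFDerivAt.comp x ρ.hasFDerivAt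
  exact this.fderiv

/-- The volume of a chart with respect to the vector field `g`. -/
noncomputable def vol (r : F → E4) (g : ℍ[ℝ] → ℍ[ℝ]) (ψ : E2 → F) (x : E2) : ℝ :=
  ⟪Th (fderiv ℝ (r ∘ ψ) x e0) * star (Th (r (ψ x))) * Th (fderiv ℝ (r ∘ ψ) x e1),
    g (Th (r (ψ x)))⟫

theorem inner_tangent (hs : ∀ p, ‖r p‖ = 1) {U : Set E2} {ψ : E2 → F} (h : IsChart r U ψ)
    {x : E2} (hx : x ∈ U) (w : E2) : ⟪Th (r (ψ x)), Th (fderiv ℝ (r ∘ ψ) x w)⟫ = 0 := by
  rw [Th.inner_map_map]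
  have h0 : HasFDerivAt (r ∘ ψ) (fderiv ℝ (r ∘ ψ) x) x :=
    ((h.contDiffAt hx).differentiableAt (by norm_num)).hasFDerivAt
  have h1 := h0.inner ℝ h0
  have h2 : (fun z => ⟪(r ∘ ψ) z, (r ∘ ψ) z⟫) = fun _ => (1:ℝ) := by
    funext z
    rw [real_inner_self_eq_norm_sq, Function.comp, hs]; norm_num
  rw [h2] at h1
  have h3 := h1.unique (hasFDerivAt_const (1:ℝ) x)
  have h4 := congrArg (fun T => T w) h3
  simp only [ContinuousLinearMap.comp_apply, ContinuousLinearMap.prod_apply,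
    fderivInnerCLM_apply, zero_apply] at h4
  have h5 : ⟪fderiv ℝ (r ∘ ψ) x w, (r ∘ ψ) x⟫ = ⟪(r ∘ ψ) x, fderiv ℝ (r ∘ ψ) x w⟫ :=
    real_inner_comm _ _
  change ⟪(r ∘ ψ) x, fderiv ℝ (r ∘ ψ) x w⟫ = 0
  linarith

/-- Change of the volume under a linear change of tangent coordinates. -/
theorem vol_change (hs : ∀ p, ‖r p‖ = 1) {g : ℍ[ℝ] → ℍ[ℝ]} (hg : ∀ q, ⟪g q, q⟫ = 0)
    {V : Set E2} {φ ψ : E2 → F} (h₂ : IsChart r V ψ)
    {x y : E2} (hy : y ∈ V) (hxy : φ x = ψ y) {L : E2 →L[ℝ] E2}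
    (hL : fderiv ℝ (r ∘ φ) x = (fderiv ℝ (r ∘ ψ) y).comp L) :
    vol r g φ x = L.det * vol r g ψ y := by
  have hun : ‖Th (r (ψ y))‖ = 1 := by simp [hs]
  have key : ∀ e : E2, Th (fderiv ℝ (r ∘ φ) x e)
      = (L e) 0 • Th (fderiv ℝ (r ∘ ψ) y e0) + (L e) 1 • Th (fderiv ℝ (r ∘ ψ) y e1) := by
    intro e
    rw [hL, ContinuousLinearMap.comp_apply]
    conv_lhs => rw [E2_decomp (L e)]
    simp only [map_add, map_smul]
  rw [vol, hxy, key e0, key e1,
    vol_alt hun (hg _) (inner_tangent hs h₂ hy e0) (inner_tangent hs h₂ hy e1), det_E2, vol]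

theorem vol_continuousOn {g : ℍ[ℝ] → ℍ[ℝ]} (hg : Continuous g) {U : Set E2} {ψ : E2 → F}
    (h : IsChart r U ψ) : ContinuousOn (vol r g ψ) U := by
  intro x hx
  have h1 : ContinuousAt (fun x => r (ψ x)) x := (h.contDiffAt hx).continuousAt
  have h2 : ContinuousAt (fun x => fderiv ℝ (r ∘ ψ) x) x :=
    ((h.contDiffAt hx).fderiv_right (m := 1) (by norm_num)).continuousAt
  have h3 : ∀ e : E2, ContinuousAt (fun x => Th (fderiv ℝ (r ∘ ψ) x e)) x := fun e =>
    Th.continuous.continuousAt.comp (h2.clm_apply continuousAt_const)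
  have h4 : ContinuousAt (fun x => Th (r (ψ x))) x := Th.continuous.continuousAt.comp h1
  have h5 : ContinuousAt (fun x => g (Th (r (ψ x)))) x := hg.continuousAt.comp h4
  have h6 : ContinuousAt (fun x => star (Th (r (ψ x)))) x := h4.star
  exact ((((h3 e0).mul h6).mul (h3 e1)).inner h5).continuousWithinAt

/-- The volume does not vanish at points where `g` is normal. -/
theorem vol_ne_zero (hs : ∀ p, ‖r p‖ = 1) (hflat : IsLocallyEuclidean r) {g : ℍ[ℝ] → ℍ[ℝ]}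
    (hg : ∀ q, ⟪g q, q⟫ = 0) {p : F} (hn : IsNor r p (g (Th (r p)))) (hne : g (Th (r p)) ≠ 0) :
    ∃ (U : Set E2) (ψ : E2 → F), IsChart r U ψ ∧ ∃ x ∈ U, ψ x = p ∧ vol r g ψ x ≠ 0 := by
  obtain ⟨d⟩ := exists_flatData hs hflat p
  refine ⟨d.U, d.ψ, d.chart, d.x₀, d.sub d.mem, d.eq, ?_⟩
  have hV := (d.mapδ _ d.mem).1
  have hun : ‖Th (r (d.ψ d.x₀))‖ = 1 := by simp [hs]
  set M := fderiv ℝ d.δ d.x₀ with hM
  have hMinj : Function.Injective M := by
    exact (LinearMap.injective_iff_surjective (f := (M : E2 →ₗ[ℝ] E2))).mpr (d.surj _ d.mem)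
  have hMdet := det_ne_zero_of_injective hMinj
  have key : ∀ e : E2, Th (fderiv ℝ (r ∘ d.ψ) d.x₀ e)
      = (M e) 0 • fderiv ℝ d.f (d.δ d.x₀) e0 + (M e) 1 • fderiv ℝ d.f (d.δ d.x₀) e1 := by
    intro e
    rw [d.fderiv_eq d.mem, ← hM]
    conv_lhs => rw [E2_decomp (M e)]
    rw [map_add, map_smul, map_smul]
  have hf : Th (r (d.ψ d.x₀)) = d.f (d.δ d.x₀) := (d.f_δ d.mem).symm
  have t0 : ⟪Th (r (d.ψ d.x₀)), fderiv ℝ d.f (d.δ d.x₀) e0⟫ = 0 := by
    rw [hf]; exact d.imm.inner_pos hV e0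
  have t1 : ⟪Th (r (d.ψ d.x₀)), fderiv ℝ d.f (d.δ d.x₀) e1⟫ = 0 := by
    rw [hf]; exact d.imm.inner_pos hV e1
  rw [vol, key e0, key e1, vol_alt hun (hg _) t0 t1, ← det_E2]
  refine mul_ne_zero hMdet ?_
  rw [hf]
  change ⟪nor d.f (d.δ d.x₀), g (d.f (d.δ d.x₀))⟫ ≠ 0
  have hn' : IsNor r (d.ψ d.x₀) (g (d.f (d.δ d.x₀))) := by
    rw [← hf, d.eq]; exact hn
  have hu := d.nor_unique d.mem hn'
  intro h0
  rw [h0, zero_smul] at hu
  rw [← hf, d.eq] at hu
  exact hne hu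

/-- The reflection as an equivalence. -/
noncomputable def reflE : E2 ≃L[ℝ] E2 :=
  ContinuousLinearEquiv.equivOfInverse refl0 refl0
    (fun v => by have := congrArg (fun T => T v) refl0_refl0; simpa using this)
    (fun v => by have := congrArg (fun T => T v) refl0_refl0; simpa using this)

theorem op_inner {b : Bool} {k : ℍ[ℝ]} (hk : k.re = 0) (q : ℍ[ℝ]) : ⟪op b k q, q⟫ = 0 := by
  cases b
  · simp only [op, Bool.false_eq_true, if_false]
    rw [Quaternion.inner_def, mul_assoc, Quaternion.self_mul_star, Quaternion.mul_coe_eq_smul]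
    simp [hk]
  · simp only [op, if_true]
    rw [Quaternion.inner_def]
    have h3 : ∀ p q : ℍ[ℝ], (p * q).re = (q * p).re := by
      intro p q; simp [Quaternion.re_mul]; ring
    rw [mul_assoc, h3, mul_assoc, Quaternion.star_mul_self, Quaternion.mul_coe_eq_smul]
    simp [hk]

theorem op_re {b : Bool} {k q : ℍ[ℝ]} (hq : ‖q‖ = 1) (h : ⟪op b k q, q⟫ = 0) : k.re = 0 := by
  cases b
  · simp only [op, Bool.false_eq_true, if_false] at h
    rw [Quaternion.inner_def, mul_assoc, Quaternion.self_mul_star, Quaternion.mul_coe_eq_smul,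
      Quaternion.normSq_eq_norm_mul_self, hq] at h
    simpa using h
  · simp only [op, if_true] at h
    rw [Quaternion.inner_def] at h
    have h3 : ∀ p q : ℍ[ℝ], (p * q).re = (q * p).re := by
      intro p q; simp [Quaternion.re_mul]; ring
    rw [mul_assoc, h3, mul_assoc, Quaternion.star_mul_self, Quaternion.mul_coe_eq_smul,
      Quaternion.normSq_eq_norm_mul_self, hq] at h
    simpa using h

/-- The main local statement: a closed asymptotic line has an orientable neighbourhood. -/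
theorem orientable_near_asymptotic (hs : ∀ p, ‖r p‖ = 1) (hflat : IsLocallyEuclidean r)
    {c : ℝ → F} (hc : Continuous c) (hc1 : ContDiff ℝ 1 (r ∘ c))
    (hasy : ∀ s, IsAsymptoticVector r (c s) (deriv (r ∘ c) s)) :
    IsOrientableNear r (Set.range c) := by
  obtain ⟨b, k, hk, hnor⟩ := global_claim hs hflat hc hc1 hasy
  let g : ℍ[ℝ] → ℍ[ℝ] := op b k
  have hun : ∀ p, ‖Th (r p)‖ = 1 := fun p => by simp [hs]
  have hre : k.re = 0 := op_re (hun (c 0)) (hnor 0).1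
  have hg : ∀ q, ⟪g q, q⟫ = 0 := fun q => op_inner hre q
  have hgc : Continuous g := op_continuous b k
  have hgne : ∀ p, g (Th (r p)) ≠ 0 := by
    intro p h
    have := norm_op b k (Th (r p))
    change ‖g (Th (r p))‖ = _ at this
    rw [h, norm_zero, hun, mul_one] at this
    exact hk (norm_eq_zero.mp this.symm)
  refine ⟨{a | IsChart r a.1 a.2 ∧ ∀ x ∈ a.1, 0 < vol r g a.2 x}, fun a ha => ha.1, ?_, ?_⟩
  · rintro p ⟨s, rfl⟩
    obtain ⟨U, ψ, hch, x, hx, hxp, hvol⟩ := vol_ne_zero hs hflat hg (hnor s) (hgne (c s))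
    rcases lt_or_gt_of_ne hvol with hneg | hpos
    · -- negative: reflect
      have hopen : IsOpen (U ∩ (vol r g ψ) ⁻¹' Set.Iio 0) :=
        (vol_continuousOn hgc hch).isOpen_inter_preimage hch.isOpen isOpen_Iio
      have hxU : x ∈ U ∩ (vol r g ψ) ⁻¹' Set.Iio 0 := ⟨hx, hneg⟩
      have hch' := hch.restrict_comp hopen Set.inter_subset_left hxU reflE
      refine ⟨(reflE ⁻¹' (U ∩ (vol r g ψ) ⁻¹' Set.Iio 0), ψ ∘ reflE), ⟨hch', ?_⟩,
        reflE.symm x, ?_, ?_⟩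
      · intro z hz
        have hzU : reflE z ∈ U := hz.1
        have hzn : vol r g ψ (reflE z) < 0 := hz.2
        have h1 := fderiv_restrict_comp hch reflE hzU
        have h2 : vol r g (ψ ∘ reflE) z = (reflE : E2 →L[ℝ] E2).det * vol r g ψ (reflE z) :=
          vol_change (φ := ψ ∘ reflE) (x := z) (y := reflE z) hs hg hch hzU rfl h1
        have h3 : (reflE : E2 →L[ℝ] E2).det = -1 := refl0_det
        change 0 < vol r g (ψ ∘ reflE) z
        rw [h2, h3]; linarith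
      · change reflE (reflE.symm x) ∈ U ∩ (vol r g ψ) ⁻¹' Set.Iio 0
        rw [ContinuousLinearEquiv.apply_symm_apply]; exact hxU
      · change ψ (reflE (reflE.symm x)) = c s
        rw [ContinuousLinearEquiv.apply_symm_apply]; exact hxp
    · have hopen : IsOpen (U ∩ (vol r g ψ) ⁻¹' Set.Ioi 0) :=
        (vol_continuousOn hgc hch).isOpen_inter_preimage hch.isOpen isOpen_Ioi
      have hxU : x ∈ U ∩ (vol r g ψ) ⁻¹' Set.Ioi 0 := ⟨hx, hpos⟩
      have hch' := hch.restrict_comp hopen Set.inter_subset_left hxU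
        (ContinuousLinearEquiv.refl ℝ E2)
      refine ⟨(_, _), ⟨hch', ?_⟩, x, hxU, hxp⟩
      intro z hz
      exact hz.2
  · rintro ⟨U, φ⟩ ⟨hU, hUv⟩ ⟨V, ψ⟩ ⟨hV, hVv⟩ x hx y hy hxy
    obtain ⟨L, hL, hLinj⟩ := hU.transition hV hx hy hxy
    refine ⟨L, hL, ?_⟩
    have h1 := vol_change hs hg hV hy hxy hL
    have h2 := hUv x hx
    have h3 := hVv y hy
    simp only at h1 h2 h3
    rw [h1] at h2
    exact pos_of_mul_pos_left h2 h3.le

end Pool.Agent.LibFlatS3
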