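import Pool.Agent.LibFlatS3.Surface

set_option autoImplicit false

open scoped RealInnerProductSpace
open Topology Filter

namespace Pool.Agent.LibFlatS3

/-- The domain of the stereographic coordinate. -/
def D : Set E4 := {q | q 0 ^ 2 + q 1 ^ 2 ≠ 0}

theorem cont4 (i : Fin 4) : Continuous (fun q : E4 => q i) :=
  (EuclideanSpace.proj i : E4 →L[ℝ] ℝ).continuous

theorem isOpen_D : IsOpen D := by
  have h : Continuous (fun q : E4 => q 0 ^ 2 + q 1 ^ 2) :=
    ((cont4 0).pow 2).add ((cont4 1).pow 2)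
  exact isOpen_ne_fun h continuous_const

theorem X_continuousOn : ContinuousOn X D := by
  unfold X
  exact ContinuousOn.div
    ((((cont4 2).mul (cont4 0)).add ((cont4 3).mul (cont4 1))).continuousOn)
    ((((cont4 0).pow 2).add ((cont4 1).pow 2)).continuousOn) (fun q hq => hq)

theorem Y_continuousOn : ContinuousOn Y D := by
  unfold Y
  exact ContinuousOn.div
    ((((cont4 3).mul (cont4 0)).sub ((cont4 2).mul (cont4 1))).continuousOn)
    ((((cont4 0).pow 2).add ((cont4 1).pow 2)).continuousOn) (fun q hq => hq)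

theorem tube_mem_D (x : E2) : tube P x ∈ D := by
  have hn := nn_pos (x 0)
  have hcs := Real.sin_sq_add_cos_sq (x 1)
  have hden : tube P x 0 ^ 2 + tube P x 1 ^ 2 = nn (x 0) ^ 2 := by
    rw [tube_zero, tube_one]; linear_combination (nn (x 0) ^ 2) * hcs
  change tube P x 0 ^ 2 + tube P x 1 ^ 2 ≠ 0
  rw [hden]
  positivity

theorem isOpen_lt_on {f g : E4 → ℝ} (hf : ContinuousOn f D) (hg : ContinuousOn g D) :
    IsOpen (D ∩ {q | f q < g q}) := by
  have h := (hg.sub hf).isOpen_inter_preimage isOpen_D (isOpen_Ioi (a := (0:ℝ)))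
  have e : D ∩ {q | f q < g q} = D ∩ (fun q => g q - f q) ⁻¹' Set.Ioi 0 := by
    ext q
    simp [sub_pos]
  rw [e]
  exact h

/-- The open set cutting out the part `σ t > 0` of the surface. -/
def Os (σ : ℝ) : Set E4 :=
  ((D ∩ {q | X q < 0}) ∪ (D ∩ {q | 0 < σ * Y q})) ∪
    ((D ∩ {q | 0 < σ * q 1}) ∩ (D ∩ {q | X q * q 0 < √(1 - X q) * (3 + X q) * (σ * q 1)}))

theorem isOpen_Os (σ : ℝ) : IsOpen (Os σ) := by
  have hX := X_continuousOn
  have hY := Y_continuousOn
  have h0 : ContinuousOn (fun q : E4 => q 0) D := (cont4 0).continuousOn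
  have h1 : ContinuousOn (fun q : E4 => q 1) D := (cont4 1).continuousOn
  have hc : ContinuousOn (fun _ : E4 => (0:ℝ)) D := continuousOn_const
  refine IsOpen.union (IsOpen.union (isOpen_lt_on hX hc) (isOpen_lt_on hc
    (continuousOn_const.mul hY))) (IsOpen.inter (isOpen_lt_on hc (continuousOn_const.mul h1))
      (isOpen_lt_on (hX.mul h0) ?_))
  exact (((continuousOn_const.sub hX).sqrt).mul (continuousOn_const.add hX)).mul
    (continuousOn_const.mul h1)

theorem one_sub_cx (t : ℝ) : 1 - cx t = t ^ 2 := by simp [cx]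

theorem three_add_cx (t : ℝ) : 3 + cx t = 4 - t ^ 2 := by simp [cx]; ring

theorem cy_eq (t : ℝ) : cy t = t * tp 3 (1 - t ^ 2) := rfl

theorem tp_pos {u : ℝ} (hu : 0 < u) : 0 < tp 3 u := by
  unfold tp; rw [max_eq_right hu.le]; positivity

theorem tp_nonneg (u : ℝ) : 0 ≤ tp 3 u := by
  unfold tp; positivity

theorem tube_neg (x : E2) (h : 1 ≤ (x 0) ^ 2) : tube P (!₂[-(x 0), x 1] : E2) = tube P x := by
  simp [tube, P_neg h]

theorem Os_a {σ : ℝ} (hσ : σ = 1 ∨ σ = -1) {x : E2} (hx : x ∈ Om) (ht : 0 < σ * x 0) :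
    tube P x ∈ Os σ := by
  have hD := tube_mem_D x
  have hn := nn_pos (x 0)
  have hσ2 : σ * σ = 1 := by rcases hσ with h | h <;> rw [h] <;> norm_num
  rcases lt_trichotomy ((x 0) ^ 2) 1 with h | h | h
  · refine Or.inl (Or.inr ⟨hD, ?_⟩)
    change 0 < σ * Y (tube P x)
    rw [Y_tube, cy_eq]
    have := tp_pos (u := 1 - (x 0) ^ 2) (by linarith)
    have h2 : σ * (x 0 * tp 3 (1 - (x 0) ^ 2)) = (σ * x 0) * tp 3 (1 - (x 0) ^ 2) := by ring
    rw [h2]
    exact mul_pos ht this
  · have hph : 0 < phase (x 0) (Real.cos (x 1)) (Real.sin (x 1)) := by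
      rcases hx with h' | h'
      · linarith
      · exact h'
    have hph2 : 0 < x 0 * Real.sin (x 1) := by
      unfold phase at hph
      rw [h] at hph
      nlinarith
    have hs : 0 < σ * Real.sin (x 1) := by
      have h3 : (σ * x 0) * (σ * Real.sin (x 1)) = x 0 * Real.sin (x 1) := by
        have : (σ * x 0) * (σ * Real.sin (x 1)) = (σ * σ) * (x 0 * Real.sin (x 1)) := by ring
        rw [this, hσ2, one_mul]
      by_contra hneg
      push Not at hneg
      nlinarith
    have hcx : cx (x 0) = 0 := by simp [cx, h]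
    have hs1 : 0 < σ * tube P x 1 := by
      rw [tube_one]
      have : σ * (nn (x 0) * Real.sin (x 1)) = nn (x 0) * (σ * Real.sin (x 1)) := by ring
      rw [this]; exact mul_pos hn hs
    refine Or.inr ⟨⟨hD, hs1⟩, hD, ?_⟩
    change X (tube P x) * tube P x 0
      < √(1 - X (tube P x)) * (3 + X (tube P x)) * (σ * tube P x 1)
    rw [X_tube, hcx]
    simp only [sub_zero, Real.sqrt_one, zero_mul, add_zero, one_mul]
    linarith
  · refine Or.inl (Or.inl ⟨hD, ?_⟩)
    change X (tube P x) < 0
    rw [X_tube, cx]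
    linarith

theorem Os_b {σ : ℝ} (hσ : σ = 1 ∨ σ = -1) {x : E2} (hx : x ∈ Om) (hO : tube P x ∈ Os σ) :
    ∃ t' ∈ {t : ℝ | 0 < σ * t}, (!₂[t', x 1] : E2) ∈ Om ∧
      tube P (!₂[t', x 1] : E2) = tube P x := by
  have hn := nn_pos (x 0)
  have hσ2 : σ * σ = 1 := by rcases hσ with h | h <;> rw [h] <;> norm_num
  by_cases ht : 0 < σ * x 0
  · refine ⟨x 0, ht, ?_, ?_⟩
    · rw [phase_congr (x := x) rfl rfl rfl]; exact hx
    · exact tube_congr rfl rfl rfl
  · push Not at ht
    by_cases h : 1 < (x 0) ^ 2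
    · refine ⟨-(x 0), ?_, ?_, tube_neg x h.le⟩
      · change 0 < σ * (-(x 0))
        have hne : σ * x 0 ≠ 0 := by
          intro h0
          rcases mul_eq_zero.mp h0 with h1 | h1
          · rw [h1] at hσ2; norm_num at hσ2
          · rw [h1] at h; norm_num at h
        have : σ * x 0 < 0 := lt_of_le_of_ne ht hne
        linarith
      · left; simpa using h
    · exfalso
      push Not at h
      have hph : 0 < phase (x 0) (Real.cos (x 1)) (Real.sin (x 1)) := by
        rcases hx with h' | h'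
        · linarith
        · exact h'
      rcases hO with (⟨_, hX⟩ | ⟨_, hY⟩) | ⟨⟨_, hs⟩, _, hl⟩
      · change X (tube P x) < 0 at hX
        rw [X_tube, cx] at hX
        linarith
      · change 0 < σ * Y (tube P x) at hY
        rw [Y_tube, cy_eq] at hY
        have h2 : σ * (x 0 * tp 3 (1 - (x 0) ^ 2)) = (σ * x 0) * tp 3 (1 - (x 0) ^ 2) := by
          ring
        rw [h2] at hY
        nlinarith [tp_nonneg (1 - (x 0) ^ 2)]
      · change X (tube P x) * tube P x 0
          < √(1 - X (tube P x)) * (3 + X (tube P x)) * (σ * tube P x 1) at hl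
        rw [X_tube, one_sub_cx, three_add_cx, Real.sqrt_sq_eq_abs] at hl
        have habs : |x 0| = -(σ * x 0) := by
          rcases hσ with h3 | h3
          · subst h3; rw [abs_of_nonpos (by linarith)]; ring
          · subst h3; rw [abs_of_nonneg (by linarith)]; ring
        rw [habs, tube_zero, tube_one] at hl
        have e1 : -(σ * x 0) * (4 - x 0 ^ 2) * (σ * (nn (x 0) * Real.sin (x 1)))
            = -(σ * σ) * (nn (x 0) * (x 0 * (4 - x 0 ^ 2) * Real.sin (x 1))) := by ring
        rw [e1, hσ2] at hl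
        have e2 : 0 < nn (x 0) * phase (x 0) (Real.cos (x 1)) (Real.sin (x 1)) :=
          mul_pos hn hph
        unfold phase at e2
        rw [cx] at hl
        nlinarith

theorem Os_c {σ : ℝ} (hσ : σ = 1 ∨ σ = -1) {x : E2} (ht : 0 < σ * x 0) :
    σ * √(1 - X (tube P x)) = x 0 := by
  rw [X_tube, one_sub_cx, Real.sqrt_sq_eq_abs]
  rcases hσ with h3 | h3
  · subst h3; rw [abs_of_nonneg (by linarith)]; ring
  · subst h3; rw [abs_of_nonpos (by linarith)]; ring

/-- The charts over the region `σ t > 0`. -/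
theorem chart_sign {σ : ℝ} (hσ : σ = 1 ∨ σ = -1) (θ₀ : ℝ) :
    IsChart (Subtype.val : M → E4)
      {x | x ∈ Om ∧ x 0 ∈ {t : ℝ | 0 < σ * t} ∧ |x 1 - θ₀| < Real.pi} par := by
  refine chart_of_region _ ?_ (Os σ) (isOpen_Os σ) (fun q => σ * √(1 - X q)) ?_
    (fun x hx ht => Os_a hσ hx ht) (fun x hx hO => Os_b hσ hx hO) (fun x _ ht => Os_c hσ ht) θ₀
  · exact isOpen_lt continuous_const (by fun_prop)
  · refine (continuousOn_const.mul (continuousOn_const.sub X_continuousOn).sqrt).mono ?_
    rintro q ((⟨h, _⟩ | ⟨h, _⟩) | ⟨⟨h, _⟩, _, _⟩) <;> exact h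

/-- The charts over the region `|t| < 1`. -/
theorem chart_zero (θ₀ : ℝ) :
    IsChart (Subtype.val : M → E4)
      {x | x ∈ Om ∧ x 0 ∈ {t : ℝ | t ^ 2 < 1} ∧ |x 1 - θ₀| < Real.pi} par := by
  refine chart_of_region _ ?_ (D ∩ {q | 0 < X q}) (isOpen_lt_on continuousOn_const X_continuousOn)
    (fun q => Y q / (X q) ^ 3) ?_ ?_ ?_ ?_ θ₀
  · exact isOpen_lt (by fun_prop) continuous_const
  · refine ContinuousOn.div (Y_continuousOn.mono Set.inter_subset_left)
      ((X_continuousOn.mono Set.inter_subset_left).pow 3) ?_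
    rintro q ⟨_, h⟩
    exact (pow_pos h 3).ne'
  · intro x hx ht
    change (x 0) ^ 2 < 1 at ht
    refine ⟨tube_mem_D x, ?_⟩
    change 0 < X (tube P x)
    rw [X_tube, cx]; linarith
  · rintro x hx ⟨_, h⟩
    change 0 < X (tube P x) at h
    rw [X_tube, cx] at h
    refine ⟨x 0, by change (x 0) ^ 2 < 1; linarith, ?_, tube_congr rfl rfl rfl⟩
    rw [phase_congr (x := x) rfl rfl rfl]; exact hx
  · intro x hx ht
    change (x 0) ^ 2 < 1 at ht
    change Y (tube P x) / (X (tube P x)) ^ 3 = x 0
    rw [X_tube, Y_tube, cy_eq, cx, tp, max_eq_right (by linarith)]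
    have : (1 - x 0 ^ 2) ^ 3 ≠ 0 := (pow_pos (by linarith) 3).ne'
    rw [mul_div_assoc, div_self this, mul_one]

/-- Every parameter value lies in a chart domain. -/
theorem exists_chart {x : E2} (hx : x ∈ Om) : ∃ U : Set E2, U ⊆ Om ∧ x ∈ U ∧
    IsChart (Subtype.val : M → E4) U par := by
  rcases lt_trichotomy (x 0) 0 with h | h | h
  · refine ⟨_, ?_, ?_, chart_sign (σ := -1) (Or.inr rfl) (x 1)⟩
    · exact fun y hy => hy.1
    · exact ⟨hx, by change 0 < (-1:ℝ) * x 0; linarith, by simpa using Real.pi_pos⟩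
  · refine ⟨_, ?_, ?_, chart_zero (x 1)⟩
    · exact fun y hy => hy.1
    · exact ⟨hx, by change (x 0) ^ 2 < 1; rw [h]; norm_num, by simpa using Real.pi_pos⟩
  · refine ⟨_, ?_, ?_, chart_sign (σ := 1) (Or.inl rfl) (x 1)⟩
    · exact fun y hy => hy.1
    · exact ⟨hx, by change 0 < (1:ℝ) * x 0; linarith, by simpa using Real.pi_pos⟩

/-- A centre line of the parameter domain. -/
noncomputable def line (t : ℝ) : E2 := !₂[t, Real.pi / 2 * t]

theorem line_mem (t : ℝ) : line t ∈ Om := by
  by_cases h : 1 < t ^ 2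
  · left; simpa [line] using h
  · right
    push Not at h
    have habs : |t| ≤ 1 := by
      rw [← sq_le_one_iff_abs_le_one]; exact h
    rw [abs_le] at habs
    have hpi := Real.pi_pos
    have hcos : 0 ≤ Real.cos (Real.pi / 2 * t) := by
      apply Real.cos_nonneg_of_neg_pi_div_two_le_of_le <;> nlinarith
    have h4 : 0 < 4 - t ^ 2 := by linarith
    change 0 < phase t (Real.cos (Real.pi / 2 * t)) (Real.sin (Real.pi / 2 * t))
    unfold phase
    rcases lt_trichotomy t 0 with ht | ht | ht
    · have hs : Real.sin (Real.pi / 2 * t) < 0 := by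
        apply Real.sin_neg_of_neg_of_neg_pi_lt <;> nlinarith
      have h5 : 0 < t * (4 - t ^ 2) * Real.sin (Real.pi / 2 * t) := by
        have : t * (4 - t ^ 2) * Real.sin (Real.pi / 2 * t)
          = (-t) * (4 - t ^ 2) * (-Real.sin (Real.pi / 2 * t)) := by ring
        rw [this]
        exact mul_pos (mul_pos (by linarith) h4) (by linarith)
      have h6 : 0 ≤ (1 - t ^ 2) * Real.cos (Real.pi / 2 * t) := mul_nonneg (by linarith) hcos
      linarith
    · subst ht; simp
    · have hs : 0 < Real.sin (Real.pi / 2 * t) := by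
        apply Real.sin_pos_of_pos_of_lt_pi <;> nlinarith
      have h5 : 0 < t * (4 - t ^ 2) * Real.sin (Real.pi / 2 * t) :=
        mul_pos (mul_pos ht h4) hs
      have h6 : 0 ≤ (1 - t ^ 2) * Real.cos (Real.pi / 2 * t) := mul_nonneg (by linarith) hcos
      linarith

/-- A second parametrization of `M`, by a nonzero complex number in place of the angle. -/
noncomputable def Psi (p : ℝ × ℂ) : E4 :=
  (p.2.re / ‖p.2‖) • P p.1 + (p.2.im / ‖p.2‖) • J (P p.1)

/-- The domain of `Psi`. -/
def Omc : Set (ℝ × ℂ) := {p | p.2 ≠ 0 ∧ (1 < p.1 ^ 2 ∨ 0 < phase p.1 p.2.re p.2.im)}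

theorem Psi_continuousOn : ContinuousOn Psi Omc := by
  have hP : Continuous P := P_contDiff.continuous
  unfold Psi
  have hn : ∀ p ∈ Omc, ‖p.2‖ ≠ 0 := fun p hp => norm_ne_zero_iff.mpr hp.1
  have hre : Continuous (fun p : ℝ × ℂ => p.2.re) := Complex.continuous_re.comp continuous_snd
  have him : Continuous (fun p : ℝ × ℂ => p.2.im) := Complex.continuous_im.comp continuous_snd
  have hno : Continuous (fun p : ℝ × ℂ => ‖p.2‖) := continuous_norm.comp continuous_snd
  exact ((hre.continuousOn.div hno.continuousOn hn).smul (hP.comp continuous_fst).continuousOn).add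
    ((him.continuousOn.div hno.continuousOn hn).smul
      (J.continuous.comp (hP.comp continuous_fst)).continuousOn)

theorem Psi_eq (t θ : ℝ) : Psi (t, ⟨Real.cos θ, Real.sin θ⟩) = tube P !₂[t, θ] := by
  have h1 : ‖(⟨Real.cos θ, Real.sin θ⟩ : ℂ)‖ = 1 := by
    rw [Complex.norm_eq_sqrt_sq_add_sq]
    simp [Real.cos_sq_add_sin_sq]
  simp [Psi, tube, rot, h1]

theorem M_eq : M = Psi '' Omc := by
  ext q
  constructor
  · rintro ⟨x, hx, rfl⟩
    refine ⟨(x 0, ⟨Real.cos (x 1), Real.sin (x 1)⟩), ⟨?_, hx⟩, ?_⟩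
    · intro h
      have h1 := congrArg Complex.re h
      have h2 := congrArg Complex.im h
      simp at h1 h2
      have := Real.sin_sq_add_cos_sq (x 1)
      rw [h1, h2] at this
      norm_num at this
    · rw [Psi_eq]
      exact tube_congr rfl rfl rfl
  · rintro ⟨⟨t, z⟩, ⟨hz, hp⟩, rfl⟩
    change z ≠ 0 at hz
    have hn : 0 < ‖z‖ := norm_pos_iff.mpr hz
    have hre : z.re = ‖z‖ * Real.cos (Complex.arg z) := by
      rw [Complex.norm_mul_cos_arg]
    have him : z.im = ‖z‖ * Real.sin (Complex.arg z) := by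
      rw [Complex.norm_mul_sin_arg]
    refine ⟨!₂[t, Complex.arg z], ?_, ?_⟩
    · rcases hp with h | h
      · left; simpa using h
      · right
        change 0 < phase t z.re z.im at h
        have : phase t z.re z.im
            = ‖z‖ * phase t (Real.cos (Complex.arg z)) (Real.sin (Complex.arg z)) := by
          rw [phase, phase, hre, him]
          simp only [← him, ← hre]
          rw [hre, him]; ring
        rw [this] at h
        exact pos_of_mul_pos_right h hn.le
    · have h1 : z.re / ‖z‖ = Real.cos (Complex.arg z) := by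
        rw [div_eq_iff hn.ne', mul_comm]; exact hre
      have h2 : z.im / ‖z‖ = Real.sin (Complex.arg z) := by
        rw [div_eq_iff hn.ne', mul_comm]; exact him
      simp [Psi, tube, rot, h1, h2]

theorem Omc_preconnected : IsPreconnected Omc := by
  let sec : ℝ → ℝ × ℂ := fun t => (t, ⟨Real.cos (Real.pi / 2 * t), Real.sin (Real.pi / 2 * t)⟩)
  have hsec : Continuous sec := by
    have : sec = fun t => (t, ((Real.cos (Real.pi / 2 * t) : ℝ) : ℂ)
        + ((Real.sin (Real.pi / 2 * t) : ℝ) : ℂ) * Complex.I) := by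
      funext t
      simp only [sec, Prod.mk.injEq, true_and]
      apply Complex.ext <;> simp [-Complex.ofReal_cos, -Complex.ofReal_sin]
    rw [this]
    fun_prop
  have hsecmem : ∀ t, sec t ∈ Omc := by
    intro t
    refine ⟨?_, line_mem t⟩
    intro h
    have h1 := congrArg Complex.re h
    have h2 := congrArg Complex.im h
    simp [sec] at h1 h2
    have := Real.sin_sq_add_cos_sq (Real.pi / 2 * t)
    rw [h1, h2] at this
    norm_num at this
  have hline : IsPreconnected (Set.range sec) := isPreconnected_range hsec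
  refine isPreconnected_of_forall (sec 0) ?_
  rintro ⟨t, z⟩ hz
  let S : Set (ℝ × ℂ) := {p | p ∈ Omc ∧ p.1 = t}
  have hS : IsPreconnected S := by
    let SC : Set ℂ := {w | w ≠ 0 ∧ (1 < t ^ 2 ∨ 0 < phase t w.re w.im)}
    have himg : S = (fun w : ℂ => (t, w)) '' SC := by
      ext ⟨s, w⟩
      constructor
      · rintro ⟨h1, h2⟩
        change s = t at h2
        subst h2
        exact ⟨w, h1, rfl⟩
      · rintro ⟨w', h1, h2⟩
        simp only [Prod.mk.injEq] at h2
        obtain ⟨rfl, rfl⟩ := h2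
        exact ⟨h1, rfl⟩
    rw [himg]
    refine IsPreconnected.image ?_ _ (by fun_prop)
    by_cases h : 1 < t ^ 2
    · have : SC = {0}ᶜ := by
        ext w; simp [SC, h]
      rw [this]
      exact (isConnected_compl_singleton_of_one_lt_rank
        (by rw [Complex.rank_real_complex]; norm_num) 0).isPreconnected
    · have : SC = {w | 0 < phase t w.re w.im} := by
        ext w
        constructor
        · rintro ⟨_, h1 | h1⟩
          · exact absurd h1 h
          · exact h1
        · intro h1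
          refine ⟨?_, Or.inr h1⟩
          rintro rfl
          change 0 < phase t (0:ℂ).re (0:ℂ).im at h1
          simp [phase] at h1
      rw [this]
      apply Convex.isPreconnected
      intro a ha b hb α β hα hβ hαβ
      change 0 < phase t a.re a.im at ha
      change 0 < phase t b.re b.im at hb
      change 0 < phase t (α • a + β • b).re (α • a + β • b).im
      have : phase t (α • a + β • b).re (α • a + β • b).im
          = α * phase t a.re a.im + β * phase t b.re b.im := by
        simp [phase]; ring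
      rw [this]
      rcases hα.eq_or_lt with h0 | h0
      · subst h0
        have : β = 1 := by linarith
        subst this; simpa using hb
      · have := mul_pos h0 ha
        have := mul_nonneg hβ hb.le
        linarith
  refine ⟨S ∪ Set.range sec, ?_, Or.inr ⟨0, rfl⟩, Or.inl ⟨hz, rfl⟩, ?_⟩
  · rintro p (hp | ⟨s, rfl⟩)
    · exact hp.1
    · exact hsecmem s
  · exact IsPreconnected.union (sec t) ⟨hsecmem t, rfl⟩ ⟨t, rfl⟩ hS hline

theorem M_preconnected : IsPreconnected M := by
  rw [M_eq]
  exact Omc_preconnected.image _ Psi_continuousOn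

theorem norm_of_mem_M {q : E4} (hq : q ∈ M) : ‖q‖ = 1 := by
  obtain ⟨x, _, rfl⟩ := hq
  rw [tube, norm_rot, norm_P]

theorem isSurface_M : IsSurface (Subtype.val : M → E4) where
  t2 := inferInstance
  secondCountable := inferInstance
  connected := by
    have h1 : PreconnectedSpace M := isPreconnected_iff_preconnectedSpace.mp M_preconnected
    exact { toPreconnectedSpace := h1, toNonempty := ⟨par 0⟩ }
  sphere := fun p => norm_of_mem_M p.2
  charts := by
    rintro ⟨q, x, hx, rfl⟩
    obtain ⟨U, _, hxU, hch⟩ := exists_chart hx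
    exact ⟨U, par, hch, x, hxU, Subtype.ext (par_val hx)⟩

theorem par_fderiv {x : E2} (hx : x ∈ Om) :
    fderiv ℝ ((Subtype.val : M → E4) ∘ par) x = fderiv ℝ (tube P) x := by
  apply Filter.EventuallyEq.fderiv_eq
  filter_upwards [isOpen_Om.mem_nhds hx] with y hy
  exact par_val hy

theorem locallyEuclidean_M : IsLocallyEuclidean (Subtype.val : M → E4) := by
  rintro ⟨q, x, hx, rfl⟩
  obtain ⟨U, hUO, hxU, hch⟩ := exists_chart hx
  refine ⟨U, par, hch, ⟨x, hxU, Subtype.ext (par_val hx)⟩, dev P,
    (dev_contDiff P_contDiff hor_P_ne_zero).contDiffOn, ?_⟩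
  intro y hy w
  rw [par_fderiv (hUO hy)]
  exact dev_isometric P_contDiff norm_P hor_P_ne_zero y w

end Pool.Agent.LibFlatS3
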