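import Pool.Agent.LibFlatS3.Basic

set_option autoImplicit false

open scoped RealInnerProductSpace
open Topology Filter

namespace Pool.Agent.LibFlatS3

/-- A continuous map that composes with an immersion to a differentiable map is differentiable. -/
theorem factor_general {X W : Type} [NormedAddCommGroup X] [NormedSpace ℝ X]
    [NormedAddCommGroup W] [NormedSpace ℝ W] [FiniteDimensional ℝ W]
    {G : E2 → W} {f : X → W} {κ : X → E2} {x : X} {y : E2}
    {G' : E2 →L[ℝ] W} {f' : X →L[ℝ] W}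
    (hG : HasStrictFDerivAt G G' y) (hinj : Function.Injective G')
    (hf : HasFDerivAt f f' x) (hκ : ContinuousAt κ x) (hxy : κ x = y)
    (hGκ : ∀ᶠ x' in 𝓝 x, G (κ x') = f x') :
    ∃ L : X →L[ℝ] E2, HasFDerivAt κ L x ∧ f' = G'.comp L := by
  have hker : (G' : E2 →ₗ[ℝ] W).ker = ⊥ := LinearMap.ker_eq_bot.mpr hinj
  obtain ⟨π₀, hπ₀⟩ := LinearMap.exists_leftInverse_of_injective (G' : E2 →ₗ[ℝ] W) hker
  let π : W →L[ℝ] E2 := LinearMap.toContinuousLinearMap π₀
  have hπ : π.comp G' = ContinuousLinearMap.id ℝ E2 := by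
    ext1 w
    have := congrArg (fun h => h w) hπ₀
    simpa [π] using this
  have hg : HasStrictFDerivAt (fun z => π (G z))
      ((ContinuousLinearEquiv.refl ℝ E2 : E2 ≃L[ℝ] E2) : E2 →L[ℝ] E2) y := by
    have h1 := π.hasStrictFDerivAt.comp y hG
    have h2 : ((ContinuousLinearEquiv.refl ℝ E2 : E2 ≃L[ℝ] E2) : E2 →L[ℝ] E2) = π.comp G' := by
      rw [hπ]; rfl
    rw [h2]
    exact h1
  set inv := HasStrictFDerivAt.localInverse (fun z => π (G z)) _ y hg with hinv
  have hleft := hg.eventually_left_inverse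
  have hinv' : HasStrictFDerivAt inv _ (π (G y)) := hg.to_localInverse
  have hκ' : Tendsto κ (𝓝 x) (𝓝 y) := by rw [← hxy]; exact hκ
  have hev : ∀ᶠ x' in 𝓝 x, κ x' = inv (π (f x')) := by
    filter_upwards [hκ'.eventually hleft, hGκ] with x' h1 h2
    rw [← h2]
    exact h1.symm
  have hfx : G y = f x := by
    have := hGκ.self_of_nhds
    rw [hxy] at this
    exact this
  have hd : HasFDerivAt (fun x' => inv (π (f x')))
      ((((ContinuousLinearEquiv.refl ℝ E2).symm : E2 ≃L[ℝ] E2) : E2 →L[ℝ] E2).comp (π.comp f')) x := by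
    have h1 : HasFDerivAt (fun x' => π (f x')) (π.comp f') x := π.hasFDerivAt.comp x hf
    have h2 := hinv'.hasFDerivAt
    rw [hfx] at h2
    exact h2.comp x h1
  have hκd : HasFDerivAt κ
      ((((ContinuousLinearEquiv.refl ℝ E2).symm : E2 ≃L[ℝ] E2) : E2 →L[ℝ] E2).comp (π.comp f')) x :=
    hd.congr_of_eventuallyEq hev
  refine ⟨_, hκd, ?_⟩
  have h3 : HasFDerivAt (fun x' => G (κ x')) (G'.comp
      ((((ContinuousLinearEquiv.refl ℝ E2).symm : E2 ≃L[ℝ] E2) : E2 →L[ℝ] E2).comp (π.comp f')))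
      x := by
    have := hG.hasFDerivAt
    rw [← hxy] at this
    exact this.comp x hκd
  have h4 : HasFDerivAt (fun x' => G (κ x')) f' x := hf.congr_of_eventuallyEq hGκ
  exact h4.unique h3

theorem factor_through_immersion {G f : E2 → E4} {κ : E2 → E2} {x y : E2}
    {G' : E2 →L[ℝ] E4} {f' : E2 →L[ℝ] E4}
    (hG : HasStrictFDerivAt G G' y) (hinj : Function.Injective G')
    (hf : HasFDerivAt f f' x) (hκ : ContinuousAt κ x) (hxy : κ x = y)
    (hGκ : ∀ᶠ x' in 𝓝 x, G (κ x') = f x') :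
    ∃ L : E2 →L[ℝ] E2, HasFDerivAt κ L x ∧ f' = G'.comp L :=
  factor_general hG hinj hf hκ hxy hGκ

variable {F : Type} [TopologicalSpace F] {r : F → E4}

theorem IsChart.contDiffAt {U : Set E2} {ψ : E2 → F} (h : IsChart r U ψ) {x : E2} (hx : x ∈ U) :
    ContDiffAt ℝ 2 (r ∘ ψ) x :=
  h.smooth.contDiffAt (h.isOpen.mem_nhds hx)

theorem IsChart.hasStrictFDerivAt {U : Set E2} {ψ : E2 → F} (h : IsChart r U ψ) {x : E2}
    (hx : x ∈ U) : HasStrictFDerivAt (r ∘ ψ) (fderiv ℝ (r ∘ ψ) x) x :=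
  (h.contDiffAt hx).hasStrictFDerivAt (by norm_num)

/-- The local inverse of a chart. -/
theorem IsChart.exists_inverse {U : Set E2} {ψ : E2 → F} (h : IsChart r U ψ) {y : E2}
    (hy : y ∈ U) : ∃ inv : F → E2, inv (ψ y) = y ∧ ContinuousOn inv (ψ '' U) ∧
      IsOpen (ψ '' U) ∧ (∀ p ∈ ψ '' U, inv p ∈ U ∧ ψ (inv p) = p) ∧ (∀ x ∈ U, inv (ψ x) = x) := by
  have : Nonempty U := ⟨⟨y, hy⟩⟩
  let e := h.emb.toOpenPartialHomeomorph (U.domRestrict ψ)
  have hrange : Set.range (U.domRestrict ψ) = ψ '' U := by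
    ext p; constructor
    · rintro ⟨z, rfl⟩; exact ⟨z, z.2, rfl⟩
    · rintro ⟨z, hz, rfl⟩; exact ⟨⟨z, hz⟩, rfl⟩
  have htarget : e.target = ψ '' U := by
    rw [← hrange]; exact h.emb.toOpenPartialHomeomorph_target (U.domRestrict ψ)
  have hsource : e.source = Set.univ := h.emb.toOpenPartialHomeomorph_source (U.domRestrict ψ)
  have hleft : ∀ x ∈ U, ((e.symm (ψ x) : U) : E2) = x := by
    intro x hx
    have h1 : e.symm (e ⟨x, hx⟩) = ⟨x, hx⟩ := e.left_inv (by rw [hsource]; trivial)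
    have h2 : e ⟨x, hx⟩ = ψ x := rfl
    rw [h2] at h1
    rw [h1]
  refine ⟨fun p => ((e.symm p : U) : E2), hleft y hy, ?_, ?_, ?_, hleft⟩
  · have h1 : ContinuousOn e.symm e.target := e.continuousOn_symm
    rw [htarget] at h1
    exact continuous_subtype_val.comp_continuousOn h1
  · rw [← hrange]; exact h.emb.isOpen_range
  · rintro p ⟨x, hx, rfl⟩
    have h1 := hleft x hx
    constructor
    · exact (e.symm (ψ x)).2
    · change ψ ((e.symm (ψ x) : U) : E2) = ψ x
      rw [h1]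

theorem IsChart.continuousAt {U : Set E2} {ψ : E2 → F} (h : IsChart r U ψ) {x : E2}
    (hx : x ∈ U) : ContinuousAt ψ x := by
  have h1 : ContinuousOn ψ U := by
    rw [continuousOn_iff_continuous_domRestrict]
    exact h.emb.continuous
  exact h1.continuousAt (h.isOpen.mem_nhds hx)

/-- Any two charts around the same point are related by an invertible linear change of tangent
coordinates. -/
theorem IsChart.transition {U V : Set E2} {φ ψ : E2 → F} (h₁ : IsChart r U φ) (h₂ : IsChart r V ψ)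
    {x y : E2} (hx : x ∈ U) (hy : y ∈ V) (hxy : φ x = ψ y) :
    ∃ L : E2 →L[ℝ] E2, fderiv ℝ (r ∘ φ) x = (fderiv ℝ (r ∘ ψ) y).comp L ∧ Function.Injective L := by
  obtain ⟨inv, hinv1, hinv2, hopen, hinv3, hinv4⟩ := h₂.exists_inverse hy
  have hmem : φ x ∈ ψ '' V := ⟨y, hy, hxy.symm⟩
  have hκ : ContinuousAt (fun z => inv (φ z)) x := by
    have h1 : ContinuousAt inv (φ x) := hinv2.continuousAt (hopen.mem_nhds hmem)
    exact h1.comp (h₁.continuousAt hx)
  have hev : ∀ᶠ z in 𝓝 x, (r ∘ ψ) (inv (φ z)) = (r ∘ φ) z := by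
    have h1 : ∀ᶠ z in 𝓝 x, φ z ∈ ψ '' V := (h₁.continuousAt hx) (hopen.mem_nhds hmem)
    filter_upwards [h1] with z hz
    simp only [Function.comp]
    rw [(hinv3 _ hz).2]
  obtain ⟨L, hL1, hL2⟩ := factor_through_immersion (h₂.hasStrictFDerivAt hy) (h₂.imm y hy)
    (h₁.hasStrictFDerivAt hx).hasFDerivAt hκ (by rw [hxy]; exact hinv1) hev
  refine ⟨L, hL2, ?_⟩
  intro a b hab
  apply h₁.imm x hx
  rw [hL2]
  simp [hab]

end Pool.Agent.LibFlatS3
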