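import Pool.Agent.LibFlatS3.Teardrop
import Pool.Agent.LibFlatS3.Transition

set_option autoImplicit false

open scoped RealInnerProductSpace
open Topology Filter

namespace Pool.Agent.LibFlatS3

theorem isOpenEmbedding_of_inverse {F : Type} [TopologicalSpace F] {U : Set E2}
    {ψ : E2 → F} (hψ : ContinuousOn ψ U) (hU : IsOpen U)
    {O : Set F} (hO : IsOpen O) {χ : F → E2} (hχ : ContinuousOn χ O)
    (h1 : ∀ x ∈ U, ψ x ∈ O ∧ χ (ψ x) = x) (h2 : ∀ p ∈ O, χ p ∈ U ∧ ψ (χ p) = p) :
    IsOpenEmbedding (U.domRestrict ψ) := by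
  refine IsOpenEmbedding.of_continuous_injective_isOpenMap ?_ ?_ ?_
  · rw [← continuousOn_iff_continuous_domRestrict]; exact hψ
  · rintro ⟨x, hx⟩ ⟨y, hy⟩ hxy
    have hxy' : ψ x = ψ y := hxy
    have : x = y := by rw [← (h1 x hx).2, ← (h1 y hy).2, hxy']
    exact Subtype.ext this
  · intro W hW
    obtain ⟨W', hW', rfl⟩ := isOpen_induced_iff.mp hW
    have himg : (U.domRestrict ψ) '' (Subtype.val ⁻¹' W') = O ∩ χ ⁻¹' (U ∩ W') := by
      ext p
      constructor
      · rintro ⟨⟨x, hx⟩, hxW, rfl⟩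
        refine ⟨(h1 x hx).1, ?_⟩
        change χ (ψ x) ∈ U ∩ W'
        rw [(h1 x hx).2]
        exact ⟨hx, hxW⟩
      · rintro ⟨hp, hpU, hpW⟩
        exact ⟨⟨χ p, hpU⟩, hpW, (h2 p hp).2⟩
    rw [himg]
    exact hχ.isOpen_inter_preimage hO (hU.inter hW')

/-- The phase condition. -/
noncomputable def phase (t c s : ℝ) : ℝ := (1 - t ^ 2) * c + t * (4 - t ^ 2) * s

/-- The parameter domain. -/
def Om : Set E2 := {x | 1 < (x 0) ^ 2 ∨ 0 < phase (x 0) (Real.cos (x 1)) (Real.sin (x 1))}

theorem isOpen_Om : IsOpen Om := by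
  have h0 : Continuous (fun x : E2 => x 0) := (EuclideanSpace.proj (0 : Fin 2)).continuous
  have h1 : Continuous (fun x : E2 => x 1) := (EuclideanSpace.proj (1 : Fin 2)).continuous
  have e : Om = {x : E2 | 1 < (x 0) ^ 2} ∪
      {x : E2 | 0 < phase (x 0) (Real.cos (x 1)) (Real.sin (x 1))} := rfl
  rw [e]
  refine IsOpen.union (isOpen_lt continuous_const (by fun_prop)) (isOpen_lt continuous_const ?_)
  unfold phase
  fun_prop

/-- The surface as a subset of the three-sphere. -/
def M : Set E4 := tube P '' Om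

noncomputable def nn (t : ℝ) : ℝ := ‖Q t‖⁻¹

theorem nn_pos (t : ℝ) : 0 < nn t := inv_pos.mpr (norm_pos_iff.mpr (Q_ne_zero t))

theorem tube_zero (x : E2) : tube P x 0 = nn (x 0) * Real.cos (x 1) := by
  simp [tube, rot, P, Q, J_apply, nn]; ring

theorem tube_one (x : E2) : tube P x 1 = nn (x 0) * Real.sin (x 1) := by
  simp [tube, rot, P, Q, J_apply, nn]; ring

theorem tube_two (x : E2) : tube P x 2
    = nn (x 0) * (cx (x 0) * Real.cos (x 1) - cy (x 0) * Real.sin (x 1)) := by
  simp [tube, rot, P, Q, J_apply, nn]; ring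

theorem tube_three (x : E2) : tube P x 3
    = nn (x 0) * (cx (x 0) * Real.sin (x 1) + cy (x 0) * Real.cos (x 1)) := by
  simp [tube, rot, P, Q, J_apply, nn]; ring

/-- The real part of the stereographic coordinate. -/
noncomputable def X (q : E4) : ℝ := (q 2 * q 0 + q 3 * q 1) / (q 0 ^ 2 + q 1 ^ 2)

/-- The imaginary part of the stereographic coordinate. -/
noncomputable def Y (q : E4) : ℝ := (q 3 * q 0 - q 2 * q 1) / (q 0 ^ 2 + q 1 ^ 2)

/-- The first complex coordinate. -/
def zc (q : E4) : ℂ := ⟨q 0, q 1⟩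

theorem X_tube (x : E2) : X (tube P x) = cx (x 0) := by
  have hn := nn_pos (x 0)
  have hcs := Real.sin_sq_add_cos_sq (x 1)
  have hden : tube P x 0 ^ 2 + tube P x 1 ^ 2 = nn (x 0) ^ 2 := by
    rw [tube_zero, tube_one]; linear_combination (nn (x 0) ^ 2) * hcs
  rw [X, hden, div_eq_iff (by positivity), tube_zero, tube_one, tube_two, tube_three]
  linear_combination (nn (x 0) ^ 2 * cx (x 0)) * hcs

theorem Y_tube (x : E2) : Y (tube P x) = cy (x 0) := by
  have hn := nn_pos (x 0)
  have hcs := Real.sin_sq_add_cos_sq (x 1)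
  have hden : tube P x 0 ^ 2 + tube P x 1 ^ 2 = nn (x 0) ^ 2 := by
    rw [tube_zero, tube_one]; linear_combination (nn (x 0) ^ 2) * hcs
  rw [Y, hden, div_eq_iff (by positivity), tube_zero, tube_one, tube_two, tube_three]
  linear_combination (nn (x 0) ^ 2 * cy (x 0)) * hcs

theorem zc_tube (x : E2) (θ₀ : ℝ) : zc (tube P x) * Complex.exp (-(θ₀ * Complex.I))
    = (nn (x 0) : ℂ) * (Real.cos (x 1 - θ₀) + Real.sin (x 1 - θ₀) * Complex.I) := by
  have h1 : zc (tube P x) = (nn (x 0) : ℂ) * Complex.exp ((x 1 : ℝ) * Complex.I) := by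
    rw [Complex.exp_mul_I]
    apply Complex.ext
    · simp [zc, tube_zero, ← Complex.ofReal_cos, ← Complex.ofReal_sin]
    · simp [zc, tube_one, ← Complex.ofReal_cos, ← Complex.ofReal_sin]
  rw [h1, mul_assoc, ← Complex.exp_add]
  have h2 : ((x 1 : ℝ) : ℂ) * Complex.I + -((θ₀ : ℂ) * Complex.I)
      = ((x 1 - θ₀ : ℝ) : ℂ) * Complex.I := by push_cast; ring
  rw [h2, Complex.exp_mul_I, ← Complex.ofReal_cos, ← Complex.ofReal_sin]

/-- The angle function near `θ₀`. -/
noncomputable def ang (θ₀ : ℝ) (q : E4) : ℝ :=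
  θ₀ + Complex.arg (zc q * Complex.exp (-(θ₀ * Complex.I)))

/-- The region where the angle function is continuous. -/
def Slit (θ₀ : ℝ) : Set E4 := {q | zc q * Complex.exp (-(θ₀ * Complex.I)) ∈ Complex.slitPlane}

theorem zc_continuous : Continuous zc := by
  have h0 : Continuous (fun x : E4 => x 0) := (EuclideanSpace.proj (0 : Fin 4)).continuous
  have h1 : Continuous (fun x : E4 => x 1) := (EuclideanSpace.proj (1 : Fin 4)).continuous
  have : zc = fun q => ((q 0 : ℝ) : ℂ) + ((q 1 : ℝ) : ℂ) * Complex.I := by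
    funext q
    apply Complex.ext <;> simp [zc]
  rw [this]
  exact (Complex.continuous_ofReal.comp h0).add
    ((Complex.continuous_ofReal.comp h1).mul continuous_const)

theorem isOpen_Slit (θ₀ : ℝ) : IsOpen (Slit θ₀) := by
  exact Complex.isOpen_slitPlane.preimage (zc_continuous.mul continuous_const)

theorem ang_continuousOn (θ₀ : ℝ) : ContinuousOn (ang θ₀) (Slit θ₀) := by
  intro q hq
  have h1 : ContinuousAt Complex.arg (zc q * Complex.exp (-(θ₀ * Complex.I))) :=
    Complex.continuousAt_arg hq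
  have h2 : ContinuousAt (fun q => zc q * Complex.exp (-(θ₀ * Complex.I))) q :=
    (zc_continuous.mul continuous_const).continuousAt
  exact (continuousAt_const.add (ContinuousAt.comp (f := fun q => zc q *
    Complex.exp (-(θ₀ * Complex.I))) h1 h2)).continuousWithinAt

theorem ang_tube {x : E2} {θ₀ : ℝ} (hx : |x 1 - θ₀| < Real.pi) :
    tube P x ∈ Slit θ₀ ∧ ang θ₀ (tube P x) = x 1 := by
  rw [abs_lt] at hx
  have harg : Complex.arg (zc (tube P x) * Complex.exp (-(θ₀ * Complex.I))) = x 1 - θ₀ := by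
    rw [zc_tube]
    have := Complex.arg_mul_cos_add_sin_mul_I (nn_pos (x 0)) (θ := x 1 - θ₀) ⟨hx.1, hx.2.le⟩
    push_cast at this ⊢
    exact this
  constructor
  · rw [Slit, Set.mem_ofPred_eq, Complex.mem_slitPlane_iff_arg]
    constructor
    · rw [harg]; exact hx.2.ne
    · rw [zc_tube]
      have h1 : ((nn (x 0) : ℝ) : ℂ) ≠ 0 := by exact_mod_cast (nn_pos (x 0)).ne'
      refine mul_ne_zero h1 ?_
      have := Complex.exp_ne_zero (((x 1 - θ₀ : ℝ) : ℂ) * Complex.I)
      rw [Complex.exp_mul_I, ← Complex.ofReal_cos, ← Complex.ofReal_sin] at this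
      exact this
  · rw [ang, harg]; ring

theorem ang_spec {x : E2} {θ₀ : ℝ} (hx : tube P x ∈ Slit θ₀) :
    |ang θ₀ (tube P x) - θ₀| < Real.pi ∧ Real.cos (ang θ₀ (tube P x)) = Real.cos (x 1) ∧
      Real.sin (ang θ₀ (tube P x)) = Real.sin (x 1) := by
  set z := zc (tube P x) * Complex.exp (-(θ₀ * Complex.I)) with hz
  have hx' : z ∈ Complex.slitPlane := hx
  rw [Complex.mem_slitPlane_iff_arg] at hx'
  have hle := Complex.arg_le_pi z
  have hlt : Complex.arg z < Real.pi := lt_of_le_of_ne hle hx'.1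
  have hgt := Complex.neg_pi_lt_arg z
  have hexp : Complex.exp ((ang θ₀ (tube P x) : ℝ) * Complex.I)
      = Complex.exp ((x 1 : ℝ) * Complex.I) := by
    have h1 : (‖z‖ : ℂ) * Complex.exp (Complex.arg z * Complex.I) = z :=
      Complex.norm_mul_exp_arg_mul_I z
    have h2 : z = (nn (x 0) : ℂ) * Complex.exp (((x 1 - θ₀ : ℝ) : ℂ) * Complex.I) := by
      rw [hz, zc_tube, Complex.exp_mul_I, ← Complex.ofReal_cos, ← Complex.ofReal_sin]
    have h3 : ‖z‖ = nn (x 0) := by
      rw [h2, norm_mul, Complex.norm_exp_ofReal_mul_I, mul_one, Complex.norm_real,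
        Real.norm_eq_abs, abs_of_pos (nn_pos _)]
    have h4 : Complex.exp (Complex.arg z * Complex.I)
        = Complex.exp (((x 1 - θ₀ : ℝ) : ℂ) * Complex.I) := by
      have h5 : ((nn (x 0) : ℝ) : ℂ) ≠ 0 := by exact_mod_cast (nn_pos (x 0)).ne'
      apply mul_left_cancel₀ h5
      rw [← h2, ← h3, h1]
    have h6 : ((ang θ₀ (tube P x) : ℝ) : ℂ) * Complex.I
        = (θ₀ : ℂ) * Complex.I + (Complex.arg z : ℂ) * Complex.I := by
      rw [ang]; push_cast; ring
    have h7 : ((x 1 : ℝ) : ℂ) * Complex.I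
        = (θ₀ : ℂ) * Complex.I + ((x 1 - θ₀ : ℝ) : ℂ) * Complex.I := by
      push_cast; ring
    rw [h6, h7, Complex.exp_add, Complex.exp_add, h4]
  have hre := congrArg Complex.re hexp
  have him := congrArg Complex.im hexp
  rw [Complex.exp_ofReal_mul_I_re, Complex.exp_ofReal_mul_I_re] at hre
  rw [Complex.exp_ofReal_mul_I_im, Complex.exp_ofReal_mul_I_im] at him
  refine ⟨?_, hre, him⟩
  rw [abs_lt]
  have : ang θ₀ (tube P x) - θ₀ = Complex.arg z := by rw [ang]; ring
  rw [this]
  exact ⟨hgt, hlt⟩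

theorem one_mem_Om : (!₂[(2:ℝ), 0] : E2) ∈ Om := by
  left; simp

/-- The parametrization of `M`. -/
noncomputable def par (x : E2) : M := by
  classical
  exact if h : x ∈ Om then ⟨tube P x, x, h, rfl⟩ else ⟨tube P !₂[(2:ℝ), 0], _, one_mem_Om, rfl⟩

theorem par_val {x : E2} (hx : x ∈ Om) : (par x : E4) = tube P x := by
  simp [par, hx]

theorem phase_congr {x : E2} {t θ : ℝ} (hc : Real.cos θ = Real.cos (x 1))
    (hs : Real.sin θ = Real.sin (x 1)) (ht : t = x 0) : (!₂[t, θ] : E2) ∈ Om ↔ x ∈ Om := by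
  subst ht
  simp [Om, hc, hs]

theorem tube_congr {x : E2} {t θ : ℝ} (hc : Real.cos θ = Real.cos (x 1))
    (hs : Real.sin θ = Real.sin (x 1)) (ht : t = x 0) : tube P (!₂[t, θ] : E2) = tube P x := by
  subst ht
  simp [tube, rot, hc, hs]

/-- Construction of charts of `M` from a range of the first parameter. -/
theorem chart_of_region (T : Set ℝ) (hT : IsOpen T) (O : Set E4) (hO : IsOpen O)
    (τ : E4 → ℝ) (hτ : ContinuousOn τ O)
    (ha : ∀ x ∈ Om, x 0 ∈ T → tube P x ∈ O)
    (hb : ∀ x ∈ Om, tube P x ∈ O → ∃ t' ∈ T, (!₂[t', x 1] : E2) ∈ Om ∧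
      tube P (!₂[t', x 1] : E2) = tube P x)
    (hc : ∀ x ∈ Om, x 0 ∈ T → τ (tube P x) = x 0) (θ₀ : ℝ) :
    IsChart (Subtype.val : M → E4) {x | x ∈ Om ∧ x 0 ∈ T ∧ |x 1 - θ₀| < Real.pi} par := by
  have h0 : Continuous (fun x : E2 => x 0) := (EuclideanSpace.proj (0 : Fin 2)).continuous
  have h1 : Continuous (fun x : E2 => x 1) := (EuclideanSpace.proj (1 : Fin 2)).continuous
  set U : Set E2 := {x | x ∈ Om ∧ x 0 ∈ T ∧ |x 1 - θ₀| < Real.pi} with hU
  have hUopen : IsOpen U := by
    have : U = Om ∩ ((fun x : E2 => x 0) ⁻¹' T ∩ {x : E2 | |x 1 - θ₀| < Real.pi}) := rfl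
    rw [this]
    exact isOpen_Om.inter ((hT.preimage h0).inter (isOpen_lt (by fun_prop) continuous_const))
  have hev : ∀ x ∈ U, (Subtype.val ∘ par : E2 → E4) =ᶠ[𝓝 x] tube P := by
    intro x hx
    filter_upwards [hUopen.mem_nhds hx] with y hy
    exact par_val hy.1
  refine ⟨hUopen, ?_, ?_, ?_⟩
  · let χ : M → E2 := fun p => !₂[τ p, ang θ₀ p]
    refine isOpenEmbedding_of_inverse (O := {p : M | (p : E4) ∈ O ∩ Slit θ₀}) (χ := χ)
      ?_ hUopen ?_ ?_ ?_ ?_
    · rw [Topology.IsInducing.subtypeVal.continuousOn_iff]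
      exact ((tube_contDiff P_contDiff).continuous.continuousOn).congr
        (fun x hx => par_val hx.1)
    · exact (hO.inter (isOpen_Slit θ₀)).preimage continuous_subtype_val
    · have hA : ContinuousOn (fun p : M => τ p) {p : M | (p : E4) ∈ O ∩ Slit θ₀} :=
        (hτ.mono Set.inter_subset_left).comp continuous_subtype_val.continuousOn (fun p hp => hp)
      have hB : ContinuousOn (fun p : M => ang θ₀ p) {p : M | (p : E4) ∈ O ∩ Slit θ₀} :=
        ((ang_continuousOn θ₀).mono Set.inter_subset_right).comp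
          continuous_subtype_val.continuousOn (fun p hp => hp)
      have hC : ContinuousOn (fun p : M => (![τ p, ang θ₀ p] : Fin 2 → ℝ))
          {p : M | (p : E4) ∈ O ∩ Slit θ₀} := by
        rw [continuousOn_pi]
        intro i
        fin_cases i
        · exact hA
        · exact hB
      exact (PiLp.continuous_toLp 2 (fun _ : Fin 2 => ℝ)).comp_continuousOn hC
    · intro x hx
      have hv := par_val hx.1
      have hang := ang_tube (x := x) hx.2.2
      refine ⟨?_, ?_⟩
      · change (par x : E4) ∈ O ∩ Slit θ₀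
        rw [hv]
        exact ⟨ha x hx.1 hx.2.1, hang.1⟩
      · change (!₂[τ (par x), ang θ₀ (par x)] : E2) = x
        rw [hv, hc x hx.1 hx.2.1, hang.2]
        ext i; fin_cases i <;> simp
    · rintro ⟨q, x, hx, rfl⟩ ⟨hpO, hpS⟩
      change tube P x ∈ O at hpO
      change tube P x ∈ Slit θ₀ at hpS
      obtain ⟨t', ht', hmem, heq⟩ := hb x hx hpO
      have hs := ang_spec hpS
      have hτ' : τ (tube P x) = t' := by
        rw [← heq]
        have := hc _ hmem (by simpa using ht')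
        simpa using this
      have hmem2 : (!₂[t', ang θ₀ (tube P x)] : E2) ∈ Om := by
        rw [phase_congr (x := !₂[t', x 1])]
        · exact hmem
        · simpa using hs.2.1
        · simpa using hs.2.2
        · simp
      have htube2 : tube P (!₂[t', ang θ₀ (tube P x)] : E2) = tube P x := by
        rw [← heq]
        apply tube_congr
        · rw [heq]; simpa using hs.2.1
        · rw [heq]; simpa using hs.2.2
        · simp
      constructor
      · change (!₂[τ (tube P x), ang θ₀ (tube P x)] : E2) ∈ U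
        rw [hτ']
        exact ⟨hmem2, by simpa using ht', by simpa using hs.1⟩
      · apply Subtype.ext
        change (par (!₂[τ (tube P x), ang θ₀ (tube P x)] : E2) : E4) = tube P x
        rw [hτ', par_val hmem2, htube2]
  · exact (tube_contDiff P_contDiff).contDiffOn.congr (fun x hx => par_val hx.1)
  · intro x hx
    rw [(hev x hx).fderiv_eq]
    exact tube_immersion P_contDiff norm_P hor_P_ne_zero x

end Pool.Agent.LibFlatS3
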