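import Pool.Agent.LibFlatS3.Tube

set_option autoImplicit false

open scoped RealInnerProductSpace
open Topology Filter

namespace Pool.Agent.LibFlatS3

/-- The truncated power. -/
noncomputable def tp (n : ℕ) (u : ℝ) : ℝ := (max 0 u) ^ n

theorem tp_hasDerivAt (n : ℕ) (u : ℝ) : HasDerivAt (tp (n + 2)) ((n + 2) * tp (n + 1) u) u := by
  rcases lt_trichotomy u 0 with hu | hu | hu
  · have h1 : tp (n + 2) =ᶠ[𝓝 u] fun _ => 0 := by
      filter_upwards [gt_mem_nhds hu] with v hv
      simp [tp, max_eq_left hv.le]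
    have h2 : ((n : ℝ) + 2) * tp (n + 1) u = 0 := by
      simp [tp, max_eq_left hu.le]
    rw [h2]
    exact (hasDerivAt_const u (0:ℝ)).congr_of_eventuallyEq h1
  · subst hu
    have h2 : ((n : ℝ) + 2) * tp (n + 1) 0 = 0 := by simp [tp]
    rw [h2, hasDerivAt_iff_isLittleO_nhds_zero]
    have h3 : (fun h : ℝ => tp (n + 2) (0 + h) - tp (n + 2) 0 - h • (0:ℝ))
        =O[𝓝 0] (fun h : ℝ => h ^ (n + 2)) := by
      refine Asymptotics.IsBigO.of_bound 1 (Eventually.of_forall fun h => ?_)
      simp only [tp, zero_add, max_self, smul_zero, sub_zero, one_mul, norm_pow, Real.norm_eq_abs]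
      rw [zero_pow (by omega), sub_zero, abs_pow]
      apply pow_le_pow_left₀ (abs_nonneg _)
      rcases le_total 0 h with hh | hh
      · rw [max_eq_right hh]
      · rw [max_eq_left hh, abs_zero]; exact abs_nonneg _
    refine h3.trans_isLittleO ?_
    have h4 : (fun h : ℝ => h ^ (n + 2)) =o[𝓝 0] (fun h : ℝ => h ^ 1) :=
      Asymptotics.isLittleO_pow_pow (by omega)
    simpa using h4
  · have h1 : tp (n + 2) =ᶠ[𝓝 u] fun v => v ^ (n + 2) := by
      filter_upwards [lt_mem_nhds hu] with v hv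
      simp [tp, max_eq_right hv.le]
    have h2 : ((n : ℝ) + 2) * tp (n + 1) u = ((n + 2 : ℕ) : ℝ) * u ^ (n + 2 - 1) := by
      simp [tp, max_eq_right hu.le]
    rw [h2]
    exact (hasDerivAt_pow (n + 2) u).congr_of_eventuallyEq h1

theorem tp_contDiff : ContDiff ℝ 2 (tp 3) := by
  have h : ContDiff ℝ (1 + 1) (tp 3) := by
    rw [contDiff_succ_iff_deriv]
    refine ⟨fun t => (tp_hasDerivAt 1 t).differentiableAt, by simp, ?_⟩
    have hd : deriv (tp 3) = fun u => (((1:ℕ):ℝ) + 2) * tp 2 u := by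
      funext t; exact (tp_hasDerivAt 1 t).deriv
    rw [hd]
    have h2 : ContDiff ℝ (0 + 1) (tp 2) := by
      rw [contDiff_succ_iff_deriv]
      refine ⟨fun t => (tp_hasDerivAt 0 t).differentiableAt, by simp, ?_⟩
      have hd : deriv (tp 2) = fun u => (((0:ℕ):ℝ) + 2) * tp 1 u := by
        funext t; exact (tp_hasDerivAt 0 t).deriv
      rw [hd]
      rw [contDiff_zero]
      unfold tp
      fun_prop
    norm_num at h2
    exact contDiff_const.mul h2
  norm_num at h
  exact h

/-- Real part of the teardrop curve. -/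
noncomputable def cx (t : ℝ) : ℝ := 1 - t ^ 2

/-- Imaginary part of the teardrop curve. -/
noncomputable def cy (t : ℝ) : ℝ := t * tp 3 (1 - t ^ 2)

theorem cx_contDiff : ContDiff ℝ 2 cx := by unfold cx; fun_prop

theorem cy_contDiff : ContDiff ℝ 2 cy := by
  unfold cy
  exact contDiff_id.mul (tp_contDiff.comp (by fun_prop))

/-- Homogeneous coordinates of the teardrop curve. -/
noncomputable def Q (t : ℝ) : E4 := !₂[1, 0, cx t, cy t]

theorem Q_contDiff : ContDiff ℝ 2 Q := by
  rw [contDiff_euclidean]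
  intro i
  fin_cases i
  · exact contDiff_const
  · exact contDiff_const
  · exact cx_contDiff
  · exact cy_contDiff

theorem Q_ne_zero (t : ℝ) : Q t ≠ 0 := by
  intro h
  have := congrArg (fun v : E4 => v 0) h
  simp [Q] at this

/-- The base curve, normalized. -/
noncomputable def P (t : ℝ) : E4 := ‖Q t‖⁻¹ • Q t

theorem P_contDiff : ContDiff ℝ 2 P := by
  have h : ContDiff ℝ 2 (fun t => ‖Q t‖) := Q_contDiff.norm ℝ Q_ne_zero
  exact (h.inv (fun t => (norm_pos_iff.mpr (Q_ne_zero t)).ne')).smul Q_contDiff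

theorem norm_P (t : ℝ) : ‖P t‖ = 1 := by
  rw [P, norm_smul, norm_inv, norm_norm, inv_mul_cancel₀ (norm_pos_iff.mpr (Q_ne_zero t)).ne']

theorem cx_neg (t : ℝ) : cx (-t) = cx t := by simp [cx]

theorem cy_zero {t : ℝ} (ht : 1 ≤ t ^ 2) : cy t = 0 := by
  have : max 0 (1 - t ^ 2) = 0 := max_eq_left (by linarith)
  simp [cy, tp, this]

theorem P_neg {t : ℝ} (ht : 1 ≤ t ^ 2) : P (-t) = P t := by
  have h : Q (-t) = Q t := by
    rw [Q, Q, cx_neg, cy_zero ht, cy_zero (by simpa using ht)]
  rw [P, P, h]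

theorem hor_P_ne_zero (t : ℝ) : hor P t ≠ 0 := by
  intro h
  have hn : ContDiff ℝ 2 (fun t => ‖Q t‖⁻¹) :=
    (Q_contDiff.norm ℝ Q_ne_zero).inv (fun t => (norm_pos_iff.mpr (Q_ne_zero t)).ne')
  set n : ℝ → ℝ := fun t => ‖Q t‖⁻¹ with hndef
  have hnpos : 0 < n t := inv_pos.mpr (norm_pos_iff.mpr (Q_ne_zero t))
  have hnd : HasDerivAt n (deriv n t) t := (hn.differentiable (by norm_num) t).hasDerivAt
  have hxd : HasDerivAt cx (deriv cx t) t := (cx_contDiff.differentiable (by norm_num) t).hasDerivAt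
  have hyd : HasDerivAt cy (deriv cy t) t := (cy_contDiff.differentiable (by norm_num) t).hasDerivAt
  have hPd : HasDerivAt P (deriv P t) t := (P_contDiff.differentiable (by norm_num) t).hasDerivAt
  have hPi : ∀ i : Fin 4, HasDerivAt (fun s => P s i) (deriv P t i) t := by
    intro i
    have := (EuclideanSpace.proj i : E4 →L[ℝ] ℝ).hasFDerivAt.comp_hasDerivAt t hPd
    exact this
  have e0 : deriv P t 0 = deriv n t := by
    have h1 : (fun s => P s 0) = n := by
      funext s; simp [P, Q, n]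
    have h2 := hPi 0
    rw [h1] at h2
    exact h2.unique hnd
  have e1 : deriv P t 1 = 0 := by
    have h1 : (fun s => P s 1) = fun _ => (0:ℝ) := by
      funext s; simp [P, Q]
    have h2 := hPi 1
    rw [h1] at h2
    exact h2.unique (hasDerivAt_const t (0:ℝ))
  have e2 : deriv P t 2 = deriv n t * cx t + n t * deriv cx t := by
    have h1 : (fun s => P s 2) = fun s => n s * cx s := by
      funext s; simp [P, Q, n]
    have h2 := hPi 2
    rw [h1] at h2
    exact h2.unique (hnd.mul hxd)
  have e3 : deriv P t 3 = deriv n t * cy t + n t * deriv cy t := by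
    have h1 : (fun s => P s 3) = fun s => n s * cy s := by
      funext s; simp [P, Q, n]
    have h2 := hPi 3
    rw [h1] at h2
    exact h2.unique (hnd.mul hyd)
  have hP' : deriv P t = mu P t • J (P t) := by
    rw [hor, sub_eq_zero] at h; exact h
  have hJ0 : J (P t) 0 = 0 := by simp [J_apply, P, Q]
  have hJ1 : J (P t) 1 = n t := by simp [J_apply, P, Q, n]
  have hJ2 : J (P t) 2 = -(n t * cy t) := by simp [J_apply, P, Q, n]
  have hJ3 : J (P t) 3 = n t * cx t := by simp [J_apply, P, Q, n]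
  have f0 : deriv n t = 0 := by
    rw [← e0, hP']; simp [hJ0]
  have f1 : mu P t = 0 := by
    have : deriv P t 1 = mu P t * n t := by
      conv_lhs => rw [hP']
      simp [hJ1]
    rw [e1] at this
    rcases mul_eq_zero.mp this.symm with h | h
    · exact h
    · exact absurd h hnpos.ne'
  have f2 : deriv cx t = 0 := by
    have : deriv P t 2 = 0 := by rw [hP', f1]; simp
    rw [e2, f0] at this
    have : n t * deriv cx t = 0 := by linarith
    rcases mul_eq_zero.mp this with h | h
    · exact absurd h hnpos.ne'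
    · exact h
  have f3 : deriv cy t = 0 := by
    have : deriv P t 3 = 0 := by rw [hP', f1]; simp
    rw [e3, f0] at this
    have : n t * deriv cy t = 0 := by linarith
    rcases mul_eq_zero.mp this with h | h
    · exact absurd h hnpos.ne'
    · exact h
  have g1 : HasDerivAt cx (-(2 * t)) t := by
    have h1 := ((hasDerivAt_pow 2 t).const_sub 1)
    have h2 : (2:ℕ) * t ^ (2 - 1) = 2 * t := by norm_num
    rw [h2] at h1
    exact h1
  have ht : t = 0 := by
    have := hxd.unique g1
    rw [f2] at this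
    linarith
  subst ht
  have g2 : HasDerivAt cy (1 * tp 3 (1 - 0 ^ 2) + 0 * deriv (fun t : ℝ => tp 3 (1 - t ^ 2)) 0) 0 := by
    have hdd : DifferentiableAt ℝ (fun t : ℝ => tp 3 (1 - t ^ 2)) 0 := by
      have : ContDiff ℝ 2 (fun t : ℝ => tp 3 (1 - t ^ 2)) := tp_contDiff.comp (by fun_prop)
      exact this.differentiable (by norm_num) 0
    exact (hasDerivAt_id (0:ℝ)).mul hdd.hasDerivAt
  have := hyd.unique g2
  rw [f3] at this
  simp [tp] at this

end Pool.Agent.LibFlatS3
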