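import Pool.Agent.LibFlatS3.Basic

set_option autoImplicit false

open scoped RealInnerProductSpace
open Topology Filter

namespace Pool.Agent.LibFlatS3

/-- Multiplication by `i` on `ℝ⁴ = ℂ²`. -/
noncomputable def J : E4 →L[ℝ] E4 := LinearMap.toContinuousLinearMap
  { toFun := fun v => !₂[-v 1, v 0, -v 3, v 2]
    map_add' := by
      intro u v
      ext i
      fin_cases i <;> simp <;> ring
    map_smul' := by
      intro c v
      ext i
      fin_cases i <;> simp }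

theorem J_apply (v : E4) : J v = !₂[-v 1, v 0, -v 3, v 2] := rfl

theorem J_J (v : E4) : J (J v) = -v := by
  ext i
  fin_cases i <;> simp [J_apply]

theorem inner_four (u v : E4) : ⟪u, v⟫ = u 0 * v 0 + u 1 * v 1 + u 2 * v 2 + u 3 * v 3 := by
  rw [PiLp.inner_apply]
  simp [Fin.sum_univ_four]
  ring

theorem inner_J_J (u v : E4) : ⟪J u, J v⟫ = ⟪u, v⟫ := by
  rw [inner_four, inner_four]
  simp [J_apply]
  ring

theorem inner_J_self (v : E4) : ⟪v, J v⟫ = 0 := by
  rw [inner_four]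
  simp [J_apply]
  ring

theorem inner_J_self' (v : E4) : ⟪J v, v⟫ = 0 := by
  rw [real_inner_comm]; exact inner_J_self v

theorem inner_J_left (u v : E4) : ⟪J u, v⟫ = -⟪u, J v⟫ := by
  rw [inner_four, inner_four]
  simp [J_apply]
  ring

theorem norm_J (v : E4) : ‖J v‖ = ‖v‖ := by
  have h : ‖J v‖ ^ 2 = ‖v‖ ^ 2 := by
    rw [← real_inner_self_eq_norm_sq, ← real_inner_self_eq_norm_sq, inner_J_J]
  exact (pow_left_inj₀ (norm_nonneg _) (norm_nonneg _) (by norm_num)).mp h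

/-- Rotation by the angle `θ` along Hopf fibres. -/
noncomputable def rot (θ : ℝ) (v : E4) : E4 := Real.cos θ • v + Real.sin θ • J v

theorem rot_add_vec (θ : ℝ) (u v : E4) : rot θ (u + v) = rot θ u + rot θ v := by
  simp only [rot, map_add, smul_add]; abel

theorem rot_smul (θ c : ℝ) (v : E4) : rot θ (c • v) = c • rot θ v := by
  simp only [rot, map_smul, smul_add, smul_comm c]

theorem rot_J (θ : ℝ) (v : E4) : rot θ (J v) = J (rot θ v) := by
  simp only [rot, map_add, map_smul]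

theorem inner_rot (θ : ℝ) (u v : E4) : ⟪rot θ u, rot θ v⟫ = ⟪u, v⟫ := by
  simp only [rot, inner_add_left, inner_add_right, real_inner_smul_left, real_inner_smul_right,
    inner_J_J]
  rw [inner_J_left]
  have := Real.sin_sq_add_cos_sq θ
  linear_combination (⟪u, v⟫) * this

theorem norm_rot (θ : ℝ) (v : E4) : ‖rot θ v‖ = ‖v‖ := by
  have h : ‖rot θ v‖ ^ 2 = ‖v‖ ^ 2 := by
    rw [← real_inner_self_eq_norm_sq, ← real_inner_self_eq_norm_sq, inner_rot]
  exact (pow_left_inj₀ (norm_nonneg _) (norm_nonneg _) (by norm_num)).mp h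

/-- The Hopf tube over the curve `P`. -/
noncomputable def tube (P : ℝ → E4) (x : E2) : E4 := rot (x 1) (P (x 0))

variable {P : ℝ → E4}

theorem tube_contDiff {n : WithTop ℕ∞} (hP : ContDiff ℝ n P) : ContDiff ℝ n (tube P) := by
  have h0 : ContDiff ℝ n (fun x : E2 => x 0) :=
    (EuclideanSpace.proj (0 : Fin 2) : E2 →L[ℝ] ℝ).contDiff
  have h1 : ContDiff ℝ n (fun x : E2 => x 1) :=
    (EuclideanSpace.proj (1 : Fin 2) : E2 →L[ℝ] ℝ).contDiff
  have h2 : ContDiff ℝ n (fun x : E2 => P (x 0)) := hP.comp h0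
  unfold tube rot
  exact ((Real.contDiff_cos.comp h1).smul h2).add
    ((Real.contDiff_sin.comp h1).smul (J.contDiff.comp h2))

theorem tube_hasFDerivAt {x : E2} {P' : E4} (hP : HasDerivAt P P' (x 0)) :
    HasFDerivAt (tube P)
      (((EuclideanSpace.proj (0 : Fin 2) : E2 →L[ℝ] ℝ).smulRight (rot (x 1) P')) +
        ((EuclideanSpace.proj (1 : Fin 2) : E2 →L[ℝ] ℝ).smulRight (J (tube P x)))) x := by
  have h0 : HasFDerivAt (fun x : E2 => x 0) (EuclideanSpace.proj (0 : Fin 2) : E2 →L[ℝ] ℝ) x :=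
    (EuclideanSpace.proj (0 : Fin 2) : E2 →L[ℝ] ℝ).hasFDerivAt
  have h1 : HasFDerivAt (fun x : E2 => x 1) (EuclideanSpace.proj (1 : Fin 2) : E2 →L[ℝ] ℝ) x :=
    (EuclideanSpace.proj (1 : Fin 2) : E2 →L[ℝ] ℝ).hasFDerivAt
  have hPx : HasFDerivAt (fun x : E2 => P (x 0))
      ((EuclideanSpace.proj (0 : Fin 2) : E2 →L[ℝ] ℝ).smulRight P') x := by
    have := hP.hasFDerivAt.comp x h0
    refine this.congr_fderiv ?_
    ext w
    simp
  have hJ : HasFDerivAt (fun x : E2 => J (P (x 0)))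
      (J.comp ((EuclideanSpace.proj (0 : Fin 2) : E2 →L[ℝ] ℝ).smulRight P')) x :=
    J.hasFDerivAt.comp x hPx
  have hc := ((Real.hasDerivAt_cos (x 1)).hasFDerivAt.comp x h1).smul hPx
  have hs := ((Real.hasDerivAt_sin (x 1)).hasFDerivAt.comp x h1).smul hJ
  have := hc.add hs
  refine this.congr_fderiv ?_
  ext1 w
  simp [tube, rot, J_J]
  module

theorem tube_fderiv_apply {x : E2} {P' : E4} (hP : HasDerivAt P P' (x 0)) (w : E2) :
    fderiv ℝ (tube P) x w = w 0 • rot (x 1) P' + w 1 • J (tube P x) := by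
  rw [(tube_hasFDerivAt hP).fderiv]
  simp

/-- The connection form of the Hopf bundle along `P`. -/
noncomputable def mu (P : ℝ → E4) (t : ℝ) : ℝ := ⟪deriv P t, J (P t)⟫

/-- The horizontal part of the velocity of `P`. -/
noncomputable def hor (P : ℝ → E4) (t : ℝ) : E4 := deriv P t - mu P t • J (P t)

theorem inner_hor_J (hP1 : ∀ t, ‖P t‖ = 1) (t : ℝ) : ⟪hor P t, J (P t)⟫ = 0 := by
  have h : ⟪J (P t), J (P t)⟫ = 1 := by
    rw [inner_J_J, real_inner_self_eq_norm_sq, hP1]; norm_num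
  rw [hor, inner_sub_left, real_inner_smul_left, h, mu]
  ring

theorem tube_metric (hP1 : ∀ t, ‖P t‖ = 1) (hd : Differentiable ℝ P) (x w : E2) :
    ‖fderiv ℝ (tube P) x w‖ ^ 2
      = (‖hor P (x 0)‖ * w 0) ^ 2 + (w 1 + mu P (x 0) * w 0) ^ 2 := by
  have h1 : deriv P (x 0) = hor P (x 0) + mu P (x 0) • J (P (x 0)) := by
    rw [hor]; abel
  have h2 : fderiv ℝ (tube P) x w
      = rot (x 1) (w 0 • hor P (x 0) + (w 1 + mu P (x 0) * w 0) • J (P (x 0))) := by
    rw [tube_fderiv_apply (hd (x 0)).hasDerivAt, h1]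
    simp only [tube, rot, map_add, map_smul, J_J]
    module
  rw [h2, norm_rot, ← real_inner_self_eq_norm_sq]
  simp only [inner_add_left, inner_add_right, real_inner_smul_left, real_inner_smul_right]
  have h3 : ⟪J (P (x 0)), hor P (x 0)⟫ = 0 := by
    rw [real_inner_comm]; exact inner_hor_J hP1 _
  have h4 : ⟪J (P (x 0)), J (P (x 0))⟫ = 1 := by
    rw [inner_J_J, real_inner_self_eq_norm_sq, hP1]; norm_num
  rw [inner_hor_J hP1, h3, h4, real_inner_self_eq_norm_sq]
  ring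

theorem mu_contDiff (hP : ContDiff ℝ 2 P) : ContDiff ℝ 1 (mu P) := by
  have h1 : ContDiff ℝ 1 (deriv P) := by
    have h : ContDiff ℝ (1 + 1) P := by norm_num; exact hP
    exact (contDiff_succ_iff_deriv.mp h).2.2
  exact h1.inner ℝ (J.contDiff.comp (hP.of_le (by norm_num)))

theorem hor_contDiff (hP : ContDiff ℝ 2 P) : ContDiff ℝ 1 (hor P) := by
  have h1 : ContDiff ℝ 1 (deriv P) := by
    have h : ContDiff ℝ (1 + 1) P := by norm_num; exact hP
    exact (contDiff_succ_iff_deriv.mp h).2.2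
  exact h1.sub ((mu_contDiff hP).smul (J.contDiff.comp (hP.of_le (by norm_num))))

theorem primitive_contDiff {g : ℝ → ℝ} (hg : ContDiff ℝ 1 g) :
    ContDiff ℝ 2 (fun t => ∫ u in (0:ℝ)..t, g u) := by
  have h : ContDiff ℝ (1 + 1) (fun t => ∫ u in (0:ℝ)..t, g u) := by
    rw [contDiff_succ_iff_deriv]
    refine ⟨fun t => (hg.continuous.integral_hasStrictDerivAt 0 t).hasDerivAt.differentiableAt,
      by simp, ?_⟩
    have : deriv (fun t => ∫ u in (0:ℝ)..t, g u) = g := by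
      funext t
      exact (hg.continuous.integral_hasStrictDerivAt 0 t).hasDerivAt.deriv
    rw [this]
    exact hg
  norm_num at h
  exact h

/-- The developing map of the tube: arc length of the base curve and the corrected angle. -/
noncomputable def dev (P : ℝ → E4) (x : E2) : E2 :=
  !₂[∫ u in (0:ℝ)..(x 0), ‖hor P u‖, x 1 + ∫ u in (0:ℝ)..(x 0), mu P u]

theorem dev_contDiff (hP : ContDiff ℝ 2 P) (hreg : ∀ t, hor P t ≠ 0) : ContDiff ℝ 2 (dev P) := by
  have h0 : ContDiff ℝ 2 (fun x : E2 => x 0) :=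
    (EuclideanSpace.proj (0 : Fin 2) : E2 →L[ℝ] ℝ).contDiff
  have h1 : ContDiff ℝ 2 (fun x : E2 => x 1) :=
    (EuclideanSpace.proj (1 : Fin 2) : E2 →L[ℝ] ℝ).contDiff
  rw [contDiff_euclidean]
  intro i
  fin_cases i
  · exact (primitive_contDiff ((hor_contDiff hP).norm ℝ hreg)).comp h0
  · exact h1.add ((primitive_contDiff (mu_contDiff hP)).comp h0)

theorem dev_fderiv (hP : ContDiff ℝ 2 P) (hreg : ∀ t, hor P t ≠ 0) (x w : E2) :
    fderiv ℝ (dev P) x w = !₂[‖hor P (x 0)‖ * w 0, w 1 + mu P (x 0) * w 0] := by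
  have h0 : HasFDerivAt (fun x : E2 => x 0) (EuclideanSpace.proj (0 : Fin 2) : E2 →L[ℝ] ℝ) x :=
    (EuclideanSpace.proj (0 : Fin 2) : E2 →L[ℝ] ℝ).hasFDerivAt
  have h1 : HasFDerivAt (fun x : E2 => x 1) (EuclideanSpace.proj (1 : Fin 2) : E2 →L[ℝ] ℝ) x :=
    (EuclideanSpace.proj (1 : Fin 2) : E2 →L[ℝ] ℝ).hasFDerivAt
  have hn : Continuous (fun u => ‖hor P u‖) := (hor_contDiff hP).continuous.norm
  have hm : Continuous (mu P) := (mu_contDiff hP).continuous
  have hA : HasFDerivAt (fun x : E2 => ∫ u in (0:ℝ)..(x 0), ‖hor P u‖)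
      (‖hor P (x 0)‖ • (EuclideanSpace.proj (0 : Fin 2) : E2 →L[ℝ] ℝ)) x := by
    have := (hn.integral_hasStrictDerivAt 0 (x 0)).hasDerivAt.hasFDerivAt.comp x h0
    refine this.congr_fderiv ?_
    ext w
    simp [mul_comm]
  have hB : HasFDerivAt (fun x : E2 => x 1 + ∫ u in (0:ℝ)..(x 0), mu P u)
      ((EuclideanSpace.proj (1 : Fin 2) : E2 →L[ℝ] ℝ)
        + mu P (x 0) • (EuclideanSpace.proj (0 : Fin 2) : E2 →L[ℝ] ℝ)) x := by
    have := h1.add ((hm.integral_hasStrictDerivAt 0 (x 0)).hasDerivAt.hasFDerivAt.comp x h0)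
    refine this.congr_fderiv ?_
    ext w
    simp [mul_comm]
  have hd : DifferentiableAt ℝ (dev P) x :=
    (dev_contDiff hP hreg).differentiable (by norm_num) x
  have hcomp : ∀ i : Fin 2, (fderiv ℝ (dev P) x w) i
      = fderiv ℝ (fun x => dev P x i) x w := by
    intro i
    have := ((EuclideanSpace.proj i : E2 →L[ℝ] ℝ).hasFDerivAt.comp x hd.hasFDerivAt).fderiv
    have h2 : ((EuclideanSpace.proj i : E2 →L[ℝ] ℝ) ∘ dev P) = (fun x => dev P x i) := rfl
    rw [h2] at this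
    rw [this]
    rfl
  ext i
  rw [hcomp i]
  fin_cases i
  · have : (fun x => dev P x (0 : Fin 2)) = (fun x : E2 => ∫ u in (0:ℝ)..(x 0), ‖hor P u‖) := rfl
    simp only [Fin.zero_eta]
    rw [this, hA.fderiv]
    simp
  · have : (fun x => dev P x (1 : Fin 2))
        = (fun x : E2 => x 1 + ∫ u in (0:ℝ)..(x 0), mu P u) := rfl
    simp only [Fin.mk_one]
    rw [this, hB.fderiv]
    simp

theorem dev_isometric (hP : ContDiff ℝ 2 P) (hP1 : ∀ t, ‖P t‖ = 1) (hreg : ∀ t, hor P t ≠ 0)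
    (x w : E2) : ‖fderiv ℝ (dev P) x w‖ = ‖fderiv ℝ (tube P) x w‖ := by
  have h : ‖fderiv ℝ (dev P) x w‖ ^ 2 = ‖fderiv ℝ (tube P) x w‖ ^ 2 := by
    rw [tube_metric hP1 (hP.differentiable (by norm_num)), dev_fderiv hP hreg,
      EuclideanSpace.real_norm_sq_eq]
    simp [Fin.sum_univ_two]
  exact (pow_left_inj₀ (norm_nonneg _) (norm_nonneg _) (by norm_num)).mp h

theorem tube_immersion (hP : ContDiff ℝ 2 P) (hP1 : ∀ t, ‖P t‖ = 1) (hreg : ∀ t, hor P t ≠ 0)
    (x : E2) : Function.Injective (fderiv ℝ (tube P) x) := by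
  rw [injective_iff_map_eq_zero]
  intro w hw
  have h := tube_metric hP1 (hP.differentiable (by norm_num)) x w
  rw [hw] at h
  simp only [norm_zero] at h
  have hn : 0 < ‖hor P (x 0)‖ := norm_pos_iff.mpr (hreg _)
  have h1 : ‖hor P (x 0)‖ * w 0 = 0 := by
    nlinarith [sq_nonneg (‖hor P (x 0)‖ * w 0), sq_nonneg (w 1 + mu P (x 0) * w 0)]
  have h2 : w 0 = 0 := by
    rcases mul_eq_zero.mp h1 with h | h
    · exact absurd h hn.ne'
    · exact h
  have h3 : w 1 = 0 := by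
    have : (w 1 + mu P (x 0) * w 0) ^ 2 = 0 := by
      nlinarith [sq_nonneg (‖hor P (x 0)‖ * w 0), sq_nonneg (w 1 + mu P (x 0) * w 0)]
    have := pow_eq_zero_iff (two_ne_zero) |>.mp this
    rw [h2] at this
    simpa using this
  ext i
  fin_cases i
  · simpa using h2
  · simpa using h3

end Pool.Agent.LibFlatS3
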